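import Pool.Agent.H68.Real

/-! # SC.TwoS

Two-sided bounds for all parameters. -/

set_option autoImplicit false

namespace Pool.Agent.H9.SC

open Pool.Agent.H68

theorem two_sided (d r k : ℕ) (hr : 1 ≤ r) (hrd : r ≤ d + 1) (hk : k < d) :
    ∃ C : ℝ, 0 < C ∧ ∀ n m : ℕ, 1 ≤ m → m ≤ n.choose r →
      max 1 ((m : ℝ) / n) ≤ (fval d r k m n : ℝ) ∧
      (k + r ≤ d → (fval d r k m n : ℝ) ≤ C * max 1 ((m : ℝ) / n)) ∧
      (d < k + r → (fval d r k m n : ℝ) ≤ C * max 1 ((m : ℝ) / n) *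
        (max 1 ((m : ℝ) / (n : ℝ) ^ (d - k))) ^ ((1 : ℝ) / ((k : ℝ) + r - d))) := by
  have hd : 1 ≤ d := by omega
  by_cases hkr : k + r ≤ d
  · have hd0 : (0 : ℝ) < d := by exact_mod_cast hd
    have hr0 : (0 : ℝ) < r := by exact_mod_cast hr
    refine ⟨((k + 1) * d * r * (2 * r + 1) : ℝ), by positivity, ?_⟩
    intro n m hm1 hm
    exact ⟨fval_lower_real hd hr hrd hk.le hm1 hm,
      fun _ => fval_upper_one_real hd hr hkr hm1 hm, fun h => absurd h (by omega)⟩
  · have hs : 1 ≤ d - k := by omega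
    obtain ⟨C, hC, h⟩ := fval_upper_real (k := k) hd hs (by omega : d - k < r) hrd (by omega)
    refine ⟨2 * C, by positivity, ?_⟩
    intro n m hm1 hm
    refine ⟨fval_lower_real hd hr hrd hk.le hm1 hm, fun h' => absurd h' hkr, fun _ => ?_⟩
    have a1 := le_max_left (1 : ℝ) ((m : ℝ) / n)
    have a2 := le_max_right (1 : ℝ) ((m : ℝ) / n)
    have hn : 1 ≤ n := by
      by_contra h0
      have : n = 0 := by omega
      subst this
      rw [Nat.choose_eq_zero_of_lt (by omega)] at hm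
      omega
    have hns : (0 : ℝ) < (n : ℝ) ^ (d - k) := by
      have : (0 : ℝ) < n := by exact_mod_cast hn
      positivity
    set q : ℝ := max 1 ((m : ℝ) / (n : ℝ) ^ (d - k)) with hqdef
    have hq : 1 ≤ q := le_max_left _ _
    have hqm : (m : ℝ) ≤ (n : ℝ) ^ (d - k) * q := by
      have h1 : (m : ℝ) / (n : ℝ) ^ (d - k) ≤ q := le_max_right _ _
      rw [div_le_iff₀ hns] at h1
      linarith
    have he : ((k : ℝ) + r - d) = ((r - (d - k) : ℕ) : ℝ) := by
      have h1 : r - (d - k) + d = k + r := by omega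
      have h2 : ((r - (d - k) : ℕ) : ℝ) + d = (k : ℝ) + r := by exact_mod_cast h1
      linarith
    have hpos : r - (d - k) ≠ 0 := by omega
    set x : ℝ := q ^ ((1 : ℝ) / ((k : ℝ) + r - d)) with hx
    have hx1 : 1 ≤ x := by
      apply Real.one_le_rpow hq
      rw [he]; positivity
    have hxp : x ^ (r - (d - k)) = q := by
      rw [hx, he, one_div]
      exact Real.rpow_inv_natCast_pow (by linarith) hpos
    have h1 := h n m hm1 hm x hx1 (by rw [hxp]; exact hqm)
    calc (fval d r k m n : ℝ) ≤ C * ((m : ℝ) / n * x + 1) := h1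
      _ ≤ C * (max 1 ((m : ℝ) / n) * x + max 1 ((m : ℝ) / n) * x) := by
          apply mul_le_mul_of_nonneg_left _ hC.le
          nlinarith
      _ = 2 * C * max 1 ((m : ℝ) / n) * x := by ring

end Pool.Agent.H9.SC
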