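import Pool.Agent.H9.SC.Defs

/-! # SC.Avg

Averaging over the hyperplanes through `d` vertices.

PROOF. `∑_(e ∈ E) pe V e = ∑_(D ∈ powersetCard d V) #{e ∈ E | Meets (affineSpan D) e}` (swap), and the inner number is `numMet G (affineSpan ℝ D)` (`Set.ncard_coe_finset`). The set of the `D` is nonempty (`d ≤ card`), so some `D` has at least the average (`exists_le_of_sum_le` or by contradiction with `sum_lt_sum_of_nonempty`). `affineSpan ℝ D` is a `(d-1)`-flat: `D` is affinely independent (`hV D`), nonempty, `AffineIndependent.finrank_vectorSpan`, `direction_affineSpan` (`D.card = (d-1) + 1`). -/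

set_option autoImplicit false

open Module Finset

namespace Pool.Agent.H9.SC

open Pool.Agent.H68

open Classical in
private lemma avg_pe_eq {d : ℕ} (V e : Finset (Pt d)) :
    pe V e = ((V.powersetCard d).filter fun D : Finset (Pt d) =>
      Meets (affineSpan ℝ ((D : Finset (Pt d)) : Set (Pt d))) e).card := by
  unfold pe
  symm
  refine Finset.card_bij (fun D _ => (D : Set (Pt d))) ?_ ?_ ?_
  · intro D hD
    rw [Finset.mem_filter] at hD ⊢
    refine ⟨?_, hD.2⟩
    simp only [Finset.bind_def, Finset.pure_def, Finset.mem_sup]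
    exact ⟨D, hD.1, by simp⟩
  · intro D _ D' _ h
    exact Finset.coe_injective h
  · intro D hD
    rw [Finset.mem_filter] at hD
    obtain ⟨h1, h2⟩ := hD
    simp only [Finset.bind_def, Finset.pure_def, Finset.mem_sup] at h1
    obtain ⟨D', hD', h3⟩ := h1
    rw [Finset.mem_singleton] at h3
    refine ⟨D', Finset.mem_filter.2 ⟨hD', ?_⟩, h3.symm⟩
    rw [← h3]; exact h2

theorem avg_met {d r : ℕ} (hd : 1 ≤ d) (G : GeomHyp d r) (hV : GPs G.V) (hn : d ≤ G.V.card) :
    ∃ L : AffineSubspace ℝ (Pt d), IsFlat (d - 1) L ∧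
      ∑ e ∈ G.E, pe G.V e ≤ G.V.card.choose d * numMet G L := by
  classical
  have hflat : ∀ D ∈ G.V.powersetCard d, IsFlat (d - 1) (affineSpan ℝ (D : Set (Pt d))) := by
    intro D hD
    obtain ⟨hDV, hDc⟩ := mem_powersetCard.1 hD
    have hI := hV D hDV (by omega)
    have hcard : Fintype.card D = (d - 1) + 1 := by
      rw [Fintype.card_coe, hDc]; omega
    have h2 := hI.finrank_vectorSpan hcard
    refine ⟨?_, ?_⟩
    · have h3 : D.Nonempty := Finset.card_pos.1 (by omega)
      obtain ⟨x, hx⟩ := h3
      exact ⟨x, subset_affineSpan ℝ _ (Finset.mem_coe.2 hx)⟩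
    · rw [direction_affineSpan]
      have h4 : Set.range ((↑) : D → Pt d) = (D : Set (Pt d)) := by
        ext x; simp
      rw [h4] at h2
      exact h2
  have hsum : ∑ e ∈ G.E, pe G.V e =
      (G.V.powersetCard d).sum (fun D : Finset (Pt d) => numMet G (affineSpan ℝ (D : Set (Pt d)))) := by
    have h1 : ∀ e ∈ G.E, pe G.V e = (G.V.powersetCard d).sum (fun D : Finset (Pt d) =>
        if Meets (affineSpan ℝ (D : Set (Pt d))) e then 1 else 0) := by
      intro e _
      rw [avg_pe_eq, Finset.card_filter]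
    rw [Finset.sum_congr rfl h1, Finset.sum_comm]
    refine Finset.sum_congr rfl fun D _ => ?_
    rw [← Finset.card_filter]
    unfold numMet
    rw [← Set.ncard_coe_finset]
    apply congrArg
    ext e
    simp
  have hne : (G.V.powersetCard d).Nonempty := powersetCard_nonempty.2 hn
  obtain ⟨D, hD, hmax⟩ := exists_max_image (G.V.powersetCard d)
    (fun D : Finset (Pt d) => numMet G (affineSpan ℝ (D : Set (Pt d)))) hne
  refine ⟨_, hflat D hD, ?_⟩
  rw [hsum]
  have h5 := sum_le_card_nsmul (G.V.powersetCard d)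
    (fun D : Finset (Pt d) => numMet G (affineSpan ℝ (D : Set (Pt d)))) _ hmax
  rw [card_powersetCard, smul_eq_mul] at h5
  exact h5

end Pool.Agent.H9.SC
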