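import Pool.Agent.H9.SC.Pes

/-! # SC.Bal

The balls of `pe` are small.

PROOF. `Bal1`: let `W ⊆ V` be a set with `x ∈ W`, `W.card = N ≥ 2`, `pe V {x, y} < T` for all `y ∈ W`, `y ≠ x`. `pe_sum` with `r = 2`, `S = W`, `𝒜 = {{x, y} | y ∈ W.erase x}` (`N - 1` sets), `U`: `C * (U (N-1)) ≤ ∑ pe + C U²`, `∑ pe ≤ (N-1) T`, `C = (n - N).choose (d-1)`. With `U = (N-1)/2` (natural division): `U² + U² ≤ U (N-1)`, so `C U² ≤ (N-1) T`.
`ball_small`: wlog `σ ≤ 1/2`. Suppose the ball (the filter) has more than `σ n` elements; take a subset `W` of `insert x ball` with `x ∈ W` and `W.card = N := ⌈σ n⌉` (for `n ≥ n0`, `N ≥ 5`, `N ≤ n/2 + 1`). `Bal1` with `T` real (`pe < τ (n.choose d)`; do `Bal1` with a real bound `T`): `C U² ≤ (N-1) τ (n.choose d)`, `U ≥ (N-2)/2 ≥ σ n/4`, `N - 1 ≤ σ n`, `C ≥ (n/4)^(d-1)/(d-1)!`-like lower bound (`Nat.pow_sub_le_descFactorial`-type: `(n-N).choose (d-1) ≥ ((n - N - d + 2)^(d-1))/(d-1)!`, `n - N - d + 2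 ≥ n/4`), `n.choose d ≤ n^d`. So `(n/4)^(d-1)/(d-1)! * σ² n²/16 ≤ σ n τ n^d`: false for `τ := σ / (32 * 4^(d-1) * (d-1)!)`, `n ≥ 1`. -/

set_option autoImplicit false

open Module Finset

namespace Pool.Agent.H9.SC

open Pool.Agent.H68

/-- The star inequality for the pairs with `x`. -/
private theorem Bal_one {d : ℕ} (hd : 1 ≤ d) (V : Finset (Pt d)) (hV : GPs V) (W : Finset (Pt d))
    (hW : W ⊆ V) (x : Pt d) (hx : x ∈ W) (T : ℝ)
    (hT : ∀ y ∈ W, y ≠ x → (pe V {x, y} : ℝ) ≤ T) :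
    (((V.card - W.card).choose (d - 1) : ℕ) : ℝ) * ((((W.card - 1) / 2 : ℕ)) : ℝ) ^ 2 ≤
      ((W.card - 1 : ℕ) : ℝ) * T := by
  classical
  set U : ℕ := (W.card - 1) / 2 with hU
  have hinj : Set.InjOn (fun y : Pt d => ({x, y} : Finset (Pt d))) (W.erase x : Set (Pt d)) := by
    intro y hy z hz h
    have hy' : y ≠ x := (mem_erase.1 (mem_coe.1 hy)).1
    have h1 : y ∈ ({x, z} : Finset (Pt d)) := by
      have h2 : ({x, y} : Finset (Pt d)) = {x, z} := h
      rw [← h2]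
      simp
    rw [mem_insert, mem_singleton] at h1
    exact h1.resolve_left hy'
  have hcard : ((W.erase x).image (fun y : Pt d => ({x, y} : Finset (Pt d)))).card = W.card - 1 := by
    rw [card_image_of_injOn hinj, card_erase_of_mem hx]
  have h𝒜 : ∀ e ∈ (W.erase x).image (fun y : Pt d => ({x, y} : Finset (Pt d))),
      e ⊆ W ∧ x ∈ e ∧ e.card = 2 := by
    intro e he
    obtain ⟨y, hy, rfl⟩ := mem_image.1 he
    rw [mem_erase] at hy
    refine ⟨?_, by simp, card_pair (Ne.symm hy.1)⟩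
    intro z hz
    rw [mem_insert, mem_singleton] at hz
    rcases hz with rfl | rfl
    · exact hx
    · exact hy.2
  have h1 := pe_sum (r := 2) hd (by norm_num) V hV W hW x hx _ h𝒜 U
  rw [hcard, show Nat.factorial (2 - 1) = 1 from rfl, one_mul, one_mul] at h1
  have h2 : U * 2 ≤ W.card - 1 := Nat.div_mul_le_self _ _
  have h3 : U ^ 2 * 2 ≤ U * (W.card - 1) := by
    calc U ^ 2 * 2 = U * (U * 2) := by ring
      _ ≤ U * (W.card - 1) := Nat.mul_le_mul_left _ h2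
  have h4 := Nat.mul_le_mul_left ((V.card - W.card).choose (d - 1)) h3
  have h5 : (V.card - W.card).choose (d - 1) * U ^ 2 ≤
      ∑ e ∈ (W.erase x).image (fun y : Pt d => ({x, y} : Finset (Pt d))), pe V e := by
    have h6 : (V.card - W.card).choose (d - 1) * (U ^ 2 * 2) =
        (V.card - W.card).choose (d - 1) * U ^ 2 + (V.card - W.card).choose (d - 1) * U ^ 2 := by
      ring
    omega
  have h6 : (((V.card - W.card).choose (d - 1) * U ^ 2 : ℕ) : ℝ) ≤
      ∑ e ∈ (W.erase x).image (fun y : Pt d => ({x, y} : Finset (Pt d))), (pe V e : ℝ) := by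
    exact_mod_cast h5
  push_cast at h6
  refine h6.trans ?_
  have h7 : ∀ e ∈ (W.erase x).image (fun y : Pt d => ({x, y} : Finset (Pt d))), (pe V e : ℝ) ≤ T := by
    intro e he
    obtain ⟨y, hy, rfl⟩ := mem_image.1 he
    rw [mem_erase] at hy
    exact hT y hy.2 hy.1
  have h8 := sum_le_card_nsmul _ _ _ h7
  rwa [hcard, nsmul_eq_mul] at h8

/-- Lower bound for the binomial coefficient. -/
private theorem Bal_choose {d n N : ℕ} (hd : 1 ≤ d) (hN : 2 * N ≤ n) (hn : 4 * d ≤ n) :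
    ((n : ℝ) / 4) ^ (d - 1) ≤ ((d - 1).factorial : ℝ) * (((n - N).choose (d - 1) : ℕ) : ℝ) := by
  have h1 : (n - N + 1 - (d - 1)) ^ (d - 1) ≤ (n - N).descFactorial (d - 1) :=
    Nat.pow_sub_le_descFactorial _ _
  rw [Nat.descFactorial_eq_factorial_mul_choose] at h1
  have h2 : (((n - N + 1 - (d - 1)) ^ (d - 1) : ℕ) : ℝ) ≤
      (((d - 1).factorial * (n - N).choose (d - 1) : ℕ) : ℝ) := by exact_mod_cast h1
  push_cast at h2
  refine le_trans ?_ h2
  have h3 : n ≤ 4 * (n - N + 1 - (d - 1)) := by omega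
  have h4 : (n : ℝ) ≤ 4 * ((n - N + 1 - (d - 1) : ℕ) : ℝ) := by exact_mod_cast h3
  exact pow_le_pow_left₀ (by positivity) (by linarith) _

open Classical in
theorem ball_small {d : ℕ} (hd : 1 ≤ d) (σ : ℝ) (hσ : 0 < σ) : ∃ τ : ℝ, 0 < τ ∧ ∃ n₀ : ℕ,
    ∀ V : Finset (Pt d), GPs V → n₀ ≤ V.card → ∀ x ∈ V,
      ((V.filter fun y => (pe V {x, y} : ℝ) < τ * (V.card.choose d : ℝ)).card : ℝ) ≤ σ * V.card := by
  set s : ℝ := min σ (1 / 2) with hs
  have hs0 : 0 < s := lt_min hσ (by norm_num)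
  have hs1 : s ≤ 1 / 2 := min_le_right _ _
  have hsσ : s ≤ σ := min_le_left _ _
  have hf0 : (0 : ℝ) < ((d - 1).factorial : ℝ) := by exact_mod_cast Nat.factorial_pos _
  set τ : ℝ := s / (32 * 4 ^ (d - 1) * ((d - 1).factorial : ℝ)) with hτ
  have hτ0 : 0 < τ := by positivity
  obtain ⟨m, hm⟩ := exists_nat_ge (6 / s)
  refine ⟨τ, hτ0, max m (4 * d), fun V hV hn x hx => ?_⟩
  set n : ℕ := V.card with hnn
  have hn1 : m ≤ n := le_trans (le_max_left _ _) hn
  have hn2 : 4 * d ≤ n := le_trans (le_max_right _ _) hn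
  have hnr : 6 / s ≤ n := hm.trans (by exact_mod_cast hn1)
  have hsn : 6 ≤ s * n := by
    rw [div_le_iff₀ hs0] at hnr
    linarith
  have hn0 : (0 : ℝ) < n := by
    rcases (Nat.cast_nonneg n : (0 : ℝ) ≤ n).lt_or_eq with h | h
    · exact h
    · rw [← h] at hsn; norm_num at hsn
  by_contra hcon
  rw [not_le] at hcon
  set Bl : Finset (Pt d) := V.filter fun y => (pe V {x, y} : ℝ) < τ * (n.choose d : ℝ) with hBl
  have hcon' : s * n < (Bl.card : ℝ) := by
    refine lt_of_le_of_lt ?_ hcon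
    exact mul_le_mul_of_nonneg_right hsσ hn0.le
  set N : ℕ := ⌊s * n⌋₊ with hN
  have hNle : (N : ℝ) ≤ s * n := Nat.floor_le (by positivity)
  have hNgt : s * n < N + 1 := Nat.lt_floor_add_one _
  have hN6 : 6 ≤ N := Nat.le_floor (by exact_mod_cast hsn)
  have hNB : N ≤ Bl.card := by
    have h1 : (N : ℝ) < Bl.card := lt_of_le_of_lt hNle hcon'
    exact_mod_cast h1.le
  have hNn : 2 * N ≤ n := by
    have h1 : (2 : ℝ) * N ≤ n := by nlinarith
    exact_mod_cast h1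
  obtain ⟨W, hW1, hW2, hWc⟩ := Finset.exists_subsuperset_card_eq (s := {x}) (t := insert x Bl)
    (n := N) (by simp) (by rw [card_singleton]; omega)
    (hNB.trans (card_le_card (subset_insert _ _)))
  have hWV : W ⊆ V := by
    intro y hy
    rcases mem_insert.1 (hW2 hy) with rfl | h
    · exact hx
    · exact (mem_filter.1 h).1
  have hxW : x ∈ W := hW1 (mem_singleton_self x)
  have hT : ∀ y ∈ W, y ≠ x → (pe V {x, y} : ℝ) ≤ τ * (n.choose d : ℝ) := by
    intro y hy hyx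
    rcases mem_insert.1 (hW2 hy) with h | h
    · exact absurd h hyx
    · exact (mem_filter.1 h).2.le
  have h1 := Bal_one hd V hV W hWV x hxW _ hT
  rw [hWc, ← hnn] at h1
  set U : ℕ := (N - 1) / 2 with hU
  have hUge : s * n / 4 ≤ (U : ℝ) := by
    have h2 : N ≤ 2 * U + 2 := by omega
    have h3 : (N : ℝ) ≤ 2 * U + 2 := by exact_mod_cast h2
    linarith
  have hCh := Bal_choose hd hNn hn2
  have hup : ((n.choose d : ℕ) : ℝ) ≤ (n : ℝ) ^ d := by exact_mod_cast Nat.choose_le_pow n d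
  have hN1 : ((N - 1 : ℕ) : ℝ) ≤ s * n := by
    refine le_trans ?_ hNle
    exact_mod_cast Nat.sub_le _ _
  have h2 : ((n : ℝ) / 4) ^ (d - 1) * (s * n / 4) ^ 2 ≤
      ((d - 1).factorial : ℝ) * (s * n * (τ * (n : ℝ) ^ d)) := by
    calc ((n : ℝ) / 4) ^ (d - 1) * (s * n / 4) ^ 2
        ≤ (((d - 1).factorial : ℝ) * (((n - N).choose (d - 1) : ℕ) : ℝ)) * (U : ℝ) ^ 2 := by
          refine mul_le_mul hCh (pow_le_pow_left₀ (by positivity) hUge 2) (by positivity)
            (by positivity)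
      _ = ((d - 1).factorial : ℝ) * ((((n - N).choose (d - 1) : ℕ) : ℝ) * (U : ℝ) ^ 2) := by ring
      _ ≤ ((d - 1).factorial : ℝ) * (((N - 1 : ℕ) : ℝ) * (τ * (n.choose d : ℝ))) :=
          mul_le_mul_of_nonneg_left h1 hf0.le
      _ ≤ ((d - 1).factorial : ℝ) * (s * n * (τ * (n : ℝ) ^ d)) := by
          refine mul_le_mul_of_nonneg_left ?_ hf0.le
          refine mul_le_mul hN1 (mul_le_mul_of_nonneg_left hup hτ0.le) (by positivity)
            (by positivity)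
  have hτe : τ * (32 * 4 ^ (d - 1) * ((d - 1).factorial : ℝ)) = s := by
    rw [hτ]
    field_simp
  have hnd : (n : ℝ) ^ d = n ^ (d - 1) * n := by
    rw [← pow_succ]
    congr 1
    omega
  rw [div_pow, hnd] at h2
  have h4 : (0 : ℝ) < 4 ^ (d - 1) := by positivity
  have h5 : (n : ℝ) ^ (d - 1) * (s * n) ^ 2 / 16 ≤
      4 ^ (d - 1) * (((d - 1).factorial : ℝ) * (s * n * (τ * ((n : ℝ) ^ (d - 1) * n)))) := by
    have h6 := mul_le_mul_of_nonneg_left h2 h4.le
    refine le_trans (le_of_eq ?_) h6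
    field_simp
    ring
  have h6 : 4 ^ (d - 1) * (((d - 1).factorial : ℝ) * (s * n * (τ * ((n : ℝ) ^ (d - 1) * n)))) =
      (τ * (32 * 4 ^ (d - 1) * ((d - 1).factorial : ℝ))) * (s * n ^ 2 * n ^ (d - 1)) / 32 := by
    ring
  rw [h6, hτe] at h5
  have h7 : (0 : ℝ) < s * (s * n ^ 2 * n ^ (d - 1)) := by positivity
  have h8 : (n : ℝ) ^ (d - 1) * (s * n) ^ 2 / 16 = s * (s * n ^ 2 * n ^ (d - 1)) / 16 := by ring
  rw [h8] at h5
  linarith

end Pool.Agent.H9.SC
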