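import Pool.Agent.H9.SC.Defs

/-! # SC.Cfg

A configuration that is generic in three ways.

PROOF. `GP` is open and dense (`isOpen_GP`, `dense_GP`), `Gen d k t s` is open (`isOpen_gen`) and dense for `1 ≤ s`, `k + s ≤ d`, `(k+1) d < t` (inside `exists_gen`, H68/Generic: repeat the proof to get `Dense`). The intersection of open dense sets is dense (`Dense.inter_of_isOpen_left`), in particular nonempty. -/

set_option autoImplicit false

open Module Finset

namespace Pool.Agent.H9.SC

open Pool.Agent.H68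

private lemma Cfg_dense_gen {d k t s : ℕ} (hs : 1 ≤ s) (hks : k + s ≤ d) (ht : (k + 1) * d < t)
    (N : ℕ) : Dense {c : Fin N → Pt d | Gen d k t s c} := by
  have : {c : Fin N → Pt d | Gen d k t s c} = ⋂ e : (Fin t × Fin s) ↪ Fin N,
      {c | (fun i => c (e i)) ∈ (BadCfg d k t s)ᶜ} := by
    ext c
    simp [Gen]
  rw [this]
  apply dense_iInter_of_isOpen
  · intro e
    exact (isClosed_badCfg.isOpen_compl).preimage
      (f := fun v : Fin N → Pt d => fun i => v (e i)) (by fun_prop)
  · intro e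
    exact dense_preimage_comp e (dense_compl_badCfg hs hks ht)

theorem exists_cfg {d k r : ℕ} (hr : 2 ≤ r) (hkr : k + r ≤ d) (n : ℕ) : ∃ v : Fin n → Pt d,
    GP v ∧ Gen d k ((k + 1) * d + 1) r v ∧ Gen d (k + 1) ((k + 2) * d + 1) (r - 1) v := by
  have h1 : Dense {c : Fin n → Pt d | Gen d k ((k + 1) * d + 1) r c} :=
    Cfg_dense_gen (by omega) hkr (Nat.lt_succ_self _) n
  have h2 : Dense {c : Fin n → Pt d | Gen d (k + 1) ((k + 2) * d + 1) (r - 1) c} :=
    Cfg_dense_gen (by omega) (by omega) (Nat.lt_succ_self _) n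
  have h3 := (dense_GP d n).inter_of_isOpen_left
    (h1.inter_of_isOpen_left h2 (isOpen_gen d k ((k + 1) * d + 1) r n)) (isOpen_GP d n)
  obtain ⟨v, hv0, hv1, hv2⟩ := h3.nonempty
  exact ⟨v, hv0, hv1, hv2⟩

end Pool.Agent.H9.SC
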