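import Pool.Agent.H9.SC.Defs

/-! # SC.Cnt

Number of sets of integers of given size that contain `0` and have small diameter.

PROOF. `e ↦ (number of elements of e below 0, the set (e - min e) \ {0})` is injective: from the second we know `e - min e`, and the first says which element of it becomes `0`. The first component is in `range r`, the second is an `(r-1)`-subset of `Icc 1 (u-1)`. So at most `r * (u-1).choose (r-1)` sets, and `(r-1)! * (u-1).choose (r-1) ≤ (u-1)^(r-1) ≤ u^(r-1)` (`Nat.descFactorial_le_pow`, `Nat.descFactorial_eq_factorial_mul_choose`). (`u = 0`: no such `e` because `x = y` gives `0 < 0`.) -/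

set_option autoImplicit false

open Module Finset

namespace Pool.Agent.H9.SC

open Pool.Agent.H68

private lemma Cnt_shift {e e' : Finset ℤ} {a b : ℤ}
    (hE : e.image (fun x => x - a) = e'.image (fun x => x - b)) {x : ℤ} (hx : x ∈ e') :
    x - (b - a) ∈ e := by
  have h1 : x - b ∈ e.image (fun x => x - a) := by
    rw [hE]
    exact mem_image_of_mem _ hx
  obtain ⟨y, hy, hyx⟩ := mem_image.1 h1
  have : x - (b - a) = y := by linarith
  rwa [this]

private lemma Cnt_key {e e' : Finset ℤ} {a b : ℤ} (h0 : (0 : ℤ) ∈ e')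
    (hE : e.image (fun x => x - a) = e'.image (fun x => x - b)) (hab : a < b) :
    (e'.filter (fun x => x < 0)).card < (e.filter (fun x => x < 0)).card := by
  have h1 : (e'.filter (fun x => x < 0)).card ≤
      ((e.filter (fun x => x < 0)).erase (-(b - a))).card := by
    refine card_le_card_of_injOn (fun x => x - (b - a)) (fun x hx => ?_) (fun x _ y _ hxy => ?_)
    · have hx' := mem_filter.1 (Finset.mem_coe.1 hx)
      have h2 := Cnt_shift hE hx'.1
      rw [Finset.mem_coe, mem_erase, mem_filter]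
      refine ⟨?_, h2, ?_⟩
      · intro h3
        have h4 : x - (b - a) = -(b - a) := h3
        linarith [hx'.2]
      · linarith [hx'.2]
    · have h5 : x - (b - a) = y - (b - a) := hxy
      linarith
  have h2 : -(b - a) ∈ e.filter (fun x => x < 0) := by
    rw [mem_filter]
    have h3 := Cnt_shift hE h0
    rw [zero_sub] at h3
    exact ⟨h3, by linarith⟩
  have h3 := card_erase_lt_of_mem h2
  omega

private lemma Cnt_eq {e e' : Finset ℤ} {a b : ℤ}
    (hE : e.image (fun x => x - a) = e'.image (fun x => x - b)) (hab : a = b) : e = e' := by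
  subst hab
  exact image_injective (fun x y hxy => by
    have h5 : x - a = y - a := hxy
    linarith) hE

open Classical in
private noncomputable def Cnt_m (e : Finset ℤ) : ℤ := if he : e.Nonempty then e.min' he else 0

private lemma Cnt_m_mem {e : Finset ℤ} (he : e.Nonempty) : Cnt_m e ∈ e := by
  unfold Cnt_m
  rw [dif_pos he]
  exact e.min'_mem he

private lemma Cnt_m_le {e : Finset ℤ} {x : ℤ} (hx : x ∈ e) : Cnt_m e ≤ x := by
  unfold Cnt_m
  rw [dif_pos ⟨x, hx⟩]
  exact e.min'_le x hx

theorem cnt_diam {r : ℕ} (hr : 1 ≤ r) (u : ℕ) (𝒜 : Finset (Finset ℤ))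
    (h : ∀ e ∈ 𝒜, (0 : ℤ) ∈ e ∧ e.card = r ∧ ∀ x ∈ e, ∀ y ∈ e, y - x < u) :
    (r - 1).factorial * 𝒜.card ≤ r * u ^ (r - 1) := by
  classical
  rcases Nat.eq_zero_or_pos u with hu | hu
  · have : 𝒜 = ∅ := by
      rw [eq_empty_iff_forall_notMem]
      intro e he
      have h1 := (h e he).2.2 0 (h e he).1 0 (h e he).1
      rw [hu] at h1
      simp at h1
    rw [this]
    simp
  set φ : Finset ℤ → ℕ × Finset ℤ := fun e =>
    ((e.filter (fun x => x < 0)).card, (e.image (fun x => x - Cnt_m e)).erase 0) with hφ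
  have hmaps : ∀ e ∈ 𝒜, φ e ∈ (range r) ×ˢ (powersetCard (r - 1) (Icc (1 : ℤ) (u - 1))) := by
    intro e he
    obtain ⟨h0, hc, hd⟩ := h e he
    have hm := Cnt_m_mem ⟨0, h0⟩
    rw [mem_product, mem_range, mem_powersetCard]
    refine ⟨?_, ?_, ?_⟩
    · change (e.filter (fun x => x < 0)).card < r
      rw [← hc]
      refine card_lt_card (filter_ssubset.2 ⟨0, h0, by simp⟩)
    · intro y hy
      have hy' : y ≠ 0 ∧ y ∈ e.image (fun x => x - Cnt_m e) := mem_erase.1 hy
      obtain ⟨x, hx, hxy⟩ := mem_image.1 hy'.2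
      have h1 := Cnt_m_le hx
      have h2 := hd _ hm _ hx
      rw [mem_Icc]
      have h3 := hy'.1
      omega
    · change ((e.image (fun x => x - Cnt_m e)).erase 0).card = r - 1
      have h1 : (0 : ℤ) ∈ e.image (fun x => x - Cnt_m e) := mem_image.2 ⟨_, hm, by simp⟩
      rw [card_erase_of_mem h1, card_image_of_injective _ (fun x y hxy => by
        have h5 : x - Cnt_m e = y - Cnt_m e := hxy
        linarith), hc]
  have hinj : ∀ e ∈ 𝒜, ∀ e' ∈ 𝒜, φ e = φ e' → e = e' := by
    intro e he e' he' hee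
    obtain ⟨h0, -, -⟩ := h e he
    obtain ⟨h0', -, -⟩ := h e' he'
    have h1 : (e.filter (fun x => x < 0)).card = (e'.filter (fun x => x < 0)).card :=
      congrArg Prod.fst hee
    have h2 : (e.image (fun x => x - Cnt_m e)).erase 0 =
        (e'.image (fun x => x - Cnt_m e')).erase 0 := congrArg Prod.snd hee
    have h3 : (0 : ℤ) ∈ e.image (fun x => x - Cnt_m e) :=
      mem_image.2 ⟨_, Cnt_m_mem ⟨0, h0⟩, by simp⟩
    have h4 : (0 : ℤ) ∈ e'.image (fun x => x - Cnt_m e') :=
      mem_image.2 ⟨_, Cnt_m_mem ⟨0, h0'⟩, by simp⟩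
    have hE : e.image (fun x => x - Cnt_m e) = e'.image (fun x => x - Cnt_m e') := by
      rw [← insert_erase h3, ← insert_erase h4, h2]
    rcases lt_trichotomy (Cnt_m e) (Cnt_m e') with hlt | heq | hgt
    · have := Cnt_key h0' hE hlt
      omega
    · exact Cnt_eq hE heq
    · have := Cnt_key h0 hE.symm hgt
      omega
  have hcard : 𝒜.card ≤ r * (u - 1).choose (r - 1) := by
    have h1 := card_le_card_of_injOn φ (s := 𝒜)
      (t := (range r) ×ˢ (powersetCard (r - 1) (Icc (1 : ℤ) (u - 1))))
      (fun e he => hmaps e he) (fun e he e' he' => hinj e he e' he')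
    rw [card_product, card_range, card_powersetCard, Int.card_Icc] at h1
    have h2 : ((u : ℤ) - 1 + 1 - 1).toNat = u - 1 := by omega
    rwa [h2] at h1
  calc (r - 1).factorial * 𝒜.card ≤ (r - 1).factorial * (r * (u - 1).choose (r - 1)) :=
        Nat.mul_le_mul_left _ hcard
    _ = r * ((r - 1).factorial * (u - 1).choose (r - 1)) := by ring
    _ = r * (u - 1).descFactorial (r - 1) := by rw [← Nat.descFactorial_eq_factorial_mul_choose]
    _ ≤ r * (u - 1) ^ (r - 1) := Nat.mul_le_mul_left _ (Nat.descFactorial_le_pow _ _)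
    _ ≤ r * u ^ (r - 1) := Nat.mul_le_mul_left _ (Nat.pow_le_pow_left (by omega) _)

end Pool.Agent.H9.SC
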