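import Pool.Agent.H9.SC.Defs

/-! # SC.Cone

A flat and a vertex outside of it.

PROOF. `L' := affineSpan ℝ (insert (v u) L)`, or `L ⊔ span{v u}`: its direction is `L.direction ⊔ ℝ (v u - x₀)`, `x₀ ∈ L`, of dimension `k + 1` because `v u ∉ L` (`finrank_sup`, or `AffineSubspace` API). `L` meets the simplex of `e` in `x = ∑ w_i v_i` (`mem_convexHull_image_iff`), `w_u < 1` since `x ∈ L`, `v u ∉ L`. Then `x' := (x - w_u v_u)/(1 - w_u)` is a convex combination of the points of `e.erase u`, and it is in `L'` (on the line through `v u` and `x`).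
`verts_on_flat`: `k + 2` indices with points on `L` would be affinely independent (`GP.affInd`, `k + 2 ≤ d + 1`), but the vector span of points of `L` has dimension `≤ k`. -/

set_option autoImplicit false

open Module Finset

namespace Pool.Agent.H9.SC

open Pool.Agent.H68

theorem cone {d k n : ℕ} (hd : 1 ≤ d) (v : Fin n → Pt d) (hv : GP v) (L : AffineSubspace ℝ (Pt d))
    (hL : IsFlat k L) (u : Fin n) (hu : v u ∉ L) : ∃ L' : AffineSubspace ℝ (Pt d), IsFlat (k + 1) L' ∧
      ∀ e : Finset (Fin n), u ∈ e → MeetsIdx v L e → MeetsIdx v L' (e.erase u) := by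
  obtain ⟨⟨x₀, hx₀⟩, hfin⟩ := hL
  have hx₀' : x₀ ∈ L := hx₀
  have hw : v u -ᵥ x₀ ∉ L.direction := by
    intro h
    apply hu
    have h1 := AffineSubspace.vadd_mem_of_mem_direction h hx₀'
    rwa [vsub_vadd] at h1
  have hw0 : v u -ᵥ x₀ ≠ 0 := by
    intro h
    exact hw (h ▸ L.direction.zero_mem)
  refine ⟨affineSpan ℝ (insert (v u) (L : Set (Pt d))), ⟨⟨v u, ?_⟩, ?_⟩, ?_⟩
  · exact subset_affineSpan ℝ _ (Set.mem_insert _ _)
  · rw [AffineSubspace.direction_affineSpan_insert hx₀']
    have h1 := Submodule.finrank_sup_add_finrank_inf_eq (Submodule.span ℝ {v u -ᵥ x₀}) L.direction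
    have h2 : Submodule.span ℝ {v u -ᵥ x₀} ⊓ L.direction = ⊥ := by
      rw [Submodule.eq_bot_iff]
      rintro y ⟨hy1, hy2⟩
      obtain ⟨c, rfl⟩ := Submodule.mem_span_singleton.1 hy1
      by_cases hc : c = 0
      · simp [hc]
      · exfalso
        apply hw
        have h3 := L.direction.smul_mem c⁻¹ hy2
        rwa [smul_smul, inv_mul_cancel₀ hc, one_smul] at h3
    rw [h2, finrank_bot, finrank_span_singleton hw0, hfin] at h1
    omega
  · intro e hue hmeet
    obtain ⟨x, hxL, hxe⟩ := hmeet
    have hxL' : x ∈ L := hxL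
    have hins : v '' (e : Set (Fin n)) = insert (v u) (v '' ((e.erase u : Finset (Fin n)) : Set (Fin n))) := by
      rw [← Set.image_insert_eq, ← Finset.coe_insert, Finset.insert_erase hue]
    rw [hins] at hxe
    rcases Set.eq_empty_or_nonempty (v '' ((e.erase u : Finset (Fin n)) : Set (Fin n))) with h0 | h0
    · exfalso
      rw [h0, insert_empty_eq, convexHull_singleton] at hxe
      exact hu ((Set.mem_singleton_iff.1 hxe) ▸ hxL')
    · rw [convexHull_insert h0, mem_convexJoin] at hxe
      obtain ⟨a, ha, b, hb, hx⟩ := hxe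
      rw [Set.mem_singleton_iff] at ha
      subst ha
      refine ⟨b, ?_, hb⟩
      obtain ⟨α, β, hα, hβ, hαβ, hx⟩ := hx
      have hβ0 : β ≠ 0 := by
        intro h
        apply hu
        have h1 : α = 1 := by linarith
        rw [h, h1, one_smul, zero_smul, add_zero] at hx
        exact hx ▸ hxL'
      have h1 : b = AffineMap.lineMap (v u) x (β⁻¹) := by
        rw [AffineMap.lineMap_apply_module, ← hx, smul_add, smul_smul, smul_smul,
          inv_mul_cancel₀ hβ0, one_smul, ← add_assoc, ← add_smul]
        have h2 : 1 - β⁻¹ + β⁻¹ * α = 0 := by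
          have h3 : α = 1 - β := by linarith
          rw [h3]
          field_simp
          ring
        rw [h2, zero_smul, zero_add]
      show b ∈ affineSpan ℝ (insert (v u) (L : Set (Pt d)))
      rw [h1]
      exact AffineMap.lineMap_mem _ (subset_affineSpan ℝ _ (Set.mem_insert _ _))
        (subset_affineSpan ℝ _ (Set.mem_insert_of_mem _ hxL))

open Classical in
theorem verts_on_flat {d k n : ℕ} (hkd : k < d) (v : Fin n → Pt d) (hv : GP v)
    (L : AffineSubspace ℝ (Pt d)) (hL : IsFlat k L) :
    (univ.filter fun i : Fin n => v i ∈ L).card ≤ k + 1 := by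
  by_contra hcon
  push Not at hcon
  obtain ⟨S, hS, hSc⟩ := Finset.exists_subset_card_eq (show k + 2 ≤ (univ.filter fun i : Fin n => v i ∈ L).card by omega)
  have h1 := hv.affInd S (by omega)
  have h2 : finrank ℝ (vectorSpan ℝ (Set.range fun i : S => v i)) = k + 1 :=
    h1.finrank_vectorSpan (by rw [Fintype.card_coe, hSc])
  have h3 : vectorSpan ℝ (Set.range fun i : S => v i) ≤ L.direction := by
    rw [← direction_affineSpan]
    apply AffineSubspace.direction_le
    rw [affineSpan_le]
    rintro _ ⟨i, rfl⟩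
    exact (Finset.mem_filter.1 (hS i.2)).2
  have h4 := Submodule.finrank_mono h3
  rw [h2, hL.2] at h4
  omega

end Pool.Agent.H9.SC
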