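import Pool.Agent.H9.SC.Defs

/-! # SC.Cov

Greedy cover; flats through few points.

PROOF. `cover`: induction on `j`. Step: `E' := E.filter (Disjoint · S)`; if `E'` is empty take the same `S` (the right side is `≥ 0`: if `E` is nonempty then `r ≤ V.card`; if `E` is empty everything is `0`). Otherwise some `x ∈ V` is in at least `r #E' / V.card` members of `E'` (`∑_x deg = r #E'`), `x ∉ S`; `insert x S`: remaining `≤ #E' (1 - r/V.card)`.
`exists_flat_set`: if `S` is empty: any flat (`exists_flat_through`, H68/Real). Otherwise the affine span of `S` has a direction of dimension `≤ k` (`finrank_vectorSpan_le` for `≤ k + 1` points); extend the direction to a submodule of dimension exactly `k ≤ d`. -/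

set_option autoImplicit false

open Module Finset

namespace Pool.Agent.H9.SC

open Pool.Agent.H68

theorem cover {α : Type} [DecidableEq α] (V : Finset α) (r : ℕ) (E : Finset (Finset α))
    (hE : ∀ e ∈ E, e ⊆ V ∧ e.card = r) (hn : 1 ≤ V.card) (j : ℕ) : ∃ S : Finset α, S ⊆ V ∧
      S.card ≤ j ∧ ((E.filter fun e => Disjoint e S).card : ℝ) ≤
        (E.card : ℝ) * (1 - (r : ℝ) / V.card) ^ j := by
  classical
  have hn0 : (0 : ℝ) < V.card := by exact_mod_cast hn
  have hq : E.Nonempty → 0 ≤ 1 - (r : ℝ) / V.card := by
    rintro ⟨e, he⟩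
    have h1 : r ≤ V.card := (hE e he).2 ▸ card_le_card (hE e he).1
    have h2 : (r : ℝ) / V.card ≤ 1 := by
      rw [div_le_one hn0]
      exact_mod_cast h1
    linarith
  have hR : ∀ k : ℕ, 0 ≤ (E.card : ℝ) * (1 - (r : ℝ) / V.card) ^ k := by
    intro k
    rcases E.eq_empty_or_nonempty with h | h
    · rw [h]
      simp
    · exact mul_nonneg (Nat.cast_nonneg _) (pow_nonneg (hq h) k)
  induction j with
  | zero =>
    refine ⟨∅, empty_subset _, le_rfl, ?_⟩
    rw [pow_zero, mul_one]
    exact_mod_cast card_le_card (filter_subset _ _)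
  | succ j ih =>
    obtain ⟨S, hSV, hSj, hSc⟩ := ih
    rcases (E.filter fun e => Disjoint e S).eq_empty_or_nonempty with h0 | h0
    · refine ⟨S, hSV, hSj.trans (Nat.le_succ j), ?_⟩
      rw [h0, card_empty, Nat.cast_zero]
      exact hR (j + 1)
    · have hEne : E.Nonempty := h0.mono (filter_subset _ _)
      have hdc : ∑ x ∈ V, ((E.filter fun e => Disjoint e S).filter fun e => x ∈ e).card =
          (E.filter fun e => Disjoint e S).card * r := by
        have h1 : ∀ x ∈ V, ((E.filter fun e => Disjoint e S).filter fun e => x ∈ e).card =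
            ∑ e ∈ (E.filter fun e => Disjoint e S), if x ∈ e then 1 else 0 := by
          intro x _
          rw [card_filter]
        rw [sum_congr rfl h1, sum_comm]
        have h2 : ∀ e ∈ (E.filter fun e => Disjoint e S), (∑ x ∈ V, if x ∈ e then 1 else 0) =
            r := by
          intro e he
          have he' := hE e (mem_filter.1 he).1
          rw [← card_filter, filter_mem_eq_inter, inter_eq_right.2 he'.1, he'.2]
        rw [sum_congr rfl h2, sum_const, smul_eq_mul]
      have hVne : V.Nonempty := card_pos.1 hn
      obtain ⟨x, hxV, hx⟩ : ∃ x ∈ V, (E.filter fun e => Disjoint e S).card * r ≤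
          V.card * ((E.filter fun e => Disjoint e S).filter fun e => x ∈ e).card := by
        by_contra hcon
        push Not at hcon
        have h3 : ∑ x ∈ V, V.card *
            ((E.filter fun e => Disjoint e S).filter fun e => x ∈ e).card <
            ∑ _x ∈ V, (E.filter fun e => Disjoint e S).card * r :=
          sum_lt_sum_of_nonempty hVne hcon
        rw [← mul_sum, hdc, sum_const, smul_eq_mul] at h3
        exact lt_irrefl _ h3
      refine ⟨insert x S, insert_subset hxV hSV, (card_insert_le _ _).trans (by omega), ?_⟩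
      have h4 : (E.filter fun e => Disjoint e (insert x S)) ⊆
          (E.filter fun e => Disjoint e S).filter fun e => ¬ x ∈ e := by
        intro e he
        rw [mem_filter, disjoint_insert_right] at he
        rw [mem_filter, mem_filter]
        exact ⟨⟨he.1, he.2.2⟩, he.2.1⟩
      have h5 := card_le_card h4
      have h6 := card_filter_add_card_filter_not (s := E.filter fun e => Disjoint e S)
        (fun e => x ∈ e)
      have h7 : ((E.filter fun e => Disjoint e (insert x S)).card : ℝ) ≤
          ((E.filter fun e => Disjoint e S).card : ℝ) -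
            ((E.filter fun e => Disjoint e S).filter fun e => x ∈ e).card := by
        have h8 : (E.filter fun e => Disjoint e (insert x S)).card +
            ((E.filter fun e => Disjoint e S).filter fun e => x ∈ e).card ≤
            (E.filter fun e => Disjoint e S).card := by omega
        have h9 : (((E.filter fun e => Disjoint e (insert x S)).card +
            ((E.filter fun e => Disjoint e S).filter fun e => x ∈ e).card : ℕ) : ℝ) ≤
            (E.filter fun e => Disjoint e S).card := by exact_mod_cast h8
        push_cast at h9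
        linarith
      have h10 : ((E.filter fun e => Disjoint e S).card : ℝ) * ((r : ℝ) / V.card) ≤
          ((E.filter fun e => Disjoint e S).filter fun e => x ∈ e).card := by
        rw [← mul_div_assoc, div_le_iff₀ hn0]
        have h11 : (((E.filter fun e => Disjoint e S).card * r : ℕ) : ℝ) ≤
            ((V.card * ((E.filter fun e => Disjoint e S).filter fun e => x ∈ e).card : ℕ) :
              ℝ) := by exact_mod_cast hx
        push_cast at h11
        linarith
      calc ((E.filter fun e => Disjoint e (insert x S)).card : ℝ) ≤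
            ((E.filter fun e => Disjoint e S).card : ℝ) * (1 - (r : ℝ) / V.card) := by
              rw [mul_sub, mul_one]
              linarith
        _ ≤ ((E.card : ℝ) * (1 - (r : ℝ) / V.card) ^ j) * (1 - (r : ℝ) / V.card) :=
            mul_le_mul_of_nonneg_right hSc (hq hEne)
        _ = (E.card : ℝ) * (1 - (r : ℝ) / V.card) ^ (j + 1) := by
            rw [pow_succ]
            ring

private theorem Cov_extend {d k : ℕ} (hk : k ≤ d) (U : Submodule ℝ (Pt d))
    (hU : finrank ℝ U ≤ k) : ∃ W : Submodule ℝ (Pt d), U ≤ W ∧ finrank ℝ W = k := by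
  have key : ∀ m : ℕ, finrank ℝ U + m ≤ d → ∃ W : Submodule ℝ (Pt d), U ≤ W ∧
      finrank ℝ W = finrank ℝ U + m := by
    intro m
    induction m with
    | zero => exact fun _ => ⟨U, le_rfl, rfl⟩
    | succ m ih =>
      intro hm
      obtain ⟨W, hW, hWm⟩ := ih (by omega)
      have hne : W ≠ ⊤ := by
        intro htop
        rw [htop, finrank_top, finrank_euclideanSpace, Fintype.card_fin] at hWm
        omega
      obtain ⟨v, hv⟩ : ∃ v, v ∉ W := by
        by_contra hcon
        push Not at hcon
        exact hne (Submodule.eq_top_iff'.2 hcon)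
      refine ⟨W ⊔ Submodule.span ℝ {v}, hW.trans le_sup_left, ?_⟩
      rw [Submodule.finrank_sup_span_singleton hv, hWm]
      rfl
  obtain ⟨W, hW, h⟩ := key (k - finrank ℝ U) (by omega)
  exact ⟨W, hW, by omega⟩

theorem exists_flat_set {d k : ℕ} (hk : k ≤ d) (S : Finset (Pt d)) (hS : S.card ≤ k + 1) :
    ∃ L : AffineSubspace ℝ (Pt d), IsFlat k L ∧ ∀ x ∈ S, x ∈ L := by
  classical
  rcases S.eq_empty_or_nonempty with h0 | ⟨x0, hx0⟩
  · obtain ⟨L, hL, _⟩ := exists_flat_through hk (0 : Pt d)
    refine ⟨L, hL, ?_⟩
    rw [h0]
    simp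
  · obtain ⟨m, hm⟩ : ∃ m, S.card = m + 1 :=
      ⟨S.card - 1, by have := card_pos.2 ⟨x0, hx0⟩; omega⟩
    have h1 : finrank ℝ (vectorSpan ℝ (S : Set (Pt d))) ≤ m := by
      have h := finrank_vectorSpan_image_finset_le ℝ (id : Pt d → Pt d) S hm
      rwa [image_id] at h
    obtain ⟨W, hW, hWk⟩ := Cov_extend (k := k) hk (vectorSpan ℝ (S : Set (Pt d))) (by omega)
    refine ⟨AffineSubspace.mk' x0 W, ⟨⟨x0, AffineSubspace.self_mem_mk' _ _⟩, ?_⟩, ?_⟩
    · rw [AffineSubspace.direction_mk']
      exact hWk
    · intro x hx
      rw [AffineSubspace.mem_mk']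
      exact hW (vsub_mem_vectorSpan ℝ (mem_coe.2 hx) (mem_coe.2 hx0))

end Pool.Agent.H9.SC
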