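import Pool.Agent.H9.SC.Defs

/-! # SC.Crd

Integer coordinates of a circular order, seen from one of the points.

PROOF. If `S = {x₀}` take `c = 0` (`Sep p x₀ e` because `dt (p x₀) (p x₀) = 0`). Otherwise `p x₀ ≠ 0` (some `dt (p x₀) (p y) ≠ 0`). For `a ∈ S`, `a ≠ x₀`, put `D a := dt (p x₀) (p a) ≠ 0`. Choose `q` with `dt (p x₀) q = 1` (`q = (-u₂, u₁)/|u|²`, `u = p x₀`) and `u a := dt (p a) q`: then `p a = u a • p x₀ + D a • q`. Put `t a := u a / D a`. Then `dt (p a) (p x₀) = - D a`, `dt (p a) (p x) = D a * D x * (t a - t x)`; `t` is injective on `S \ {x₀}` (`dt ≠ 0`).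
Define for `x ∈ S' := S.erase x₀`: if `0 < D x`: `c x := #{a ∈ S' | t x ≤ t a}` (right), otherwise `c x := - #{a ∈ S' | t a ≤ t x}` (left); `c x₀ := 0`. `c` is injective on `S`: right values are `≥ 1`, left values `≤ -1`, and `t x < t y` gives a strict inclusion of the sets.
If `x` is right and `t x ≤ t a` then `Sep p a {x₀, x}`: `dt (p a) (p x₀) * dt (p a) (p x) = - (D a)² D x (t a - t x) ≤ 0`. If `x` is left and `t a ≤ t x`: also `≤ 0`. (`Sep p a e` is monotone in `e`; a product `≤ 0` means one factor `≤ 0` and the other `≥ 0`.)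
For `e ∋ x₀` and `y, z ∈ e` with `c z ≤ c y` (otherwise the claim is `≤ 1`, and `x₀` itself satisfies `Sep p x₀ e`): the set of the claim contains `x₀`, the right set `R = {a ∈ S' | t y ≤ t a}` of size `c y` if `c y > 0`, and the left set `Lf = {a ∈ S' | t a ≤ t z}` of size `- c z` if `c z < 0`. If both are present: either `t z < t y`, then they are disjoint and the count is `≥ 1 + c y - c z`, or `t y ≤ t z` and they cover `S'`, the count is `S.card`. If only one is present use it (`c y - c z ≤ c y` if `c z ≥ 0`; etc.). -/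

set_option autoImplicit false

open Module Finset

namespace Pool.Agent.H9.SC

open Pool.Agent.H68

private lemma Crd_param {α : Type} (S : Finset α) (x₀ : α) (p : α → ℝ × ℝ)
    (hp : ∀ a ∈ S, a ≠ x₀ → dt (p x₀) (p a) ≠ 0) : ∃ D t : α → ℝ, ∀ a ∈ S, a ≠ x₀ →
      D a ≠ 0 ∧ dt (p a) (p x₀) = - D a ∧
        ∀ x ∈ S, x ≠ x₀ → dt (p a) (p x) = D a * D x * (t a - t x) := by
  by_cases h0 : p x₀ = 0
  · refine ⟨fun _ => 0, fun _ => 0, fun a ha hne => ?_⟩
    exact absurd (by rw [h0]; simp [dt]) (hp a ha hne)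
  · have hn : 0 < (p x₀).1 ^ 2 + (p x₀).2 ^ 2 := by
      by_contra h
      push Not at h
      have h1 : (p x₀).1 = 0 := by nlinarith [sq_nonneg (p x₀).1, sq_nonneg (p x₀).2]
      have h2 : (p x₀).2 = 0 := by nlinarith [sq_nonneg (p x₀).1, sq_nonneg (p x₀).2]
      exact h0 (Prod.ext h1 h2)
    set N := (p x₀).1 ^ 2 + (p x₀).2 ^ 2 with hN
    set q : ℝ × ℝ := (-(p x₀).2 / N, (p x₀).1 / N) with hq
    have hq1 : dt (p x₀) q = 1 := by
      unfold dt
      rw [hq]
      simp only
      field_simp
      rw [hN]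
      ring
    refine ⟨fun a => dt (p x₀) (p a), fun a => dt (p a) q / dt (p x₀) (p a), fun a ha hne =>
      ⟨hp a ha hne, ?_, fun x hx hxne => ?_⟩⟩
    · unfold dt
      ring
    · have h1 := hp a ha hne
      have h2 := hp x hx hxne
      have h3 : dt (p a) (p x) * dt (p x₀) q =
          dt (p a) q * dt (p x₀) (p x) - dt (p x₀) (p a) * dt (p x) q := by
        unfold dt
        ring
      rw [hq1, mul_one] at h3
      rw [h3]
      field_simp

open Classical in
theorem coord {α : Type} (S : Finset α) (x₀ : α) (hx : x₀ ∈ S) (p : α → ℝ × ℝ)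
    (hp : ∀ x ∈ S, ∀ y ∈ S, x ≠ y → dt (p x) (p y) ≠ 0) : ∃ c : α → ℤ, Set.InjOn c S ∧ c x₀ = 0 ∧
      ∀ e : Finset α, e ⊆ S → x₀ ∈ e → ∀ y ∈ e, ∀ z ∈ e,
        min (S.card : ℤ) (1 + (c y - c z)) ≤ ((S.filter fun a => Sep p a e).card : ℤ) := by
  obtain ⟨D, t, hDt⟩ := Crd_param S x₀ p fun a ha hne => hp x₀ hx a ha hne.symm
  have htinj : ∀ a ∈ S, a ≠ x₀ → ∀ b ∈ S, b ≠ x₀ → t a = t b → a = b := by
    intro a ha hane b hb hbne hab
    by_contra hne
    refine hp a ha b hb hne ?_
    rw [(hDt a ha hane).2.2 b hb hbne, hab]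
    ring
  set S' := S.erase x₀ with hS'
  set R : α → Finset α := fun x => S'.filter fun a => t x ≤ t a with hR
  set L : α → Finset α := fun x => S'.filter fun a => t a ≤ t x with hL
  set c : α → ℤ := fun x => if x = x₀ then 0 else if 0 < D x then ((R x).card : ℤ) else -((L x).card : ℤ)
    with hc
  have hmS' : ∀ a, a ∈ S' ↔ a ≠ x₀ ∧ a ∈ S := fun a => Finset.mem_erase
  have hcR : ∀ x, x ≠ x₀ → 0 < D x → c x = ((R x).card : ℤ) := by
    intro x h1 h2
    simp only [hc, if_neg h1, if_pos h2]
  have hcL : ∀ x, x ≠ x₀ → ¬ 0 < D x → c x = -((L x).card : ℤ) := by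
    intro x h1 h2
    simp only [hc, if_neg h1, if_neg h2]
  have hc0 : c x₀ = 0 := by simp only [hc, if_true]
  have hRpos : ∀ x ∈ S, x ≠ x₀ → 0 < (R x).card := fun x hx1 hne =>
    Finset.card_pos.2 ⟨x, Finset.mem_filter.2 ⟨(hmS' x).2 ⟨hne, hx1⟩, le_rfl⟩⟩
  have hLpos : ∀ x ∈ S, x ≠ x₀ → 0 < (L x).card := fun x hx1 hne =>
    Finset.card_pos.2 ⟨x, Finset.mem_filter.2 ⟨(hmS' x).2 ⟨hne, hx1⟩, le_rfl⟩⟩
  have hRlt : ∀ x ∈ S, x ≠ x₀ → ∀ y, t x < t y → (R y).card < (R x).card := by
    intro x hx1 hne y hlt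
    refine Finset.card_lt_card ⟨fun a ha => ?_, fun hsub => ?_⟩
    · rw [hR] at ha ⊢
      simp only [Finset.mem_filter] at ha ⊢
      exact ⟨ha.1, hlt.le.trans ha.2⟩
    · have h1 : x ∈ R y := hsub (Finset.mem_filter.2 ⟨(hmS' x).2 ⟨hne, hx1⟩, le_rfl⟩)
      rw [hR] at h1
      simp only [Finset.mem_filter] at h1
      exact absurd h1.2 (not_le.2 hlt)
  have hLlt : ∀ x ∈ S, x ≠ x₀ → ∀ y, t y < t x → (L y).card < (L x).card := by
    intro x hx1 hne y hlt
    refine Finset.card_lt_card ⟨fun a ha => ?_, fun hsub => ?_⟩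
    · rw [hL] at ha ⊢
      simp only [Finset.mem_filter] at ha ⊢
      exact ⟨ha.1, ha.2.trans hlt.le⟩
    · have h1 : x ∈ L y := hsub (Finset.mem_filter.2 ⟨(hmS' x).2 ⟨hne, hx1⟩, le_rfl⟩)
      rw [hL] at h1
      simp only [Finset.mem_filter] at h1
      exact absurd h1.2 (not_le.2 hlt)
  refine ⟨c, ?_, hc0, ?_⟩
  · intro x hx1 y hy1 hxy
    have hx1' : x ∈ S := hx1
    have hy1' : y ∈ S := hy1
    by_cases h1 : x = x₀
    · by_cases h2 : y = x₀
      · rw [h1, h2]
      · exfalso
        rw [h1, hc0] at hxy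
        have hRp := hRpos y hy1' h2
        have hLp := hLpos y hy1' h2
        by_cases h3 : 0 < D y
        · rw [hcR y h2 h3] at hxy
          omega
        · rw [hcL y h2 h3] at hxy
          omega
    · by_cases h2 : y = x₀
      · exfalso
        rw [h2, hc0] at hxy
        have hRp := hRpos x hx1' h1
        have hLp := hLpos x hx1' h1
        by_cases h3 : 0 < D x
        · rw [hcR x h1 h3] at hxy
          omega
        · rw [hcL x h1 h3] at hxy
          omega
      · have hRx := hRpos x hx1' h1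
        have hLx := hLpos x hx1' h1
        have hRy := hRpos y hy1' h2
        have hLy := hLpos y hy1' h2
        by_cases h3 : 0 < D x
        · by_cases h4 : 0 < D y
          · rw [hcR x h1 h3, hcR y h2 h4] at hxy
            rcases lt_trichotomy (t x) (t y) with h | h | h
            · have := hRlt x hx1' h1 y h
              omega
            · exact htinj x hx1' h1 y hy1' h2 h
            · have := hRlt y hy1' h2 x h
              omega
          · rw [hcR x h1 h3, hcL y h2 h4] at hxy
            omega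
        · by_cases h4 : 0 < D y
          · rw [hcL x h1 h3, hcR y h2 h4] at hxy
            omega
          · rw [hcL x h1 h3, hcL y h2 h4] at hxy
            rcases lt_trichotomy (t x) (t y) with h | h | h
            · have := hLlt y hy1' h2 x h
              omega
            · exact htinj x hx1' h1 y hy1' h2 h
            · have := hLlt x hx1' h1 y h
              omega
  · intro e he hx0e y hy z hz
    set F := S.filter fun a => Sep p a e with hF
    have hx0F : x₀ ∈ F := by
      rw [hF, Finset.mem_filter]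
      refine ⟨hx, x₀, hx0e, x₀, hx0e, ?_, ?_⟩
      · unfold dt
        linarith [mul_comm (p x₀).1 (p x₀).2]
      · unfold dt
        linarith [mul_comm (p x₀).1 (p x₀).2]
    -- a sign lemma
    have hsep : ∀ a ∈ S, ∀ w ∈ e, dt (p a) (p x₀) * dt (p a) (p w) ≤ 0 → a ∈ F := by
      intro a ha w hw h
      rw [hF, Finset.mem_filter]
      refine ⟨ha, ?_⟩
      rcases le_total (dt (p a) (p x₀)) 0 with h1 | h1
      · rcases le_total 0 (dt (p a) (p w)) with h2 | h2
        · exact ⟨x₀, hx0e, w, hw, h1, h2⟩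
        · rcases eq_or_lt_of_le h1 with h3 | h3
          · exact ⟨x₀, hx0e, x₀, hx0e, h1, h3.ge⟩
          · have h4 : 0 ≤ dt (p a) (p w) := by
              by_contra h5
              push Not at h5
              nlinarith [mul_pos_of_neg_of_neg h3 h5]
            exact ⟨x₀, hx0e, w, hw, h1, h4⟩
      · rcases le_total (dt (p a) (p w)) 0 with h2 | h2
        · exact ⟨w, hw, x₀, hx0e, h2, h1⟩
        · rcases eq_or_lt_of_le h1 with h3 | h3
          · exact ⟨x₀, hx0e, x₀, hx0e, h3.ge, h1⟩
          · have h4 : dt (p a) (p w) ≤ 0 := by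
              by_contra h5
              push Not at h5
              nlinarith [mul_pos h3 h5]
            exact ⟨w, hw, x₀, hx0e, h4, h1⟩
    have hRF : ∀ w ∈ e, w ≠ x₀ → 0 < D w → R w ⊆ F := by
      intro w hw hne hD a ha
      rw [hR] at ha
      simp only [Finset.mem_filter] at ha
      obtain ⟨ha1, ha2⟩ := ha
      obtain ⟨hane, haS⟩ := (hmS' a).1 ha1
      refine hsep a haS w hw ?_
      obtain ⟨_, e1, e2⟩ := hDt a haS hane
      rw [e1, e2 w (he hw) hne]
      have h1 : 0 ≤ t a - t w := sub_nonneg.2 ha2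
      have h2 : 0 ≤ D a ^ 2 * (D w * (t a - t w)) := by positivity
      nlinarith
    have hLF : ∀ w ∈ e, w ≠ x₀ → ¬ 0 < D w → L w ⊆ F := by
      intro w hw hne hD a ha
      rw [hL] at ha
      simp only [Finset.mem_filter] at ha
      obtain ⟨ha1, ha2⟩ := ha
      obtain ⟨hane, haS⟩ := (hmS' a).1 ha1
      refine hsep a haS w hw ?_
      obtain ⟨_, e1, e2⟩ := hDt a haS hane
      rw [e1, e2 w (he hw) hne]
      have h1 : 0 ≤ t w - t a := sub_nonneg.2 ha2
      have h3 : 0 ≤ -D w := by linarith [not_lt.1 hD]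
      have h2 : 0 ≤ D a ^ 2 * (-D w * (t w - t a)) := by positivity
      nlinarith
    have hx0R : ∀ w, x₀ ∉ R w := fun w h => by
      rw [hR] at h
      simp only [Finset.mem_filter] at h
      exact ((hmS' x₀).1 h.1).1 rfl
    have hx0L : ∀ w, x₀ ∉ L w := fun w h => by
      rw [hL] at h
      simp only [Finset.mem_filter] at h
      exact ((hmS' x₀).1 h.1).1 rfl
    -- signs of c
    have hcpos : ∀ w ∈ e, 0 < c w → w ≠ x₀ ∧ 0 < D w := by
      intro w hw h
      by_cases h1 : w = x₀
      · rw [h1, hc0] at h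
        exact absurd h (lt_irrefl _)
      · refine ⟨h1, ?_⟩
        by_contra h2
        rw [hcL w h1 h2] at h
        omega
    have hcneg : ∀ w ∈ e, c w < 0 → w ≠ x₀ ∧ ¬ 0 < D w := by
      intro w hw h
      by_cases h1 : w = x₀
      · rw [h1, hc0] at h
        exact absurd h (lt_irrefl _)
      · refine ⟨h1, ?_⟩
        intro h2
        rw [hcR w h1 h2] at h
        omega
    by_cases h1 : 0 < c y
    · obtain ⟨hy1, hy2⟩ := hcpos y hy h1
      have e1 := hcR y hy1 hy2
      by_cases h2 : c z < 0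
      · obtain ⟨hz1, hz2⟩ := hcneg z hz h2
        have e2 := hcL z hz1 hz2
        rcases lt_or_ge (t z) (t y) with h3 | h3
        · refine (min_le_right _ _).trans ?_
          have hdis : Disjoint (R y) (L z) := by
            rw [Finset.disjoint_left]
            intro a ha1 ha2
            rw [hR] at ha1
            rw [hL] at ha2
            simp only [Finset.mem_filter] at ha1 ha2
            linarith [ha1.2, ha2.2]
          have hsub : insert x₀ (R y ∪ L z) ⊆ F :=
            Finset.insert_subset hx0F (Finset.union_subset (hRF y hy hy1 hy2) (hLF z hz hz1 hz2))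
          have hcard := Finset.card_le_card hsub
          rw [Finset.card_insert_of_notMem (by
            rw [Finset.mem_union, not_or]
            exact ⟨hx0R y, hx0L z⟩), Finset.card_union_of_disjoint hdis] at hcard
          omega
        · refine (min_le_left _ _).trans ?_
          have hsub : S ⊆ F := by
            intro a ha
            by_cases h4 : a = x₀
            · rw [h4]
              exact hx0F
            · rcases le_total (t y) (t a) with h5 | h5
              · exact hRF y hy hy1 hy2 (Finset.mem_filter.2 ⟨(hmS' a).2 ⟨h4, ha⟩, h5⟩)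
              · exact hLF z hz hz1 hz2 (Finset.mem_filter.2 ⟨(hmS' a).2 ⟨h4, ha⟩, h5.trans h3⟩)
          have hcard := Finset.card_le_card hsub
          omega
      · refine (min_le_right _ _).trans ?_
        have hcard := Finset.card_le_card (Finset.insert_subset hx0F (hRF y hy hy1 hy2))
        rw [Finset.card_insert_of_notMem (hx0R y)] at hcard
        omega
    · refine (min_le_right _ _).trans ?_
      by_cases h2 : c z < 0
      · obtain ⟨hz1, hz2⟩ := hcneg z hz h2
        have e2 := hcL z hz1 hz2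
        have hcard := Finset.card_le_card (Finset.insert_subset hx0F (hLF z hz hz1 hz2))
        rw [Finset.card_insert_of_notMem (hx0L z)] at hcard
        omega
      · have hcard : 0 < F.card := Finset.card_pos.2 ⟨x₀, hx0F⟩
        omega

end Pool.Agent.H9.SC
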