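import Pool.Agent.H68.Real

/-! # SC.Defs

Definitions only (MP_737bdd_co, sharp constants; paper /team-store/h9_sc.md). -/

set_option autoImplicit false

open Module Finset

namespace Pool.Agent.H9.SC

open Pool.Agent.H68

/-- determinant in the plane -/
def dt (p q : ℝ × ℝ) : ℝ := p.1 * q.2 - p.2 * q.1

/-- the points `p x`, `x ∈ e`, are not all strictly on one side of the line through `0` and `p a` -/
def Sep {α : Type} (p : α → ℝ × ℝ) (a : α) (e : Finset α) : Prop :=
  ∃ x ∈ e, ∃ y ∈ e, dt (p a) (p x) ≤ 0 ∧ 0 ≤ dt (p a) (p y)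

/-- at most `d + 1` points of `V` are always affinely independent -/
def GPs {d : ℕ} (V : Finset (Pt d)) : Prop :=
  ∀ T ⊆ V, T.card ≤ d + 1 → AffineIndependent ℝ ((↑) : T → Pt d)

open Classical in
/-- number of the `d`-subsets of `V` whose span meets the simplex of `e` -/
noncomputable def pe {d : ℕ} (V e : Finset (Pt d)) : ℕ :=
  ((V.powersetCard d).filter fun D => Meets (affineSpan ℝ (D : Set (Pt d))) e).card

open Classical in
/-- number of the points `a` of `S` such that the hyperplane through `a` and `B` meets the simplex of `e` -/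
noncomputable def pc {d : ℕ} (S B e : Finset (Pt d)) : ℕ :=
  (S.filter fun a => Meets (affineSpan ℝ ((insert a B : Finset (Pt d)) : Set (Pt d))) e).card

/-- the main term of the window hypergraph for one cut -/
noncomputable def base (r : ℕ) (q : ℝ) : ℝ :=
  (((r : ℝ) - 1) / r) * (((r - 1).factorial : ℝ)) ^ (1 / ((r : ℝ) - 1)) * q ^ ((r : ℝ) / ((r : ℝ) - 1))

/-- the moment curve -/
noncomputable def mom (d n : ℕ) (i : Fin n) : Pt d :=
  WithLp.toLp 2 (fun j : Fin d => ((i : ℕ) : ℝ) ^ ((j : ℕ) + 1))

/-- the window hypergraph -/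
def win (n r w : ℕ) : Finset (Finset (Fin n)) :=
  (powersetCard r univ).filter (fun e => ∀ i ∈ e, ∀ j ∈ e, (j : ℕ) ≤ i + w)

end Pool.Agent.H9.SC
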