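import Pool.Agent.H9.SC.Defs

/-! # SC.Dsj

Disjoint simplices met by a flat; hitting sets.

PROOF. `gen_disj`: suppose `t ≤ 𝒜.card`; choose `t` different members `E j` and enumerate each (`orderEmbOfFin`): an embedding `Fin t × Fin s ↪ Fin n` (disjointness). `MeetsIdx v L (E j)` gives a point `x j ∈ L` of the convex hull of the `v i`, `i ∈ E j`: weights in `stdSimplex` (`mem_convexHull_image_iff` in H68/Block.lean); all `x j ∈ L`, so `vectorSpan (range x) ≤ L.direction`, of finrank `k`: `BadCfg`. Contradiction to `Gen`. (See `not_meets_of_gen` in H68/Block.lean; it can even be used, with `bm = id`, `c = v` if `Gen` is open: but the direct proof is shorter.)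
`exists_hit`: take a maximal pairwise disjoint subfamily `ℬ`, `T := ℬ.biUnion id`. -/

set_option autoImplicit false

open Module Finset

namespace Pool.Agent.H9.SC

open Pool.Agent.H68

theorem gen_disj {d k t s n : ℕ} (hd : 1 ≤ d) (v : Fin n → Pt d) (hv : GP v) (hG : Gen d k t s v)
    (L : AffineSubspace ℝ (Pt d)) (hL : IsFlat k L) (𝒜 : Finset (Finset (Fin n)))
    (h1 : ∀ e ∈ 𝒜, e.card = s) (h2 : ∀ e ∈ 𝒜, MeetsIdx v L e)
    (h3 : ∀ e ∈ 𝒜, ∀ e' ∈ 𝒜, e ≠ e' → Disjoint e e') (hs : 1 ≤ s) : 𝒜.card < t := by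
  classical
  by_contra hlt
  push Not at hlt
  obtain ⟨ℳ, hℳ, hcard⟩ := exists_subset_card_eq hlt
  let φ : Fin t ≃ ℳ := (Fintype.equivFinOfCardEq (by simpa using hcard)).symm
  have hmem : ∀ j, (φ j : Finset (Fin n)) ∈ 𝒜 := fun j => hℳ (φ j).2
  have hc : ∀ j, (φ j : Finset (Fin n)).card = s := fun j => h1 _ (hmem j)
  have hdisj : ∀ j j', j ≠ j' → Disjoint (φ j : Finset (Fin n)) (φ j') := fun j j' hjj =>
    h3 _ (hmem j) _ (hmem j') fun h => hjj (φ.injective (Subtype.ext h))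
  have hx : ∀ j, ∃ x, x ∈ (L : Set (Pt d)) ∩
      convexHull ℝ (v '' ((φ j : Finset (Fin n)) : Set (Fin n))) := fun j => h2 _ (hmem j)
  choose x hx using hx
  have hxw := fun j => mem_convexHull_image_iff (hv.injective hd) (hx j).2
  choose w hw0 hw1 hwx using hxw
  let f : Fin t × Fin s → Fin n := fun p => (φ p.1 : Finset (Fin n)).orderEmbOfFin (hc p.1) p.2
  have hf : ∀ j l, f (j, l) ∈ (φ j : Finset (Fin n)) := fun j l => orderEmbOfFin_mem _ _ _
  have finj : Function.Injective f := by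
    rintro ⟨j, l⟩ ⟨j', l'⟩ h
    have hjj : j = j' := by
      by_contra hne
      have h4 := hf j l
      rw [h] at h4
      exact disjoint_left.1 (hdisj j j' hne) h4 (hf j' l')
    subst hjj
    have : l = l' := ((φ j : Finset (Fin n)).orderEmbOfFin (hc j)).injective h
    rw [this]
  refine hG ⟨f, finj⟩ ⟨x, ?_, ?_⟩
  · intro j
    have hsum : ∀ g : Fin n → ℝ, ∑ l, g (f (j, l)) = ∑ b ∈ (φ j : Finset (Fin n)), g b := by
      intro g
      have h4 := sum_map univ (((φ j : Finset (Fin n)).orderEmbOfFin (hc j)).toEmbedding) g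
      rw [map_orderEmbOfFin_univ] at h4
      exact h4.symm
    have hsum' : ∀ g : Fin n → Pt d, ∑ l, g (f (j, l)) = ∑ b ∈ (φ j : Finset (Fin n)), g b := by
      intro g
      have h4 := sum_map univ (((φ j : Finset (Fin n)).orderEmbOfFin (hc j)).toEmbedding) g
      rw [map_orderEmbOfFin_univ] at h4
      exact h4.symm
    refine ⟨fun l => w j (f (j, l)), ⟨fun l => hw0 j _ (hf j l), ?_⟩, ?_⟩
    · exact (hsum (w j)).trans (hw1 j)
    · exact (hwx j).symm.trans (hsum' fun b => w j b • v b).symm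
  · have h4 : vectorSpan ℝ (Set.range x) ≤ L.direction := by
      rw [AffineSubspace.direction_eq_vectorSpan]
      apply vectorSpan_mono
      rintro _ ⟨j, rfl⟩
      exact (hx j).1
    exact (Submodule.finrank_mono h4).trans hL.2.le

theorem exists_hit {α : Type} [DecidableEq α] (𝒜 : Finset (Finset α)) (s t : ℕ)
    (h1 : ∀ e ∈ 𝒜, e.card = s) (hs : 1 ≤ s)
    (h2 : ∀ ℬ ⊆ 𝒜, (∀ e ∈ ℬ, ∀ e' ∈ ℬ, e ≠ e' → Disjoint e e') → ℬ.card < t) :
    ∃ T : Finset α, T.card ≤ t * s ∧ ∀ e ∈ 𝒜, ¬ Disjoint e T := by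
  classical
  let 𝒮 : Finset (Finset (Finset α)) := 𝒜.powerset.filter
    (fun ℬ => ∀ e ∈ ℬ, ∀ e' ∈ ℬ, e ≠ e' → Disjoint e e')
  have hne : 𝒮.Nonempty := ⟨∅, by simp [𝒮]⟩
  obtain ⟨ℬ, hℬ, hmax⟩ := exists_max_image 𝒮 card hne
  have hℬ' := hℬ
  simp only [𝒮, mem_filter, mem_powerset] at hℬ'
  obtain ⟨hsub, hd⟩ := hℬ'
  refine ⟨ℬ.biUnion id, ?_, ?_⟩
  · calc (ℬ.biUnion id).card ≤ ∑ e ∈ ℬ, (id e : Finset α).card := card_biUnion_le
      _ = ∑ _e ∈ ℬ, s := sum_congr rfl fun e he => h1 e (hsub he)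
      _ = ℬ.card * s := by rw [sum_const, smul_eq_mul]
      _ ≤ t * s := Nat.mul_le_mul_right _ (h2 ℬ hsub hd).le
  · intro e he hdis
    have hne' : e.Nonempty := card_pos.1 (by rw [h1 e he]; omega)
    have hde : ∀ e' ∈ ℬ, Disjoint e e' := fun e' he' =>
      hdis.mono_right (subset_biUnion_of_mem id he')
    have hnot : e ∉ ℬ := fun h4 => by
      have h5 := hde e h4
      rw [disjoint_self_iff_empty] at h5
      exact hne'.ne_empty h5
    have hin : insert e ℬ ∈ 𝒮 := by
      simp only [𝒮, mem_filter, mem_powerset]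
      refine ⟨insert_subset he hsub, ?_⟩
      intro a ha b hb hab
      rcases mem_insert.1 ha with h4 | h4
      · rcases mem_insert.1 hb with h5 | h5
        · exact absurd (h4.trans h5.symm) hab
        · rw [h4]; exact hde b h5
      · rcases mem_insert.1 hb with h5 | h5
        · rw [h5]; exact (hde a h4).symm
        · exact hd a h4 b h5 hab
    have h6 := hmax _ hin
    rw [card_insert_of_notMem hnot] at h6
    omega

end Pool.Agent.H9.SC
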