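import Pool.Agent.H9.SC.Defs

/-! # SC.Gpa

General position of the vertices of a geometric hypergraph with at least `d + 1` vertices.

PROOF. Let `T ⊆ G.V`, `T.card ≤ d + 1`. Choose `T ⊆ T' ⊆ G.V` with `T'.card = d + 1` (`exists_subsuperset_card_eq`). If `T` is affinely dependent then so is `T'` (`AffineIndependent.mono`), hence `finrank (vectorSpan T') ≤ d - 1` (`affineIndependent_iff_finrank_vectorSpan_eq` / `affineIndependent_iff_le_finrank_vectorSpan`; `(d + 1)` points). Extend the submodule `vectorSpan T'` to a submodule `W` of dimension exactly `d - 1` (there is one between it and `⊤`, `finrank = d`: e.g. `Submodule.exists_le_finrank_eq`-type, or add basis vectors, or induction; H68/Real.lean `exists_flat_through` for a similar construction). The affine subspace `mk' x W`, `x ∈ T'`, has a direction of dimension `d - 1` and contains the `d + 1` points of `T'`, contradiction to `G.genPos`. -/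

set_option autoImplicit false

open Module Finset

namespace Pool.Agent.H9.SC

open Pool.Agent.H68

theorem gps_of_hyp {d r : ℕ} (hd : 1 ≤ d) (G : GeomHyp d r) (hn : d + 1 ≤ G.V.card) : GPs G.V := by
  classical
  intro T hT hTc
  obtain ⟨T', hTT', hT'V, hT'c⟩ := exists_subsuperset_card_eq hT hTc hn
  have key : AffineIndependent ℝ ((↑) : T' → Pt d) := by
    have hc : Fintype.card T' = d + 1 := by rw [Fintype.card_coe, hT'c]
    rw [affineIndependent_iff_finrank_vectorSpan_eq ℝ _ hc]
    have hr : Set.range ((↑) : T' → Pt d) = (T' : Set (Pt d)) := Subtype.range_coe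
    rw [hr]
    have hfr : finrank ℝ (Pt d) = d := by simp
    by_contra hne
    have hlt : vectorSpan ℝ (T' : Set (Pt d)) < ⊤ := by
      rw [lt_top_iff_ne_top]
      intro h
      apply hne
      rw [h, finrank_top, hfr]
    obtain ⟨f, hf0, hf⟩ := Submodule.exists_le_ker_of_lt_top _ hlt
    obtain ⟨x, hx⟩ : T'.Nonempty := card_pos.1 (by omega)
    have hker : finrank ℝ (LinearMap.ker f) + 1 = finrank ℝ (Pt d) :=
      Module.Dual.finrank_ker_add_one_of_ne_zero hf0
    have h1 := G.genPos (AffineSubspace.mk' x (LinearMap.ker f)) (by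
      rw [AffineSubspace.direction_mk', hker, hfr])
    have h2 : (T' : Set (Pt d)) ⊆ {y : Pt d | y ∈ G.V ∧ y ∈ AffineSubspace.mk' x (LinearMap.ker f)} := by
      intro y hy
      refine ⟨hT'V hy, ?_⟩
      rw [AffineSubspace.mem_mk']
      exact hf (vsub_mem_vectorSpan ℝ hy hx)
    have h3 := Set.ncard_le_ncard h2 (G.V.finite_toSet.subset fun y hy => hy.1)
    rw [Set.ncard_coe_finset, hT'c] at h3
    omega
  exact key.mono (s := (T : Set (Pt d))) (t := (T' : Set (Pt d))) hTT'

end Pool.Agent.H9.SC
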