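import Pool.Agent.H9.SC.Rng

/-! # SC.Gre

Hypergraphs with small degrees and codegrees.

PROOF. wlog `ε ≤ 1`. Let `Δ := ⌊(1+ε) r m / n⌋₊`, `Δ₂ := ⌊ε m / n⌋₊`. Among the families `F` of `r`-subsets of `Fin n` with `F.card ≤ m`, all degrees `≤ Δ`, all codegrees (of different `u, v`) `≤ Δ₂` take one of maximal size (the empty family is one). Suppose `F.card < m`. Saturated vertices: degree `= Δ` (i.e. `≥ Δ`): their number `a` satisfies `a Δ ≤ r m`; `Δ ≥ (1+ε) r m/n - 1 ≥ (1+ε/2) r m/n` (`m/n ≥ K ≥ 2/(ε r)`), so `a ≤ n/(1+ε/2)` and at least `n (ε/2)/(1+ε/2) ≥ (ε/4) n` vertices are not saturated: the set `A`. Saturated pairs: their number `b` satisfies `b Δ₂ ≤ (r choose 2) m ≤ r² m`, `Δ₂ ≥ (ε/2) m/n`, so `b ≤ 2 r² n/ε`.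
The `r`-subsets of `A`: at least `A.card.choose r ≥ c n^r`, `c = c(ε, r) > 0`, for `n ≥ N₀`; those in `F`: `< m ≤ n^r/K`; those that contain a saturated pair: at most `b n^(r-2) ≤ (2 r²/ε) n^(r-1)`. For `K` and `N₀` large (`range_K`) there is an `r`-subset `e` of `A` that is not in `F` and contains no saturated pair; `insert e F` contradicts the maximality. -/

set_option autoImplicit false

open Module Finset

namespace Pool.Agent.H9.SC

open Pool.Agent.H68

open Classical in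
private lemma Gre_pair {n r : ℕ} (hr : 2 ≤ r) {u v : Fin n} (huv : u ≠ v) :
    ((powersetCard r (univ : Finset (Fin n))).filter fun e => u ∈ e ∧ v ∈ e).card ≤ n ^ (r - 2) := by
  have h1 : ((powersetCard r (univ : Finset (Fin n))).filter fun e => u ∈ e ∧ v ∈ e).card ≤
      (powersetCard (r - 2) (univ : Finset (Fin n))).card := by
    refine Finset.card_le_card_of_injOn (fun e => (e.erase u).erase v) ?_ ?_
    · intro e he
      simp only [coe_filter, mem_powersetCard, Set.mem_setOf_eq] at he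
      simp only [Finset.mem_coe, mem_powersetCard]
      refine ⟨subset_univ _, ?_⟩
      rw [Finset.card_erase_of_mem (Finset.mem_erase.2 ⟨huv.symm, he.2.2⟩),
        Finset.card_erase_of_mem he.2.1, he.1.2]
      omega
    · intro e he e' he' h
      simp only [coe_filter, mem_powersetCard, Set.mem_setOf_eq] at he he'
      have h2 : ∀ e : Finset (Fin n), u ∈ e → v ∈ e → insert u (insert v ((e.erase u).erase v)) = e := by
        intro e hu hv
        rw [Finset.insert_erase (Finset.mem_erase.2 ⟨huv.symm, hv⟩), Finset.insert_erase hu]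
      rw [← h2 e he.2.1 he.2.2, ← h2 e' he'.2.1 he'.2.2]
      simp only at h
      rw [h]
  refine h1.trans ?_
  rw [Finset.card_powersetCard, Finset.card_univ, Fintype.card_fin]
  exact Nat.choose_le_pow _ _

open Classical in
private lemma Gre_exists {n r : ℕ} (hr : 2 ≤ r) (F : Finset (Finset (Fin n))) (A : Finset (Fin n))
    (B : Finset (Fin n × Fin n)) (hB : ∀ p ∈ B, p.1 ≠ p.2)
    (h : F.card + B.card * n ^ (r - 2) < A.card.choose r) :
    ∃ e : Finset (Fin n), e.card = r ∧ e ⊆ A ∧ e ∉ F ∧ ∀ p ∈ B, ¬ (p.1 ∈ e ∧ p.2 ∈ e) := by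
  by_contra hc
  push Not at hc
  have h1 : powersetCard r A ⊆ F ∪ B.biUnion fun p =>
      (powersetCard r (univ : Finset (Fin n))).filter fun e => p.1 ∈ e ∧ p.2 ∈ e := by
    intro e he
    rw [mem_powersetCard] at he
    rw [Finset.mem_union]
    by_cases hF : e ∈ F
    · exact Or.inl hF
    · right
      obtain ⟨p, hp, hp1, hp2⟩ := hc e he.2 he.1 hF
      rw [Finset.mem_biUnion]
      exact ⟨p, hp, Finset.mem_filter.2 ⟨mem_powersetCard.2 ⟨subset_univ _, he.2⟩, hp1, hp2⟩⟩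
  have h2 := Finset.card_le_card h1
  rw [Finset.card_powersetCard] at h2
  have h3 : (B.biUnion fun p =>
      (powersetCard r (univ : Finset (Fin n))).filter fun e => p.1 ∈ e ∧ p.2 ∈ e).card ≤
        B.card * n ^ (r - 2) :=
    Finset.card_biUnion_le_card_mul _ _ _ fun p hp => Gre_pair hr (hB p hp)
  have h4 := Finset.card_union_le F (B.biUnion fun p =>
      (powersetCard r (univ : Finset (Fin n))).filter fun e => p.1 ∈ e ∧ p.2 ∈ e)
  omega

open Classical in
private lemma Gre_deg {n r : ℕ} (F : Finset (Finset (Fin n))) (hF : ∀ e ∈ F, e.card = r) :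
    ∑ u : Fin n, (F.filter fun e => u ∈ e).card = F.card * r := by
  simp_rw [Finset.card_filter]
  rw [Finset.sum_comm]
  rw [Finset.sum_congr rfl (g := fun _ => r) fun e he => ?_]
  · rw [Finset.sum_const, smul_eq_mul]
  · rw [← hF e he]
    simp

open Classical in
private lemma Gre_codeg {n r : ℕ} (F : Finset (Finset (Fin n))) (hF : ∀ e ∈ F, e.card = r) :
    ∑ p : Fin n × Fin n, (F.filter fun e => p.1 ∈ e ∧ p.2 ∈ e).card = F.card * (r * r) := by
  simp_rw [Finset.card_filter]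
  rw [Finset.sum_comm]
  rw [Finset.sum_congr rfl (g := fun _ => r * r) fun e he => ?_]
  · rw [Finset.sum_const, smul_eq_mul]
  · rw [← hF e he, ← Finset.card_product, ← Finset.card_filter]
    congr 1
    ext p
    simp

open Classical in
private lemma Gre_core {n r m D D2 : ℕ}
    (H : ∀ F : Finset (Finset (Fin n)), (∀ e ∈ F, e.card = r) → F.card < m →
      ∃ e : Finset (Fin n), e.card = r ∧ e ∉ F ∧ (∀ u ∈ e, (F.filter fun e => u ∈ e).card < D) ∧
        ∀ u ∈ e, ∀ v ∈ e, u ≠ v → (F.filter fun e => u ∈ e ∧ v ∈ e).card < D2) :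
    ∃ F : Finset (Finset (Fin n)), (∀ e ∈ F, e.card = r) ∧ F.card = m ∧
      (∀ u, (F.filter fun e => u ∈ e).card ≤ D) ∧
      ∀ u v, u ≠ v → (F.filter fun e => u ∈ e ∧ v ∈ e).card ≤ D2 := by
  have step : ∀ j : ℕ, j ≤ m → ∃ F : Finset (Finset (Fin n)), (∀ e ∈ F, e.card = r) ∧ F.card = j ∧
      (∀ u, (F.filter fun e => u ∈ e).card ≤ D) ∧
      ∀ u v, u ≠ v → (F.filter fun e => u ∈ e ∧ v ∈ e).card ≤ D2 := by
    intro j
    induction j with
    | zero => intro _; exact ⟨∅, by simp, by simp, by simp, by simp⟩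
    | succ j ih =>
      intro hj
      obtain ⟨F, h1, h2, h3, h4⟩ := ih (by omega)
      obtain ⟨e, he, heF, hd, hc⟩ := H F h1 (by omega)
      refine ⟨insert e F, ?_, ?_, ?_, ?_⟩
      · intro e' he'
        rcases Finset.mem_insert.1 he' with h | h
        · rw [h]; exact he
        · exact h1 e' h
      · rw [Finset.card_insert_of_notMem heF, h2]
      · intro u
        rw [Finset.filter_insert]
        split_ifs with hu
        · have := hd u hu
          have h5 := Finset.card_insert_le e (F.filter fun e => u ∈ e)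
          omega
        · exact h3 u
      · intro u v huv
        rw [Finset.filter_insert]
        split_ifs with hu
        · have := hc u hu.1 v hu.2 huv
          have h5 := Finset.card_insert_le e (F.filter fun e => u ∈ e ∧ v ∈ e)
          omega
        · exact h4 u v huv
  exact step m le_rfl

open Classical in
private lemma Gre_num {n r m D D2 : ℕ} (hr : 2 ≤ r) {ε c : ℝ} (hε : 0 < ε)
    (hn : 1 ≤ n) (hc : c = (ε / (2 + ε) / 2) ^ r / r.factorial)
    (hD : (1 + ε / 2) * (r * ((m : ℝ) / n)) ≤ D) (hD2 : ε / 2 * ((m : ℝ) / n) ≤ D2)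
    (hm1 : 1 ≤ m) (h2r : 2 * r ≤ ε / (2 + ε) * n) (hmc : (m : ℝ) ≤ c / 2 * (n : ℝ) ^ r)
    (hnc : 2 * (r : ℝ) ^ 2 / ε ≤ c / 2 * n)
    (F : Finset (Finset (Fin n))) (hF : ∀ e ∈ F, e.card = r) (hFm : F.card < m) :
    ∃ e : Finset (Fin n), e.card = r ∧ e ∉ F ∧ (∀ u ∈ e, (F.filter fun e => u ∈ e).card < D) ∧
        ∀ u ∈ e, ∀ v ∈ e, u ≠ v → (F.filter fun e => u ∈ e ∧ v ∈ e).card < D2 := by
  have hn0 : (0 : ℝ) < n := by exact_mod_cast hn
  have hm0 : (0 : ℝ) < m := by exact_mod_cast hm1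
  have hr0 : (0 : ℝ) < r := by exact_mod_cast (by omega : 0 < r)
  set A : Finset (Fin n) := univ.filter fun u => (F.filter fun e => u ∈ e).card < D with hA
  set B : Finset (Fin n × Fin n) := univ.filter fun p => p.1 ≠ p.2 ∧
    D2 ≤ (F.filter fun e => p.1 ∈ e ∧ p.2 ∈ e).card with hB
  have hAc : ε / (2 + ε) * n ≤ (A.card : ℝ) := by
    have h1 : (Aᶜ).card * D ≤ ∑ u : Fin n, (F.filter fun e => u ∈ e).card := by
      calc (Aᶜ).card * D = ∑ _u ∈ Aᶜ, D := by rw [Finset.sum_const, smul_eq_mul]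
        _ ≤ ∑ u ∈ Aᶜ, (F.filter fun e => u ∈ e).card := by
            refine Finset.sum_le_sum fun u hu => ?_
            rw [hA, Finset.mem_compl, Finset.mem_filter] at hu
            simpa using hu
        _ ≤ _ := Finset.sum_le_sum_of_subset (subset_univ _)
    rw [Gre_deg F hF] at h1
    have h2 : (Aᶜ).card * D ≤ m * r := h1.trans (Nat.mul_le_mul_right _ hFm.le)
    have h3 : ((Aᶜ).card : ℝ) * D ≤ m * r := by exact_mod_cast h2
    have h4 : ((Aᶜ).card : ℝ) = n - A.card := by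
      rw [Finset.card_compl, Fintype.card_fin, Nat.cast_sub]
      have := Finset.card_le_univ A
      rwa [Fintype.card_fin] at this
    rw [h4] at h3
    have h5 : (0 : ℝ) ≤ n - A.card := by rw [← h4]; positivity
    have h6 : ((n : ℝ) - A.card) * ((1 + ε / 2) * (r * ((m : ℝ) / n))) ≤ m * r :=
      (mul_le_mul_of_nonneg_left hD h5).trans h3
    have h7 : ((n : ℝ) - A.card) * (1 + ε / 2) ≤ n := by
      have h8 : ((n : ℝ) - A.card) * ((1 + ε / 2) * (r * ((m : ℝ) / n))) =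
          (((n : ℝ) - A.card) * (1 + ε / 2) / n) * (m * r) := by
        field_simp
      rw [h8] at h6
      have h9 : ((n : ℝ) - A.card) * (1 + ε / 2) / n ≤ 1 := by
        by_contra h10
        push Not at h10
        have : (m : ℝ) * r < (((n : ℝ) - A.card) * (1 + ε / 2) / n) * (m * r) :=
          lt_mul_of_one_lt_left (by positivity) h10
        linarith
      rwa [div_le_one hn0] at h9
    rw [div_mul_eq_mul_div, div_le_iff₀ (by positivity)]
    nlinarith
  have hBc : (B.card : ℝ) ≤ 2 * (r : ℝ) ^ 2 / ε * n := by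
    have h1 : B.card * D2 ≤ ∑ p : Fin n × Fin n, (F.filter fun e => p.1 ∈ e ∧ p.2 ∈ e).card := by
      calc B.card * D2 = ∑ _p ∈ B, D2 := by rw [Finset.sum_const, smul_eq_mul]
        _ ≤ ∑ p ∈ B, (F.filter fun e => p.1 ∈ e ∧ p.2 ∈ e).card := by
            refine Finset.sum_le_sum fun p hp => ?_
            rw [hB, Finset.mem_filter] at hp
            exact hp.2.2
        _ ≤ _ := Finset.sum_le_sum_of_subset (subset_univ _)
    rw [Gre_codeg F hF] at h1
    have h2 : B.card * D2 ≤ m * (r * r) := h1.trans (Nat.mul_le_mul_right _ hFm.le)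
    have h3 : (B.card : ℝ) * D2 ≤ m * (r * r) := by exact_mod_cast h2
    have h6 : (B.card : ℝ) * (ε / 2 * ((m : ℝ) / n)) ≤ m * (r * r) :=
      (mul_le_mul_of_nonneg_left hD2 (Nat.cast_nonneg _)).trans h3
    have h7 : (B.card : ℝ) * (ε / 2 * ((m : ℝ) / n)) = (B.card * ε / (2 * n)) * m := by
      field_simp
    rw [h7, mul_comm (m : ℝ)] at h6
    have h8 := le_of_mul_le_mul_right h6 hm0
    rw [div_le_iff₀ (by positivity)] at h8
    rw [div_mul_eq_mul_div, le_div_iff₀ hε]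
    nlinarith
  have hch : c * (n : ℝ) ^ r ≤ (A.card.choose r : ℝ) := by
    have h0 := Nat.pow_le_choose (α := ℝ) r A.card
    refine le_trans ?_ h0
    rw [hc, div_mul_eq_mul_div]
    refine div_le_div_of_nonneg_right ?_ (by positivity)
    rw [← mul_pow]
    refine pow_le_pow_left₀ (by positivity) ?_ r
    have h1 : (2 * r : ℝ) ≤ A.card := h2r.trans hAc
    have h2 : 2 * r ≤ A.card := by exact_mod_cast h1
    rw [Nat.cast_sub (by omega)]
    push_cast
    linarith
  have hlt : F.card + B.card * n ^ (r - 2) < A.card.choose r := by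
    have h1 : ((F.card + B.card * n ^ (r - 2) : ℕ) : ℝ) < (A.card.choose r : ℝ) := by
      push_cast
      have h2 : (F.card : ℝ) < m := by exact_mod_cast hFm
      have h3 : (B.card : ℝ) * (n : ℝ) ^ (r - 2) ≤ c / 2 * (n : ℝ) ^ r := by
        calc (B.card : ℝ) * (n : ℝ) ^ (r - 2) ≤ (2 * (r : ℝ) ^ 2 / ε * n) * (n : ℝ) ^ (r - 2) :=
              mul_le_mul_of_nonneg_right hBc (by positivity)
          _ ≤ (c / 2 * n * n) * (n : ℝ) ^ (r - 2) := by
              refine mul_le_mul_of_nonneg_right ?_ (by positivity)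
              exact mul_le_mul_of_nonneg_right hnc hn0.le
          _ = c / 2 * (n : ℝ) ^ r := by
              obtain ⟨s, rfl⟩ : ∃ s, r = s + 2 := ⟨r - 2, by omega⟩
              simp only [Nat.add_sub_cancel]
              ring
      linarith
    exact_mod_cast h1
  obtain ⟨e, h1, h2, h3, h4⟩ := Gre_exists hr F A B (fun p hp => by
    rw [hB, Finset.mem_filter] at hp
    exact hp.2.1) hlt
  refine ⟨e, h1, h3, fun u hu => ?_, fun u hu v hv huv => ?_⟩
  · have := h2 hu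
    rw [hA, Finset.mem_filter] at this
    exact this.2
  · by_contra h5
    push Not at h5
    exact h4 (u, v) (by rw [hB, Finset.mem_filter]; exact ⟨mem_univ _, huv, h5⟩) ⟨hu, hv⟩

open Classical in
theorem greedy_hyp (r : ℕ) (hr : 2 ≤ r) (ε : ℝ) (hε : 0 < ε) : ∃ K : ℝ, 0 < K ∧ ∀ n m : ℕ, 1 ≤ m →
    K * n ≤ m → K * m ≤ (n : ℝ) ^ r → ∃ F : Finset (Finset (Fin n)), (∀ e ∈ F, e.card = r) ∧
      F.card = m ∧ (∀ u, ((F.filter fun e => u ∈ e).card : ℝ) ≤ (1 + ε) * (r * ((m : ℝ) / n))) ∧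
      ∀ u v, u ≠ v → ((F.filter fun e => u ∈ e ∧ v ∈ e).card : ℝ) ≤ ε * ((m : ℝ) / n) := by
  set c : ℝ := (ε / (2 + ε) / 2) ^ r / r.factorial with hc
  have hc0 : 0 < c := by positivity
  obtain ⟨K, hK0, hKA, hK⟩ := range_K r hr
    (⌈2 * r / (ε / (2 + ε))⌉₊ + ⌈2 * (r : ℝ) ^ 2 / ε / (c / 2)⌉₊) (2 / ε + 2 / c)
  refine ⟨K, hK0, fun n m hm h1 h2 => ?_⟩
  obtain ⟨hn, hn1, -⟩ := hK n m h1 h2 hm
  have hn0 : (0 : ℝ) < n := by exact_mod_cast hn1
  have hr1 : (1 : ℝ) ≤ r := by exact_mod_cast (by omega : 1 ≤ r)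
  have hq : K ≤ (m : ℝ) / n := by rwa [le_div_iff₀ hn0]
  have hq1 : 2 / ε ≤ (m : ℝ) / n := by
    have : (0 : ℝ) ≤ 2 / c := by positivity
    linarith
  have hq2 : 1 ≤ ε / 2 * ((m : ℝ) / n) := by
    have := mul_le_mul_of_nonneg_left hq1 (by positivity : 0 ≤ ε / 2)
    have e : ε / 2 * (2 / ε) = 1 := by field_simp
    linarith
  have hq0 : 0 < (m : ℝ) / n := lt_of_lt_of_le (by positivity) hq1
  have hnn : (2 * r / (ε / (2 + ε)) : ℝ) ≤ n ∧ 2 * (r : ℝ) ^ 2 / ε / (c / 2) ≤ n := by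
    have h3 : ((⌈2 * r / (ε / (2 + ε))⌉₊ : ℕ) : ℝ) + ((⌈2 * (r : ℝ) ^ 2 / ε / (c / 2)⌉₊ : ℕ) : ℝ) ≤ n := by
      exact_mod_cast hn
    have h4 := Nat.le_ceil (2 * r / (ε / (2 + ε)) : ℝ)
    have h5 := Nat.le_ceil (2 * (r : ℝ) ^ 2 / ε / (c / 2) : ℝ)
    have h6 : (0 : ℝ) ≤ ((⌈2 * r / (ε / (2 + ε))⌉₊ : ℕ) : ℝ) := Nat.cast_nonneg _
    have h7 : (0 : ℝ) ≤ ((⌈2 * (r : ℝ) ^ 2 / ε / (c / 2)⌉₊ : ℕ) : ℝ) := Nat.cast_nonneg _
    exact ⟨by linarith, by linarith⟩
  have a1 : (1 + ε / 2) * (r * ((m : ℝ) / n)) ≤ (⌊(1 + ε) * (r * ((m : ℝ) / n))⌋₊ : ℕ) := by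
    have h3 := Nat.lt_floor_add_one ((1 + ε) * (r * ((m : ℝ) / n)))
    have h4 : (m : ℝ) / n ≤ r * ((m : ℝ) / n) := le_mul_of_one_le_left hq0.le hr1
    nlinarith
  have a2 : ε / 2 * ((m : ℝ) / n) ≤ (⌊ε * ((m : ℝ) / n)⌋₊ : ℕ) := by
    have h3 := Nat.lt_floor_add_one (ε * ((m : ℝ) / n))
    nlinarith
  have a3 : 2 * r ≤ ε / (2 + ε) * n := by
    have := hnn.1
    rw [div_le_iff₀ (by positivity)] at this
    linarith
  have a4 : (m : ℝ) ≤ c / 2 * (n : ℝ) ^ r := by
    have h3 : 2 / c ≤ K := by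
      have : (0 : ℝ) ≤ 2 / ε := by positivity
      linarith
    have h4 : 2 / c * m ≤ (n : ℝ) ^ r :=
      (mul_le_mul_of_nonneg_right h3 (Nat.cast_nonneg m)).trans h2
    have h5 := mul_le_mul_of_nonneg_left h4 (by positivity : 0 ≤ c / 2)
    have e : c / 2 * (2 / c * m) = m := by field_simp
    linarith
  have a5 : 2 * (r : ℝ) ^ 2 / ε ≤ c / 2 * n := by
    have := hnn.2
    rw [div_le_iff₀ (by positivity)] at this
    linarith
  obtain ⟨F, f1, f2, f3, f4⟩ := Gre_core (n := n) (r := r) (m := m)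
    (D := ⌊(1 + ε) * (r * ((m : ℝ) / n))⌋₊) (D2 := ⌊ε * ((m : ℝ) / n)⌋₊)
    (Gre_num hr hε hn1 hc a1 a2 hm a3 a4 a5)
  refine ⟨F, f1, f2, fun u => ?_, fun u v huv => ?_⟩
  · refine le_trans (Nat.cast_le.2 (f3 u)) (Nat.floor_le (by positivity))
  · refine le_trans (Nat.cast_le.2 (f4 u v huv)) (Nat.floor_le (by positivity))

end Pool.Agent.H9.SC
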