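import Pool.Agent.H9.SC.Defs

/-! # SC.Rng

The range of the parameters.

PROOF. (1) `n ≥ 1` because otherwise `K m ≤ 0`. `K² n ≤ K m ≤ n^r`, so `K² ≤ n^(r-1)`. If `n < N₀` then `n^(r-1) ≤ N₀^(r-1) < K²` for `K := N₀^r + r^r + 1`. (2) `n.choose r ≥ (n/r)^r` (`Nat.choose_le..`: `Nat.pow_le_choose`: `((n + 1 - r : ℕ)^r : α) ≤ r ! * n.choose r`, or simply `(n/r)^r ≤ n.choose r` for `r ≤ n`; with `N₀ ≥ 2r`: `(n+1-r)^r ≥ (n/2)^r`, so `n.choose r ≥ n^r/(2^r r!)`); so `m ≤ n^r / K ≤ n.choose r` if `K ≥ 2^r r!`. Choose `K` as the maximum of all. -/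

set_option autoImplicit false

open Module Finset

namespace Pool.Agent.H9.SC

open Pool.Agent.H68

theorem range_K (r : ℕ) (hr : 2 ≤ r) (N₀ : ℕ) (A : ℝ) : ∃ K : ℝ, 0 < K ∧ A ≤ K ∧ ∀ n m : ℕ,
    K * n ≤ m → K * m ≤ (n : ℝ) ^ r → 1 ≤ m → N₀ ≤ n ∧ 1 ≤ n ∧ m ≤ n.choose r := by
  obtain ⟨N1, hN1⟩ : ∃ N1 : ℕ, N1 = max N₀ (2 * r) := ⟨_, rfl⟩
  have hN10 : N₀ ≤ N1 := hN1 ▸ le_max_left _ _
  have hN1r : 2 * r ≤ N1 := hN1 ▸ le_max_right _ _
  obtain ⟨K, hK⟩ : ∃ K : ℝ, K = max A ((N1 : ℝ) ^ r + 2 ^ r * (r.factorial : ℝ) + 1) := ⟨_, rfl⟩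
  have hKA : A ≤ K := hK ▸ le_max_left _ _
  have hK1 : (N1 : ℝ) ^ r + 2 ^ r * (r.factorial : ℝ) + 1 ≤ K := hK ▸ le_max_right _ _
  have hp1 : (0 : ℝ) ≤ (N1 : ℝ) ^ r := by positivity
  have hp2 : (0 : ℝ) ≤ 2 ^ r * (r.factorial : ℝ) := by positivity
  have hK0 : 0 < K := by linarith
  have hKge1 : 1 ≤ K := by linarith
  refine ⟨K, hK0, hKA, ?_⟩
  intro n m h1 h2 hm
  have hm' : (1 : ℝ) ≤ m := by exact_mod_cast hm
  have hn : 1 ≤ n := by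
    by_contra hcon
    have h0 : n = 0 := by omega
    rw [h0, Nat.cast_zero, zero_pow (by omega)] at h2
    nlinarith
  have hn' : (1 : ℝ) ≤ n := by exact_mod_cast hn
  have hr1 : r = (r - 1) + 1 := by omega
  have hK2 : K * K ≤ (n : ℝ) ^ (r - 1) := by
    have h3 : K * K * n ≤ (n : ℝ) ^ (r - 1) * n := by
      rw [← pow_succ, ← hr1]
      calc K * K * n = K * (K * n) := by ring
        _ ≤ K * m := mul_le_mul_of_nonneg_left h1 hK0.le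
        _ ≤ (n : ℝ) ^ r := h2
    exact le_of_mul_le_mul_right h3 (by linarith)
  have hnN : N1 ≤ n := by
    by_contra hcon
    push Not at hcon
    have h4 : (n : ℝ) ^ (r - 1) ≤ (N1 : ℝ) ^ (r - 1) :=
      pow_le_pow_left₀ (by linarith) (by exact_mod_cast hcon.le) _
    have h5 : (1 : ℝ) ≤ N1 := by
      have : 1 ≤ N1 := by omega
      exact_mod_cast this
    have h6 : (N1 : ℝ) ^ (r - 1) ≤ (N1 : ℝ) ^ r := pow_le_pow_right₀ h5 (by omega)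
    nlinarith
  refine ⟨hN10.trans hnN, hn, ?_⟩
  have hc := Nat.pow_le_choose (α := ℝ) r n
  have h7 : ((n : ℝ) / 2) ^ r ≤ ((n + 1 - r : ℕ) : ℝ) ^ r := by
    refine pow_le_pow_left₀ (by positivity) ?_ _
    have h8 : n ≤ 2 * (n + 1 - r) := by omega
    have h9 : (n : ℝ) ≤ 2 * ((n + 1 - r : ℕ) : ℝ) := by exact_mod_cast h8
    linarith
  have hf0 : (0 : ℝ) < r.factorial := by exact_mod_cast r.factorial_pos
  have h10 : (n : ℝ) ^ r ≤ 2 ^ r * (r.factorial : ℝ) * (n.choose r : ℝ) := by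
    have h11 : ((n : ℝ) / 2) ^ r ≤ (r.factorial : ℝ) * (n.choose r : ℝ) := by
      refine h7.trans ?_
      rw [div_le_iff₀ hf0] at hc
      linarith
    have h12 : (n : ℝ) ^ r = 2 ^ r * ((n : ℝ) / 2) ^ r := by
      rw [← mul_pow]
      congr 1
      ring
    rw [h12, mul_assoc]
    exact mul_le_mul_of_nonneg_left h11 (by positivity)
  have h13 : 2 ^ r * (r.factorial : ℝ) * m ≤ 2 ^ r * (r.factorial : ℝ) * (n.choose r : ℝ) := by
    calc 2 ^ r * (r.factorial : ℝ) * m ≤ K * m :=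
          mul_le_mul_of_nonneg_right (by linarith) (by linarith)
      _ ≤ (n : ℝ) ^ r := h2
      _ ≤ _ := h10
  have h14 : (m : ℝ) ≤ (n.choose r : ℝ) := le_of_mul_le_mul_left h13 (by positivity)
  exact_mod_cast h14

end Pool.Agent.H9.SC
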