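import Pool.Agent.H9.SC.Cov
import Pool.Agent.H9.SC.Rng

/-! # SC.LowB

The lower bound for all `k`.

PROOF. `low_B_fin`: `le_fval` with `exists_geomHyp`; for `G` with `n` vertices and `m` edges: `cover` with `j = k + 1`, `exists_flat_set`; the flat meets every edge that has a vertex in `S`: at least `m - m (1-r/n)^(k+1)` edges (real number; take the ceiling).
`lower_B`: `(1-x)^(j) ≤ 1 - j x + j² x²` for `0 ≤ x ≤ 1` (induction), so `1 - (1-r/n)^(k+1) ≥ (k+1) (r/n) (1 - (k+1) r/n) ≥ (1-ε) (k+1) r/n` for `n ≥ (k+1) r/ε` (`range_K`). -/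

set_option autoImplicit false

open Module Finset

namespace Pool.Agent.H9.SC

open Pool.Agent.H68

theorem low_B_fin {d k r n m : ℕ} (hd : 1 ≤ d) (hrd : r ≤ d + 1) (hk : k ≤ d) (hn : 1 ≤ n)
    (hm : m ≤ n.choose r) :
    (m : ℝ) * (1 - (1 - (r : ℝ) / n) ^ (k + 1)) ≤ (fval d r k m n : ℝ) := by
  classical
  have h : ⌈(m : ℝ) * (1 - (1 - (r : ℝ) / n) ^ (k + 1))⌉₊ ≤ fval d r k m n := by
    apply le_fval (exists_geomHyp hd hrd hm)
    intro G hGn hGm
    obtain ⟨S, -, hSc, hS⟩ := cover G.V r G.E (fun e he => ⟨G.subV e he, G.card_eq e he⟩)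
      (by omega) (k + 1)
    obtain ⟨L, hL, hSL⟩ := exists_flat_set hk S hSc
    refine ⟨L, hL, ?_⟩
    rw [Nat.ceil_le]
    have h2 : (G.E.filter (fun e => ¬ Disjoint e S)).card ≤ numMet G L := by
      unfold numMet
      rw [← Set.ncard_coe_finset]
      apply Set.ncard_le_ncard _ (Set.Finite.subset (G.E.finite_toSet) (fun e he => he.1))
      intro e he
      rw [coe_filter] at he
      obtain ⟨x, hxe, hxS⟩ := Finset.not_disjoint_iff.1 he.2
      refine ⟨he.1, x, hSL x hxS, ?_⟩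
      exact subset_convexHull ℝ _ hxe
    have h3 := card_filter_add_card_filter_not (s := G.E) (fun e => Disjoint e S)
    rw [hGn, hGm] at hS
    rw [hGm] at h3
    have h4 : (m : ℝ) ≤ ((G.E.filter fun e => Disjoint e S).card : ℝ) + numMet G L := by
      have : m ≤ (G.E.filter fun e => Disjoint e S).card + numMet G L := by omega
      exact_mod_cast this
    have h5 : (m : ℝ) * (1 - (1 - (r : ℝ) / n) ^ (k + 1)) =
        m - m * (1 - (r : ℝ) / n) ^ (k + 1) := by ring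
    rw [h5]
    linarith
  exact (Nat.le_ceil _).trans (by exact_mod_cast h)

private theorem LowB_bern {x : ℝ} (h0 : 0 ≤ x) (h1 : x ≤ 1) (j : ℕ) :
    (1 - x) ^ j ≤ 1 - j * x + (j : ℝ) ^ 2 * x ^ 2 := by
  induction j with
  | zero => simp
  | succ j ih =>
    have h2 : (1 - x) ^ (j + 1) ≤ (1 - j * x + (j : ℝ) ^ 2 * x ^ 2) * (1 - x) := by
      rw [pow_succ]
      exact mul_le_mul_of_nonneg_right ih (by linarith)
    refine h2.trans ?_
    push_cast
    have h3 : (0 : ℝ) ≤ (j : ℝ) := Nat.cast_nonneg j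
    have h4 : (0 : ℝ) ≤ x ^ 2 * ((j : ℝ) + 1) := by positivity
    have h5 : (0 : ℝ) ≤ (j : ℝ) ^ 2 * x ^ 3 := by positivity
    nlinarith

theorem lower_B {d k r : ℕ} (hd : 1 ≤ d) (hr : 2 ≤ r) (hrd : r ≤ d + 1) (hk : k ≤ d) (ε : ℝ)
    (hε : 0 < ε) : ∃ K : ℝ, 0 < K ∧ ∀ n m : ℕ, 1 ≤ m → K * n ≤ m → K * m ≤ (n : ℝ) ^ r →
      (1 - ε) * (((k : ℝ) + 1) * r * ((m : ℝ) / n)) ≤ (fval d r k m n : ℝ) := by
  obtain ⟨K, hK, -, hKn⟩ := range_K r hr (⌈((k : ℝ) + 1) * r / ε⌉₊ + r) 0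
  refine ⟨K, hK, fun n m hm h1 h2 => ?_⟩
  obtain ⟨h3, h4, h5⟩ := hKn n m h1 h2 hm
  have h6 := low_B_fin (k := k) hd hrd hk h4 h5
  refine le_trans ?_ h6
  have hn : (0 : ℝ) < n := by exact_mod_cast h4
  have hrn : (r : ℝ) ≤ n := by
    have : r ≤ n := by omega
    exact_mod_cast this
  have hx0 : (0 : ℝ) ≤ (r : ℝ) / n := by positivity
  have hx1 : (r : ℝ) / n ≤ 1 := (div_le_one hn).2 hrn
  have h7 := LowB_bern hx0 hx1 (k + 1)
  have h8 : ((k : ℝ) + 1) * ((r : ℝ) / n) ≤ ε := by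
    have h9 : ((k : ℝ) + 1) * r / ε ≤ n := by
      refine (Nat.le_ceil _).trans ?_
      have : ⌈((k : ℝ) + 1) * r / ε⌉₊ ≤ n := by omega
      exact_mod_cast this
    rw [div_le_iff₀ hε] at h9
    rw [← mul_div_assoc, div_le_iff₀ hn]
    linarith
  push_cast at h7
  set x := (r : ℝ) / n with hx
  have hm0 : (0 : ℝ) ≤ m := Nat.cast_nonneg m
  have hj : (0 : ℝ) ≤ (k : ℝ) + 1 := by positivity
  have e1 : (1 - ε) * (((k : ℝ) + 1) * r * ((m : ℝ) / n)) =
      m * ((((k : ℝ) + 1) * x) * (1 - ε)) := by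
    rw [hx]; ring
  rw [e1]
  refine mul_le_mul_of_nonneg_left ?_ hm0
  have h10 : (((k : ℝ) + 1) * x) * (1 - ε) ≤ (((k : ℝ) + 1) * x) * (1 - ((k : ℝ) + 1) * x) :=
    mul_le_mul_of_nonneg_left (by linarith) (by positivity)
  refine h10.trans ?_
  nlinarith

end Pool.Agent.H9.SC
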