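import Pool.Agent.H9.SC.UpF
import Pool.Agent.H9.SC.Rng

/-! # SC.UpA

The upper bound for hyperplanes (analysis).

PROOF. Let `q = m/n`, `y := ((r-1)! q)^(1/(r-1))`, `base r q = ((r-1)/r) q y`, `q = y^(r-1)/(r-1)!`, so `base r q = (r-1) y^r / r!`. Let `δ ∈ (0, 1]` be small (depending on `ε, r`), `w := ⌈(1+δ) y⌉₊ + r`. If `K` is large: `y` is large (`q ≥ K`), `y / n` is small (`y^(r-1) = (r-1)! m/n ≤ (r-1)! n^(r-1)/K`), so `w ≤ (1 + 2δ) y`, `w + 1 ≤ (1+2δ) y` and `w ≤ (δ/2) n`.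
`(n-w) w.choose (r-1) ≥ (1-δ/2) n (w-r+2)^(r-1)/(r-1)! ≥ (1-δ/2) n ((1+δ) y)^(r-1)/(r-1)! = (1-δ/2) (1+δ)^(r-1) m ≥ m` (`Nat.pow_sub_le_descFactorial`, `(1-δ/2)(1+δ) ≥ 1` for `δ ≤ 1`). So `up_fin`: `f ≤ d ((r-1) (w+1)^r/r! + w^(r-1)/(r-1)!) ≤ d ((r-1) ((1+2δ) y)^r / r! + ((1+2δ) y)^(r-1)/(r-1)!)`; the first term is `(1+2δ)^r d base r q`, the second is `≤ (1+2δ)^(r-1) (r/(r-1)) (1/y) d base r q`. Choose `δ` with `(1+2δ)^r ≤ 1 + ε/2` and `y ≥` const`/ε`. -/

set_option autoImplicit false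

open Module Finset

namespace Pool.Agent.H9.SC

open Pool.Agent.H68

private lemma UpA_base {r : ℕ} (hr : 2 ≤ r) {q : ℝ} (hq : 0 < q) : ∃ y : ℝ, 0 < y ∧
    y ^ (r - 1) = ((r - 1).factorial : ℝ) * q ∧ base r q = (((r : ℝ) - 1) / r) * q * y := by
  have hr1 : (0 : ℝ) < (r : ℝ) - 1 := by
    have : (2 : ℝ) ≤ r := by exact_mod_cast hr
    linarith
  have hP : (0 : ℝ) < ((r - 1).factorial : ℝ) := by exact_mod_cast Nat.factorial_pos _
  refine ⟨(((r - 1).factorial : ℝ) * q) ^ (1 / ((r : ℝ) - 1)), by positivity, ?_, ?_⟩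
  · rw [← Real.rpow_natCast, ← Real.rpow_mul (by positivity)]
    have e : 1 / ((r : ℝ) - 1) * ((r - 1 : ℕ) : ℝ) = 1 := by
      rw [Nat.cast_sub (by omega)]
      push_cast
      field_simp
    rw [e, Real.rpow_one]
  · unfold base
    rw [Real.mul_rpow hP.le hq.le]
    have e : (r : ℝ) / ((r : ℝ) - 1) = 1 + 1 / ((r : ℝ) - 1) := by field_simp; ring
    rw [e, Real.rpow_add hq, Real.rpow_one]
    ring

private lemma UpA_delta (r : ℕ) {ε : ℝ} (hε : 0 < ε) : ∃ δ : ℝ, 0 < δ ∧ δ ≤ 1 ∧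
    (1 + 2 * δ) ^ r ≤ 1 + ε / 2 := by
  have h1 : ContinuousAt (fun δ : ℝ => (1 + 2 * δ) ^ r) 0 := by fun_prop
  have h2 : (fun δ : ℝ => (1 + 2 * δ) ^ r) 0 < 1 + ε / 2 := by simp; positivity
  have h3 := h1.eventually_lt continuousAt_const h2
  obtain ⟨t, ht, h4⟩ := Metric.eventually_nhds_iff.1 h3
  refine ⟨min 1 (t / 2), by positivity, min_le_left _ _, ?_⟩
  refine (h4 (y := min 1 (t / 2)) ?_).le
  rw [Real.dist_eq, sub_zero, abs_of_pos (by positivity)]
  exact lt_of_le_of_lt (min_le_right _ _) (by linarith)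

theorem upper_A {d r : ℕ} (hr : 2 ≤ r) (hrd : r ≤ d + 1) (ε : ℝ) (hε : 0 < ε) : ∃ K : ℝ, 0 < K ∧
    ∀ n m : ℕ, 1 ≤ m → K * n ≤ m → K * m ≤ (n : ℝ) ^ r →
      (fval d r (d - 1) m n : ℝ) ≤ (1 + ε) * (d * base r ((m : ℝ) / n)) := by
  obtain ⟨δ, hδ0, hδ1, hδ⟩ := UpA_delta r hε
  have hr2 : (2 : ℝ) ≤ r := by exact_mod_cast hr
  set P : ℝ := ((r - 1).factorial : ℝ) with hP
  have hP1 : 1 ≤ P := by rw [hP]; exact_mod_cast Nat.succ_le_of_lt (Nat.factorial_pos _)
  have hP0 : 0 < P := by linarith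
  set Y : ℝ := (r + 2) / δ + (4 + 2 * ε) / ε with hY
  have hY0 : 0 < Y := by positivity
  obtain ⟨K, hK0, hKA, hK⟩ := range_K r hr 1 (Y ^ (r - 1) + P / (δ / 6) ^ (r - 1))
  refine ⟨K, hK0, fun n m hm h1 h2 => ?_⟩
  obtain ⟨-, hn1, -⟩ := hK n m h1 h2 hm
  have hn0 : (0 : ℝ) < n := by exact_mod_cast hn1
  have hm0 : (0 : ℝ) < m := by exact_mod_cast hm
  set q : ℝ := (m : ℝ) / n with hqd
  have hq0 : 0 < q := by positivity
  have hqK : K ≤ q := by rwa [hqd, le_div_iff₀ hn0]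
  have hqn : q * n = m := by rw [hqd]; field_simp
  obtain ⟨y, hy0, hy, hb⟩ := UpA_base hr hq0
  rw [← hP] at hy
  have hYy : Y ≤ y := by
    refine le_of_pow_le_pow_left₀ (n := r - 1) (by omega) hy0.le ?_
    rw [hy]
    have a1 : (0 : ℝ) ≤ P / (δ / 6) ^ (r - 1) := by positivity
    have a2 : q ≤ P * q := le_mul_of_one_le_left hq0.le hP1
    linarith
  have hyn : y ≤ δ / 6 * n := by
    refine le_of_pow_le_pow_left₀ (n := r - 1) (by omega) (by positivity) ?_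
    rw [hy, mul_pow]
    have a1 : P / (δ / 6) ^ (r - 1) ≤ K := by
      have : (0 : ℝ) ≤ Y ^ (r - 1) := by positivity
      linarith
    rw [div_le_iff₀ (by positivity)] at a1
    have a2 : K * q ≤ (n : ℝ) ^ (r - 1) := by
      have a3 : (n : ℝ) ^ r = (n : ℝ) ^ (r - 1) * n := by
        rw [← pow_succ]
        congr 1
        omega
      rw [a3, ← hqn, ← mul_assoc] at h2
      exact le_of_mul_le_mul_right h2 hn0
    calc P * q ≤ K * (δ / 6) ^ (r - 1) * q := mul_le_mul_of_nonneg_right a1 hq0.le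
      _ = (δ / 6) ^ (r - 1) * (K * q) := by ring
      _ ≤ (δ / 6) ^ (r - 1) * (n : ℝ) ^ (r - 1) := mul_le_mul_of_nonneg_left a2 (by positivity)
  have hδy : r + 2 ≤ δ * y := by
    have a1 : (r + 2) / δ ≤ y := by
      have : (0 : ℝ) ≤ (4 + 2 * ε) / ε := by positivity
      linarith
    rw [div_le_iff₀ hδ0] at a1
    linarith
  have hεy : 4 + 2 * ε ≤ ε * y := by
    have a1 : (4 + 2 * ε) / ε ≤ y := by
      have : (0 : ℝ) ≤ (r + 2) / δ := by positivity
      linarith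
    rw [div_le_iff₀ hε] at a1
    linarith
  set w : ℕ := ⌈(1 + δ) * y⌉₊ + r with hw
  have hwl : (1 + δ) * y ≤ (w : ℝ) - r := by
    rw [hw]
    push_cast
    have := Nat.le_ceil ((1 + δ) * y)
    linarith
  have hwu : (w : ℝ) + 1 ≤ (1 + 2 * δ) * y := by
    rw [hw]
    push_cast
    have := (Nat.ceil_lt_add_one (by positivity : 0 ≤ (1 + δ) * y)).le
    nlinarith
  have hwn : (w : ℝ) ≤ δ / 2 * n := by nlinarith
  have hwn' : w ≤ n := by
    have : (w : ℝ) ≤ n := by nlinarith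
    exact_mod_cast this
  have hrw : r ≤ w := by rw [hw]; omega
  have hmain : m ≤ (n - w) * w.choose (r - 1) := by
    have a1 : (m : ℝ) ≤ (((n - w) * w.choose (r - 1) : ℕ) : ℝ) := by
      push_cast
      rw [Nat.cast_sub hwn']
      have a2 := Nat.pow_le_choose (α := ℝ) (r - 1) w
      have a3 : ((1 + δ) * y) ^ (r - 1) ≤ (((w + 1 - (r - 1) : ℕ)) : ℝ) ^ (r - 1) := by
        refine pow_le_pow_left₀ (by positivity) ?_ _
        rw [Nat.cast_sub (by omega), Nat.cast_sub (by omega)]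
        push_cast
        linarith
      have a4 : (1 + δ) * q ≤ (w.choose (r - 1) : ℝ) := by
        refine le_trans ?_ a2
        rw [← hP, le_div_iff₀ hP0]
        refine le_trans ?_ a3
        rw [mul_pow, hy]
        have a5 : 1 + δ ≤ (1 + δ) ^ (r - 1) := le_self_pow₀ (by linarith) (by omega)
        have a6 := mul_le_mul_of_nonneg_right a5 (by positivity : 0 ≤ P * q)
        linarith
      have a7 : (1 - δ / 2) * n ≤ (n : ℝ) - w := by linarith
      have a8 : ((1 - δ / 2) * n) * ((1 + δ) * q) ≤ ((n : ℝ) - w) * (w.choose (r - 1) : ℝ) :=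
        mul_le_mul a7 a4 (by positivity) (by nlinarith)
      refine le_trans ?_ a8
      rw [← hqn]
      have a9 : 1 ≤ (1 - δ / 2) * (1 + δ) := by nlinarith
      nlinarith [mul_le_mul_of_nonneg_right a9 (mul_pos hq0 hn0).le]
    exact_mod_cast a1
  have hf := up_fin (d := d) hr hrd hwn' hmain
  have hf' : (fval d r (d - 1) m n : ℝ) ≤
      d * (((r : ℝ) - 1) * ((w + 1).choose r : ℝ) + (w.choose (r - 1) : ℝ)) := by
    have : ((fval d r (d - 1) m n : ℕ) : ℝ) ≤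
        ((d * ((r - 1) * (w + 1).choose r + w.choose (r - 1)) : ℕ) : ℝ) := by exact_mod_cast hf
    push_cast [Nat.cast_sub (by omega : 1 ≤ r)] at this
    exact this
  refine hf'.trans ?_
  have hbq : base r q = ((r : ℝ) - 1) * y ^ r / r.factorial := by
    rw [hb]
    have b1 : y ^ r = y ^ (r - 1) * y := by
      rw [← pow_succ]
      congr 1
      omega
    have b2 : (r.factorial : ℝ) = r * P := by
      rw [hP]
      have : r.factorial = r * (r - 1).factorial := by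
        obtain ⟨s, rfl⟩ : ∃ s, r = s + 1 := ⟨r - 1, by omega⟩
        rw [Nat.factorial_succ, Nat.add_sub_cancel]
      rw [this]
      push_cast
      ring
    rw [b1, b2, hy]
    field_simp
  have hbpos : 0 ≤ base r q := by
    rw [hbq]
    have : (0 : ℝ) ≤ (r : ℝ) - 1 := by linarith
    positivity
  have c1 : ((w + 1).choose r : ℝ) ≤ ((1 + 2 * δ) * y) ^ r / r.factorial := by
    refine (Nat.choose_le_pow_div r (w + 1)).trans ?_
    refine div_le_div_of_nonneg_right (pow_le_pow_left₀ (by positivity) ?_ r) (by positivity)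
    push_cast
    exact hwu
  have c2 : (w.choose (r - 1) : ℝ) ≤ ((1 + 2 * δ) * y) ^ (r - 1) / P := by
    refine (Nat.choose_le_pow_div (r - 1) w).trans ?_
    rw [← hP]
    refine div_le_div_of_nonneg_right (pow_le_pow_left₀ (by positivity) ?_ _) (by positivity)
    linarith
  have c3 : ((r : ℝ) - 1) * ((w + 1).choose r : ℝ) ≤ (1 + 2 * δ) ^ r * base r q := by
    rw [hbq]
    have := mul_le_mul_of_nonneg_left c1 (by linarith : 0 ≤ (r : ℝ) - 1)
    rw [mul_pow] at this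
    refine this.trans (le_of_eq ?_)
    ring
  have c4 : (w.choose (r - 1) : ℝ) ≤ (1 + 2 * δ) ^ r * (2 / y * base r q) := by
    refine c2.trans ?_
    rw [mul_pow, hy, hb]
    have d1 : (1 + 2 * δ) ^ (r - 1) * (P * q) / P = (1 + 2 * δ) ^ (r - 1) * q := by field_simp
    have d2 : 2 / y * ((((r : ℝ) - 1) / r) * q * y) = (2 * (((r : ℝ) - 1) / r)) * q := by
      field_simp
    rw [d1, d2]
    have d3 : 1 ≤ 2 * (((r : ℝ) - 1) / r) := by
      rw [← mul_div_assoc, le_div_iff₀ (by linarith)]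
      linarith
    have d4 : (1 + 2 * δ) ^ (r - 1) ≤ (1 + 2 * δ) ^ r :=
      pow_le_pow_right₀ (by linarith) (by omega)
    refine mul_le_mul d4 ?_ hq0.le (by positivity)
    nlinarith
  have c5 : ((r : ℝ) - 1) * ((w + 1).choose r : ℝ) + (w.choose (r - 1) : ℝ) ≤
      (1 + ε) * base r q := by
    have d1 : (1 + 2 * δ) ^ r * base r q + (1 + 2 * δ) ^ r * (2 / y * base r q) =
        (1 + 2 * δ) ^ r * ((1 + 2 / y) * base r q) := by ring
    have d2 : (1 + 2 * δ) ^ r * ((1 + 2 / y) * base r q) ≤ (1 + ε / 2) * ((1 + 2 / y) * base r q) :=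
      mul_le_mul_of_nonneg_right hδ (by positivity)
    have d3 : (1 + ε / 2) * (1 + 2 / y) ≤ 1 + ε := by
      have e1 : (1 + ε / 2) * (1 + 2 / y) = 1 + ε / 2 + (2 + ε) / y := by field_simp
      rw [e1]
      have e2 : (2 + ε) / y ≤ ε / 2 := by
        rw [div_le_iff₀ hy0]
        linarith
      linarith
    have d4 := mul_le_mul_of_nonneg_right d3 hbpos
    linarith
  have c6 := mul_le_mul_of_nonneg_left c5 (Nat.cast_nonneg d : (0 : ℝ) ≤ d)
  refine c6.trans (le_of_eq ?_)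
  ring

end Pool.Agent.H9.SC
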