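import Pool.Agent.H9.SC.Dsj
import Pool.Agent.H9.SC.Cone

/-! # SC.MetB

The number of edges met by a `k`-flat, `k + r ≤ d`.

PROOF. `t := (k+1) d + 1`, `t' := (k+2) d + 1`, `M := F.filter (MeetsIdx v L)`. The members of `M` that contain an index `i` with `v i ∈ L`: at most `(k+1) Δ` (`verts_on_flat`). The others `M'`: by `gen_disj` (for `Gen d k t r`) and `exists_hit` there is `T` with `T.card ≤ t r` that meets all members of `M'`. Fix `u ∈ T`, `M_u := {e ∈ M' | u ∈ e}`; if `v u ∈ L` it is empty; otherwise `cone` gives `L'` of dimension `k + 1` that meets all `e.erase u`; these have `r - 1 ≥ 1` elements, so `gen_disj` (for `Gen d (k+1) t' (r-1)`) and `exists_hit` for the family of the `e.erase u` give `T_u` with `T_u.card ≤ t' (r-1)`, such that every `e ∈ M_u` contains some `u' ∈ T_u`, `u' ≠ u`: so `M_u.card ≤ t' (r-1) Δ₂`. -/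

set_option autoImplicit false

open Module Finset

namespace Pool.Agent.H9.SC

open Pool.Agent.H68

open Classical in
theorem met_bound {d k r n : ℕ} (hr : 2 ≤ r) (hkr : k + r ≤ d) (v : Fin n → Pt d) (hv : GP v)
    (h1 : Gen d k ((k + 1) * d + 1) r v) (h2 : Gen d (k + 1) ((k + 2) * d + 1) (r - 1) v)
    (F : Finset (Finset (Fin n))) (hF : ∀ e ∈ F, e.card = r) (Δ Δ₂ : ℕ)
    (hΔ : ∀ u, (F.filter fun e => u ∈ e).card ≤ Δ)
    (hΔ₂ : ∀ u v, u ≠ v → (F.filter fun e => u ∈ e ∧ v ∈ e).card ≤ Δ₂)
    (L : AffineSubspace ℝ (Pt d)) (hL : IsFlat k L) :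
    (F.filter fun e => MeetsIdx v L e).card ≤
      (k + 1) * Δ + ((k + 1) * d + 1) * r * (((k + 2) * d + 1) * (r - 1) * Δ₂) := by
  have hd : 1 ≤ d := by omega
  set S : Finset (Fin n) := univ.filter fun i : Fin n => v i ∈ L with hS
  have hSc : S.card ≤ k + 1 := verts_on_flat (by omega) v hv L hL
  set M2 : Finset (Finset (Fin n)) :=
    F.filter fun e => MeetsIdx v L e ∧ ∀ i ∈ e, v i ∉ L with hM2
  have hsplit : (F.filter fun e => MeetsIdx v L e) ⊆
      (S.biUnion fun i => F.filter fun e => i ∈ e) ∪ M2 := by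
    intro e he
    rw [mem_filter] at he
    rw [mem_union]
    by_cases hc : ∀ i ∈ e, v i ∉ L
    · right
      rw [hM2, mem_filter]
      exact ⟨he.1, he.2, hc⟩
    · left
      push Not at hc
      obtain ⟨i, hi, hiL⟩ := hc
      rw [mem_biUnion]
      exact ⟨i, by rw [hS, mem_filter]; exact ⟨mem_univ _, hiL⟩, by rw [mem_filter]; exact ⟨he.1, hi⟩⟩
  have hc1 : (S.biUnion fun i => F.filter fun e => i ∈ e).card ≤ (k + 1) * Δ := by
    refine card_biUnion_le.trans ?_
    refine (sum_le_card_nsmul _ _ Δ fun i _ => hΔ i).trans ?_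
    rw [smul_eq_mul]
    exact Nat.mul_le_mul_right _ hSc
  have hc2 : M2.card ≤ ((k + 1) * d + 1) * r * (((k + 2) * d + 1) * (r - 1) * Δ₂) := by
    have hM2r : ∀ e ∈ M2, e.card = r := fun e he => hF e (mem_filter.1 he).1
    obtain ⟨T, hT, hTh⟩ := exists_hit M2 r ((k + 1) * d + 1) hM2r (by omega) (fun ℬ hℬ hdis =>
      gen_disj hd v hv h1 L hL ℬ (fun e he => hM2r e (hℬ he))
        (fun e he => (mem_filter.1 (hℬ he)).2.1) hdis (by omega))
    have hcov : M2 ⊆ T.biUnion fun u => M2.filter fun e => u ∈ e := by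
      intro e he
      obtain ⟨u, hue, huT⟩ := Finset.not_disjoint_iff.1 (hTh e he)
      rw [mem_biUnion]
      exact ⟨u, huT, by rw [mem_filter]; exact ⟨he, hue⟩⟩
    have hone : ∀ u ∈ T, (M2.filter fun e => u ∈ e).card ≤ ((k + 2) * d + 1) * (r - 1) * Δ₂ := by
      intro u _
      by_cases hu : v u ∈ L
      · have hemp : (M2.filter fun e => u ∈ e) = ∅ := by
          rw [filter_eq_empty_iff]
          intro e he hue
          exact (mem_filter.1 he).2.2 u hue hu
        rw [hemp, card_empty]
        exact Nat.zero_le _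
      · obtain ⟨L', hL', hmeet⟩ := cone hd v hv L hL u hu
        have hAr : ∀ e ∈ (M2.filter fun e => u ∈ e).image (fun e => e.erase u), e.card = r - 1 := by
          intro e he
          obtain ⟨e', he', rfl⟩ := mem_image.1 he
          rw [mem_filter] at he'
          rw [card_erase_of_mem he'.2, hM2r e' he'.1]
        have hAm : ∀ e ∈ (M2.filter fun e => u ∈ e).image (fun e => e.erase u), MeetsIdx v L' e := by
          intro e he
          obtain ⟨e', he', rfl⟩ := mem_image.1 he
          rw [mem_filter] at he'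
          exact hmeet e' he'.2 (mem_filter.1 he'.1).2.1
        obtain ⟨Tu, hTu, hTuh⟩ := exists_hit ((M2.filter fun e => u ∈ e).image (fun e => e.erase u))
          (r - 1) ((k + 2) * d + 1) hAr (by omega) (fun ℬ hℬ hdis =>
          gen_disj hd v hv h2 L' hL' ℬ (fun e he => hAr e (hℬ he)) (fun e he => hAm e (hℬ he)) hdis
            (by omega))
        have hcov2 : (M2.filter fun e => u ∈ e) ⊆
            (Tu.filter fun x => u ≠ x).biUnion fun x => F.filter fun e => u ∈ e ∧ x ∈ e := by
          intro e he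
          have h3 := hTuh (e.erase u) (mem_image_of_mem _ he)
          obtain ⟨x, hxe, hxT⟩ := Finset.not_disjoint_iff.1 h3
          rw [mem_erase] at hxe
          rw [mem_filter] at he
          rw [mem_biUnion]
          refine ⟨x, by rw [mem_filter]; exact ⟨hxT, hxe.1.symm⟩, ?_⟩
          rw [mem_filter]
          exact ⟨(mem_filter.1 he.1).1, he.2, hxe.2⟩
        refine (card_le_card hcov2).trans (card_biUnion_le.trans ?_)
        refine (sum_le_card_nsmul _ _ Δ₂ fun x hx => hΔ₂ u x (mem_filter.1 hx).2).trans ?_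
        rw [smul_eq_mul]
        exact Nat.mul_le_mul_right _ ((card_filter_le _ _).trans hTu)
    refine (card_le_card hcov).trans (card_biUnion_le.trans ?_)
    refine (sum_le_card_nsmul _ _ _ hone).trans ?_
    rw [smul_eq_mul]
    exact Nat.mul_le_mul_right _ hT
  exact (card_le_card hsplit).trans ((card_union_le _ _).trans (Nat.add_le_add hc1 hc2))

end Pool.Agent.H9.SC
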