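import Pool.Agent.H9.SC.Gre
import Pool.Agent.H9.SC.Cfg
import Pool.Agent.H9.SC.MetB

/-! # SC.UpB

The upper bound for `k + r ≤ d`.

PROOF. Let `M := ((k+1) d + 1) r (((k+2) d + 1) (r-1))`, `ε' := min (ε/2) (ε/(2 M + 1))`-like so that `(k+1) (1+ε') r + M ε' ≤ (1+ε) (k+1) r` (for instance `ε' = ε / (2 + M)`: `(k+1) r ε' + M ε' ≤ ε (k+1) r` as `(k+1) r ≥ 1`). `greedy_hyp r hr ε'`, `exists_cfg`, `mkHyp` (H68/GeomHyp), `fval_le`, `mkHyp_numMet`, `met_bound` with `Δ, Δ₂` the floors (the hypotheses are real inequalities for naturals; use `Nat.le_floor`). -/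

set_option autoImplicit false

open Module Finset

namespace Pool.Agent.H9.SC

open Pool.Agent.H68

theorem upper_B {d k r : ℕ} (hr : 2 ≤ r) (hkr : k + r ≤ d) (ε : ℝ) (hε : 0 < ε) : ∃ K : ℝ, 0 < K ∧
    ∀ n m : ℕ, 1 ≤ m → K * n ≤ m → K * m ≤ (n : ℝ) ^ r →
      (fval d r k m n : ℝ) ≤ (1 + ε) * (((k : ℝ) + 1) * r * ((m : ℝ) / n)) := by
  classical
  set M : ℕ := ((k + 1) * d + 1) * r * (((k + 2) * d + 1) * (r - 1)) with hM
  set ε' : ℝ := ε / (2 + M) with hε'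
  have hM0 : (0 : ℝ) ≤ M := Nat.cast_nonneg M
  have hε'0 : 0 < ε' := by positivity
  have hεM : ε' * (2 + M) = ε := by
    rw [hε']
    field_simp
  obtain ⟨K, hK0, hK⟩ := greedy_hyp r hr ε' hε'0
  refine ⟨K, hK0, fun n m hm h1 h2 => ?_⟩
  obtain ⟨F, hF, hFm, hdeg, hcod⟩ := hK n m hm h1 h2
  obtain ⟨v, hv, hg1, hg2⟩ := exists_cfg (d := d) (k := k) hr hkr n
  set q : ℝ := (m : ℝ) / n with hq
  have hq0 : 0 ≤ q := by positivity
  set Δ : ℕ := ⌊(1 + ε') * (r * q)⌋₊ with hΔ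
  set Δ₂ : ℕ := ⌊ε' * q⌋₊ with hΔ₂
  have hT : fval d r k m n ≤ (k + 1) * Δ + ((k + 1) * d + 1) * r * (((k + 2) * d + 1) * (r - 1) * Δ₂) := by
    have hd : 1 ≤ d := by omega
    have hrd : r ≤ d + 1 := by omega
    refine fval_le (mkHyp hd hrd v hv F hF) (mkHyp_card_V ..) ((mkHyp_card_E ..).trans hFm) ?_
    intro L hL
    rw [mkHyp_numMet]
    refine met_bound hr hkr v hv hg1 hg2 F hF Δ Δ₂ (fun u => ?_) (fun u w huw => ?_) L hL
    · exact Nat.le_floor (hdeg u)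
    · exact Nat.le_floor (hcod u w huw)
  have hT' : (fval d r k m n : ℝ) ≤ (k + 1) * Δ + M * Δ₂ := by
    have h3 : (k + 1) * Δ + ((k + 1) * d + 1) * r * (((k + 2) * d + 1) * (r - 1) * Δ₂) =
        (k + 1) * Δ + M * Δ₂ := by
      rw [hM]
      ring
    rw [h3] at hT
    exact_mod_cast hT
  have hΔr : (Δ : ℝ) ≤ (1 + ε') * (r * q) := Nat.floor_le (by positivity)
  have hΔ₂r : (Δ₂ : ℝ) ≤ ε' * q := Nat.floor_le (by positivity)
  have hk1 : (0 : ℝ) ≤ (k : ℝ) + 1 := by positivity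
  have hs : (1 : ℝ) ≤ ((k : ℝ) + 1) * r := by
    have h4 : (1 : ℝ) ≤ r := by exact_mod_cast (by omega : 1 ≤ r)
    have h5 : (1 : ℝ) ≤ (k : ℝ) + 1 := by linarith [(Nat.cast_nonneg k : (0 : ℝ) ≤ k)]
    nlinarith
  set s : ℝ := ((k : ℝ) + 1) * r with hs'
  calc (fval d r k m n : ℝ) ≤ (k + 1) * Δ + M * Δ₂ := hT'
    _ ≤ (k + 1) * ((1 + ε') * (r * q)) + M * (ε' * q) := by gcongr
    _ = ((1 + ε') * s + M * ε') * q := by rw [hs']; ring
    _ ≤ ((1 + ε) * s) * q := by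
        apply mul_le_mul_of_nonneg_right _ hq0
        have h6 : M * ε' ≤ M * ε' * s := le_mul_of_one_le_right (by positivity) hs
        have h7 : ε * s = 2 * (ε' * s) + M * ε' * s := by rw [← hεM]; ring
        have h8 : 0 ≤ ε' * s := by positivity
        nlinarith
    _ = (1 + ε) * (s * q) := by ring

end Pool.Agent.H9.SC
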