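import Pool.Agent.H9.SC.LowA
import Pool.Agent.H9.SC.UpA
import Pool.Agent.H9.SC.UpB
import Pool.Agent.H9.SC.LowB

/-! # SC.Main

The final theorem.

PROOF. Take the maximum of the four constants `K` (for clause (2) the finitely many `k ≤ d`: `Finset.sup'` or induction; `K * n ≤ m` and `K * m ≤ n^r` are monotone in `K`). `base` unfolds to the displayed formula (`ring`-type rearrangement). -/

set_option autoImplicit false

open Module Finset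

namespace Pool.Agent.H9.SC

open Pool.Agent.H68

private def Main_Q (r : ℕ) (K : ℝ) (Q : ℕ → ℕ → Prop) : Prop :=
  ∀ n m : ℕ, 1 ≤ m → K * n ≤ m → K * m ≤ (n : ℝ) ^ r → Q n m

private lemma Main_mono {r : ℕ} {K K' : ℝ} (h : K ≤ K') {Q : ℕ → ℕ → Prop} (hQ : Main_Q r K Q) :
    Main_Q r K' Q := by
  intro n m hm h1 h2
  refine hQ n m hm (le_trans ?_ h1) (le_trans ?_ h2)
  · exact mul_le_mul_of_nonneg_right h (Nat.cast_nonneg n)
  · exact mul_le_mul_of_nonneg_right h (Nat.cast_nonneg m)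

private lemma Main_A (d r : ℕ) (hr : 2 ≤ r) (ε : ℝ) (hε : 0 < ε) : ∃ K : ℝ, 0 < K ∧
    Main_Q r K fun n m => r ≤ d + 1 →
      (1 - ε) * (d * base r ((m : ℝ) / n)) ≤ (fval d r (d - 1) m n : ℝ) ∧
      (fval d r (d - 1) m n : ℝ) ≤ (1 + ε) * (d * base r ((m : ℝ) / n)) := by
  by_cases hrd : r ≤ d + 1
  · obtain ⟨K1, k1, h1⟩ := lower_A (d := d) hr hrd ε hε
    obtain ⟨K2, k2, h2⟩ := upper_A (d := d) hr hrd ε hε
    refine ⟨K1 + K2, by positivity, ?_⟩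
    have a1 := Main_mono (r := r) (by linarith : K1 ≤ K1 + K2) h1
    have a2 := Main_mono (r := r) (by linarith : K2 ≤ K1 + K2) h2
    exact fun n m hm g1 g2 _ => ⟨a1 n m hm g1 g2, a2 n m hm g1 g2⟩
  · exact ⟨1, one_pos, fun n m _ _ _ h => absurd h hrd⟩

private lemma Main_B (d r : ℕ) (hr : 2 ≤ r) (ε : ℝ) (hε : 0 < ε) (k : ℕ) : ∃ K : ℝ, 0 < K ∧
    Main_Q r K fun n m => k + r ≤ d →
      (1 - ε) * (((k : ℝ) + 1) * r * ((m : ℝ) / n)) ≤ (fval d r k m n : ℝ) ∧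
      (fval d r k m n : ℝ) ≤ (1 + ε) * (((k : ℝ) + 1) * r * ((m : ℝ) / n)) := by
  by_cases hkr : k + r ≤ d
  · obtain ⟨K1, k1, h1⟩ := lower_B (d := d) (k := k) (by omega) hr (by omega) (by omega) ε hε
    obtain ⟨K2, k2, h2⟩ := upper_B (d := d) (k := k) hr hkr ε hε
    refine ⟨K1 + K2, by positivity, ?_⟩
    have a1 := Main_mono (r := r) (by linarith : K1 ≤ K1 + K2) h1
    have a2 := Main_mono (r := r) (by linarith : K2 ≤ K1 + K2) h2
    exact fun n m hm g1 g2 _ => ⟨a1 n m hm g1 g2, a2 n m hm g1 g2⟩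
  · exact ⟨1, one_pos, fun n m _ _ _ h => absurd h hkr⟩

private lemma Main_base (d r : ℕ) (q : ℝ) : d * base r q =
    d * (((r : ℝ) - 1) / r) * ((r - 1).factorial : ℝ) ^ (1 / ((r : ℝ) - 1)) *
      q ^ ((r : ℝ) / ((r : ℝ) - 1)) := by
  unfold base
  ring

theorem sharp (d r : ℕ) (hr : 2 ≤ r) (ε : ℝ) (hε : 0 < ε) : ∃ K : ℝ, 0 < K ∧ ∀ n m : ℕ, 1 ≤ m →
    K * n ≤ m → K * m ≤ (n : ℝ) ^ r →
      (r ≤ d + 1 →
        (1 - ε) * (d * (((r : ℝ) - 1) / r) * ((r - 1).factorial : ℝ) ^ (1 / ((r : ℝ) - 1)) *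
            ((m : ℝ) / n) ^ ((r : ℝ) / ((r : ℝ) - 1))) ≤ (fval d r (d - 1) m n : ℝ) ∧
        (fval d r (d - 1) m n : ℝ) ≤
          (1 + ε) * (d * (((r : ℝ) - 1) / r) * ((r - 1).factorial : ℝ) ^ (1 / ((r : ℝ) - 1)) *
            ((m : ℝ) / n) ^ ((r : ℝ) / ((r : ℝ) - 1)))) ∧
      (∀ k : ℕ, k + r ≤ d →
        (1 - ε) * (((k : ℝ) + 1) * r * ((m : ℝ) / n)) ≤ (fval d r k m n : ℝ) ∧
        (fval d r k m n : ℝ) ≤ (1 + ε) * (((k : ℝ) + 1) * r * ((m : ℝ) / n))) := by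
  obtain ⟨K0, k0, h0⟩ := Main_A d r hr ε hε
  choose Kf kf hf using Main_B d r hr ε hε
  refine ⟨K0 + ∑ k ∈ range (d + 1), Kf k, ?_, ?_⟩
  · have : 0 ≤ ∑ k ∈ range (d + 1), Kf k := Finset.sum_nonneg fun k _ => (kf k).le
    linarith
  intro n m hm g1 g2
  refine ⟨fun hrd => ?_, fun k hk => ?_⟩
  · have a1 := Main_mono (K' := K0 + ∑ k ∈ range (d + 1), Kf k) (by
      have : 0 ≤ ∑ k ∈ range (d + 1), Kf k := Finset.sum_nonneg fun k _ => (kf k).le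
      linarith) h0
    have a2 := a1 n m hm g1 g2 hrd
    rw [Main_base] at a2
    exact a2
  · have a1 := Main_mono (K' := K0 + ∑ k ∈ range (d + 1), Kf k) (by
      have : Kf k ≤ ∑ k ∈ range (d + 1), Kf k :=
        Finset.single_le_sum (f := Kf) (fun k _ => (kf k).le) (Finset.mem_range.2 (by omega))
      linarith) (hf k)
    exact a1 n m hm g1 g2 hk

end Pool.Agent.H9.SC
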