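import Mathlib
import Pool.Agent.H9.SC.Main

/-!
The asymptotic value of `f^k_{d,r}(m,n)`, constant included, for `n ≪ m ≪ n^r`: hyperplanes
(`k = d - 1`) and flats of dimension `k ≤ d - r`.
-/

namespace Pool.Agent.H9.SC.HandIn

open Pool.Agent.H68

theorem result (d r : ℕ) (hr : 2 ≤ r) (ε : ℝ) (hε : 0 < ε) :
    ∃ K : ℝ, 0 < K ∧ ∀ n m : ℕ, 1 ≤ m → K * n ≤ m → K * m ≤ (n : ℝ) ^ r →
      (r ≤ d + 1 →
        (1 - ε) * (d * (((r : ℝ) - 1) / r) * ((r - 1).factorial : ℝ) ^ (1 / ((r : ℝ) - 1)) *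
            ((m : ℝ) / n) ^ ((r : ℝ) / ((r : ℝ) - 1))) ≤ (fval d r (d - 1) m n : ℝ) ∧
        (fval d r (d - 1) m n : ℝ) ≤
          (1 + ε) * (d * (((r : ℝ) - 1) / r) * ((r - 1).factorial : ℝ) ^ (1 / ((r : ℝ) - 1)) *
            ((m : ℝ) / n) ^ ((r : ℝ) / ((r : ℝ) - 1)))) ∧
      (∀ k : ℕ, k + r ≤ d →
        (1 - ε) * (((k : ℝ) + 1) * r * ((m : ℝ) / n)) ≤ (fval d r k m n : ℝ) ∧
        (fval d r k m n : ℝ) ≤ (1 + ε) * (((k : ℝ) + 1) * r * ((m : ℝ) / n))) :=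
  Pool.Agent.H9.SC.sharp d r hr ε hε

end Pool.Agent.H9.SC.HandIn
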