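import Pool.Agent.H68.Real
import Pool.Agent.H68.Hyper

/-! # SC.Order

Order of magnitude for hyperplanes (for all `m` and `n`). -/

set_option autoImplicit false

namespace Pool.Agent.H9.SC

open Pool.Agent.H68

theorem order_hyper (d r : ℕ) (hr : 2 ≤ r) (hrd : r ≤ d + 1) :
    ∃ c C : ℝ, 0 < c ∧ 0 < C ∧ ∀ n m : ℕ, 1 ≤ m → m ≤ n.choose r →
      c * max 1 (((m : ℝ) / n) ^ ((r : ℝ) / ((r : ℝ) - 1))) ≤ (fval d r (d - 1) m n : ℝ) ∧
      (fval d r (d - 1) m n : ℝ) ≤ C * max 1 (((m : ℝ) / n) ^ ((r : ℝ) / ((r : ℝ) - 1))) := by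
  obtain ⟨d, rfl⟩ : ∃ d', d = d' + 1 := ⟨d - 1, by omega⟩
  obtain ⟨r, rfl⟩ : ∃ r', r = r' + 1 := ⟨r - 1, by omega⟩
  have hr1 : 1 ≤ r := by omega
  have hr0 : (0 : ℝ) < r := by exact_mod_cast hr1
  have hexp : (((r + 1 : ℕ) : ℝ) / (((r + 1 : ℕ) : ℝ) - 1)) = 1 + 1 / (r : ℝ) := by
    push_cast
    rw [add_sub_cancel_right]
    field_simp
  rw [hexp]
  have hd1 : d + 1 - 1 = d := by omega
  rw [hd1]
  obtain ⟨C, hC, h⟩ := fval_upper_real (d := d + 1) (k := d) (r := r + 1) (s := 1) (by omega)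
    le_rfl (by omega) hrd (by omega)
  refine ⟨1 / 4, 2 * C, by norm_num, by positivity, ?_⟩
  intro n m hm1 hm
  have hn : 1 ≤ n := by
    by_contra h
    have : n = 0 := by omega
    subst this
    rw [Nat.choose_eq_zero_of_lt (by omega)] at hm
    omega
  have hn0 : (0 : ℝ) < n := by exact_mod_cast hn
  have hm0 : (0 : ℝ) < m := by exact_mod_cast hm1
  set q : ℝ := (m : ℝ) / n with hq
  have hq0 : 0 < q := by positivity
  constructor
  · -- lower bound
    have h1 := fval_hyper_lower (d := d) hr1 (by omega) hm1 hm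
    have h2 : (1 : ℝ) ≤ (fval (d + 1) (r + 1) d m n : ℝ) :=
      (le_max_left _ _).trans (fval_lower_real (k := d) (by omega) (by omega) hrd (by omega) hm1 hm)
    have h3 : (m : ℝ) / (2 * n) = (1 / 2) * q := by rw [hq]; field_simp
    rw [h3, Real.mul_rpow (by norm_num) hq0.le] at h1
    have h4 : (1 / 4 : ℝ) ≤ (1 / 2 : ℝ) ^ (1 + 1 / (r : ℝ)) := by
      have : (1 / 4 : ℝ) = (1 / 2 : ℝ) ^ (2 : ℝ) := by
        rw [Real.rpow_two]; norm_num
      rw [this]
      apply Real.rpow_le_rpow_of_exponent_ge (by norm_num) (by norm_num)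
      have : 1 / (r : ℝ) ≤ 1 := by
        rw [div_le_one hr0]; exact_mod_cast hr1
      linarith
    have h5 : (0 : ℝ) ≤ q ^ (1 + 1 / (r : ℝ)) := (Real.rpow_pos_of_pos hq0 _).le
    rw [mul_max_of_nonneg _ _ (by norm_num : (0 : ℝ) ≤ 1 / 4)]
    apply max_le
    · linarith
    · calc (1 / 4 : ℝ) * q ^ (1 + 1 / (r : ℝ)) ≤ (1 / 2 : ℝ) ^ (1 + 1 / (r : ℝ)) *
            q ^ (1 + 1 / (r : ℝ)) := by gcongr
        _ ≤ _ := h1
  · -- upper bound
    rcases le_total q 1 with hq1 | hq1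
    · have h1 := h n m hm1 hm 1 le_rfl (by
        rw [one_pow, mul_one, pow_one]
        rw [hq, div_le_one hn0] at hq1
        exact hq1)
      rw [← hq] at h1
      have a1 := le_max_left (1 : ℝ) (q ^ (1 + 1 / (r : ℝ)))
      calc (fval (d + 1) (r + 1) d m n : ℝ) ≤ C * (q * 1 + 1) := h1
        _ ≤ C * (1 * 1 + 1) := by gcongr
        _ = 2 * C * 1 := by ring
        _ ≤ 2 * C * max 1 (q ^ (1 + 1 / (r : ℝ))) := by gcongr
    · set x : ℝ := q ^ (1 / (r : ℝ)) with hx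
      have hx1 : 1 ≤ x := Real.one_le_rpow hq1 (by positivity)
      have hxr : x ^ r = q := by
        rw [hx, one_div]
        exact Real.rpow_inv_natCast_pow hq0.le (by omega)
      have h1 := h n m hm1 hm x hx1 (by
        have : r + 1 - 1 = r := by omega
        rw [this, hxr, hq, pow_one]
        field_simp
        exact le_rfl)
      rw [← hq] at h1
      have a2 := le_max_right (1 : ℝ) (q ^ (1 + 1 / (r : ℝ)))
      have hqx : q ^ (1 + 1 / (r : ℝ)) = q * x := by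
        rw [Real.rpow_add hq0, Real.rpow_one]
      have h2 : 1 ≤ q * x := by nlinarith
      calc (fval (d + 1) (r + 1) d m n : ℝ) ≤ C * (q * x + 1) := h1
        _ ≤ C * (q * x + q * x) := by gcongr
        _ = 2 * C * q ^ (1 + 1 / (r : ℝ)) := by rw [hqx]; ring
        _ ≤ 2 * C * max 1 (q ^ (1 + 1 / (r : ℝ))) := by gcongr

end Pool.Agent.H9.SC
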