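import Pool.Agent.H9.SC.Pes

/-! # SC.Loc

The sum over the local edges.

PROOF. `V = G.V`, `n = V.card`, `loc` = the filter. For `x ∈ V` let `S x := insert x (V.filter fun y => pe V {x, y} < T)`, `(S x).card ≤ s` (`hball`), `E x := loc.filter (x ∈ ·)`; every `e ∈ E x` is a subset of `S x`, has `x ∈ e` and `r` elements: `pe_sum` for `S x`, `E x`: with `C x := (n - (S x).card).choose (d-1) ≥ C := (n - s).choose (d-1)`:
`C x * ((r-1)! (U * #E x)) ≤ (r-1)! ∑_(e ∈ E x) pe V e + C x * U^r`. This implies the same with `C` in place of `C x`: if `(r-1)! U #E x ≤ U^r` it is trivial, otherwise (integers) `C ((r-1)! U #E x - U^r) ≤ C x (..) ≤ (r-1)! ∑`.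
Sum over `x ∈ V`: `∑_x #E x = r #loc` (`sum_deg_eq`-like: swap), `∑_x ∑_(e ∈ E x) pe = r ∑_(e ∈ loc) pe ≤ r ∑_(e ∈ E) pe`, `r! = r (r-1)!`.
`far_sum`: an edge that is not in `loc` has `x ≠ y` in `e` with `T ≤ pe V {x, y} ≤ pe V e` (a hyperplane that meets the segment meets the simplex: `convexHull_mono`). -/

set_option autoImplicit false

open Module Finset

namespace Pool.Agent.H9.SC

open Pool.Agent.H68

private lemma Loc_mono {C Cx A B W : ℕ} (hC : C ≤ Cx) (h : Cx * A ≤ B + Cx * W) :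
    C * A ≤ B + C * W := by
  rcases le_total A W with hAW | hAW
  · exact (Nat.mul_le_mul_left C hAW).trans (Nat.le_add_left _ _)
  · obtain ⟨a, rfl⟩ := Nat.exists_eq_add_of_le hAW
    have h1 : Cx * a ≤ B := by
      rw [Nat.mul_add] at h
      omega
    have h2 : C * a ≤ B := (Nat.mul_le_mul_right a hC).trans h1
    rw [Nat.mul_add]
    omega

open Classical in
private lemma Loc_swap {d : ℕ} (V : Finset (Pt d)) (𝒜 : Finset (Finset (Pt d))) (r : ℕ)
    (h1 : ∀ e ∈ 𝒜, e ⊆ V) (h2 : ∀ e ∈ 𝒜, e.card = r) (g : Finset (Pt d) → ℕ) :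
    ∑ x ∈ V, ∑ e ∈ 𝒜.filter (fun e => x ∈ e), g e = r * ∑ e ∈ 𝒜, g e := by
  simp only [sum_filter]
  rw [sum_comm, mul_sum]
  refine sum_congr rfl fun e he => ?_
  rw [← sum_filter, sum_const, smul_eq_mul, filter_mem_eq_inter, inter_eq_right.2 (h1 e he),
    h2 e he]

open Classical in
theorem loc_sum {d r : ℕ} (hd : 1 ≤ d) (hr : 1 ≤ r) (G : GeomHyp d r) (hV : GPs G.V) (T s : ℕ)
    (hball : ∀ x ∈ G.V, (G.V.filter fun y => pe G.V {x, y} < T).card + 1 ≤ s) (U : ℕ) :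
    ((G.V.card - s).choose (d - 1)) * (r.factorial *
        (U * (G.E.filter fun e => ∀ x ∈ e, ∀ y ∈ e, x ≠ y → pe G.V {x, y} < T).card)) ≤
      r.factorial * (∑ e ∈ G.E, pe G.V e) +
        ((G.V.card - s).choose (d - 1)) * (G.V.card * U ^ r) := by
  obtain ⟨C, hC⟩ : ∃ C, C = (G.V.card - s).choose (d - 1) := ⟨_, rfl⟩
  obtain ⟨loc, hloc⟩ : ∃ loc : Finset (Finset (Pt d)),
      loc = G.E.filter fun e => ∀ x ∈ e, ∀ y ∈ e, x ≠ y → pe G.V {x, y} < T := ⟨_, rfl⟩
  rw [← hC, ← hloc]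
  have hmem : ∀ e, e ∈ loc ↔ e ∈ G.E ∧ ∀ x ∈ e, ∀ y ∈ e, x ≠ y → pe G.V {x, y} < T := by
    intro e
    subst hloc
    simp only [mem_filter]
  have hlocE : ∀ e ∈ loc, e ∈ G.E := fun e he => ((hmem e).1 he).1
  have hlocT : ∀ e ∈ loc, ∀ x ∈ e, ∀ y ∈ e, x ≠ y → pe G.V {x, y} < T := fun e he =>
    ((hmem e).1 he).2
  have hlocV : ∀ e ∈ loc, e ⊆ G.V := fun e he => G.subV e (hlocE e he)
  have hlocr : ∀ e ∈ loc, e.card = r := fun e he => G.card_eq e (hlocE e he)
  have key : ∀ x ∈ G.V, C * ((r - 1).factorial * (U * (loc.filter fun e => x ∈ e).card)) ≤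
      (r - 1).factorial * (∑ e ∈ loc.filter (fun e => x ∈ e), pe G.V e) + C * U ^ r := by
    intro x hx
    obtain ⟨S, hS⟩ : ∃ S : Finset (Pt d),
        S = insert x (G.V.filter fun y => pe G.V {x, y} < T) := ⟨_, rfl⟩
    have hSV : S ⊆ G.V := by
      rw [hS]
      exact insert_subset hx (filter_subset _ _)
    have hSc : S.card ≤ s := by
      rw [hS]
      exact (card_insert_le _ _).trans (hball x hx)
    have h1 := pe_sum hd hr G.V hV S hSV x (by rw [hS]; exact mem_insert_self _ _)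
      (loc.filter fun e => x ∈ e) (fun e he => ?_) U
    · refine Loc_mono ?_ h1
      rw [hC]
      exact Nat.choose_le_choose (d - 1) (by omega)
    · obtain ⟨he1, he2⟩ := mem_filter.1 he
      refine ⟨fun y hy => ?_, he2, hlocr e he1⟩
      rw [hS, mem_insert]
      by_cases hxy : y = x
      · exact Or.inl hxy
      · exact Or.inr (mem_filter.2 ⟨hlocV e he1 hy, hlocT e he1 x he2 y hy fun h => hxy h.symm⟩)
  have hsum := sum_le_sum key
  rw [sum_add_distrib, ← mul_sum, ← mul_sum, ← mul_sum, ← mul_sum, sum_const, smul_eq_mul,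
    Loc_swap G.V loc r hlocV hlocr] at hsum
  have h2 : ∑ x ∈ G.V, (loc.filter fun e => x ∈ e).card = r * loc.card := by
    have := Loc_swap G.V loc r hlocV hlocr (fun _ => 1)
    simpa using this
  rw [h2] at hsum
  have h3 : ∑ e ∈ loc, pe G.V e ≤ ∑ e ∈ G.E, pe G.V e :=
    sum_le_sum_of_subset fun e he => hlocE e he
  have hf : r.factorial = r * (r - 1).factorial := by
    obtain ⟨q, rfl⟩ : ∃ q, r = q + 1 := ⟨r - 1, by omega⟩
    rw [Nat.factorial_succ, Nat.add_sub_cancel]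
  have h4 : (r - 1).factorial * (r * ∑ e ∈ loc, pe G.V e) ≤
      r.factorial * ∑ e ∈ G.E, pe G.V e := by
    rw [hf, ← mul_assoc, mul_comm (r - 1).factorial r]
    exact Nat.mul_le_mul_left _ h3
  have h5 : C * (r.factorial * (U * loc.card)) =
      C * ((r - 1).factorial * (U * (r * loc.card))) := by
    rw [hf]
    ring
  have h6 : C * (G.V.card * U ^ r) = G.V.card * (C * U ^ r) := by ring
  rw [h5, h6]
  exact hsum.trans (Nat.add_le_add_right h4 _)

open Classical in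
theorem far_sum {d r : ℕ} (G : GeomHyp d r) (T : ℕ) :
    T * (G.E.card - (G.E.filter fun e => ∀ x ∈ e, ∀ y ∈ e, x ≠ y → pe G.V {x, y} < T).card) ≤
      ∑ e ∈ G.E, pe G.V e := by
  obtain ⟨loc, hloc⟩ : ∃ loc : Finset (Finset (Pt d)),
      loc = G.E.filter fun e => ∀ x ∈ e, ∀ y ∈ e, x ≠ y → pe G.V {x, y} < T := ⟨_, rfl⟩
  rw [← hloc]
  have hmem : ∀ e, e ∈ loc ↔ e ∈ G.E ∧ ∀ x ∈ e, ∀ y ∈ e, x ≠ y → pe G.V {x, y} < T := by
    intro e
    subst hloc
    simp only [mem_filter]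
  have hsub : loc ⊆ G.E := fun e he => ((hmem e).1 he).1
  rw [← card_sdiff_of_subset hsub]
  have hmono : ∀ e : Finset (Pt d), ∀ x ∈ e, ∀ y ∈ e, pe G.V {x, y} ≤ pe G.V e := by
    intro e x hx y hy
    rw [pe_eq, pe_eq]
    refine card_le_card fun D hD => ?_
    obtain ⟨hD1, hD2⟩ := mem_filter.1 hD
    refine mem_filter.2 ⟨hD1, ?_⟩
    obtain ⟨z, hz1, hz2⟩ := hD2
    refine ⟨z, hz1, convexHull_mono ?_ hz2⟩
    intro w hw
    rw [mem_coe, mem_insert, mem_singleton] at hw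
    rcases hw with rfl | rfl
    · exact hx
    · exact hy
  calc T * (G.E \ loc).card = ∑ _e ∈ G.E \ loc, T := by
        rw [sum_const, smul_eq_mul, mul_comm]
    _ ≤ ∑ e ∈ G.E \ loc, pe G.V e := by
        refine sum_le_sum fun e he => ?_
        obtain ⟨he1, he2⟩ := mem_sdiff.1 he
        have h3 : ¬ ∀ x ∈ e, ∀ y ∈ e, x ≠ y → pe G.V {x, y} < T := fun h =>
          he2 ((hmem e).2 ⟨he1, h⟩)
        push Not at h3
        obtain ⟨x, hx, y, hy, -, h4⟩ := h3
        exact h4.trans (hmono e x hx y hy)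
    _ ≤ ∑ e ∈ G.E, pe G.V e := sum_le_sum_of_subset sdiff_subset

end Pool.Agent.H9.SC
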