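import Pool.Agent.H9.SC.Defs

/-! # SC.NumC

Binomial quotients.

PROOF. `d.factorial * n.choose d ≤ n^d` and `(d-1)! * (n-s).choose (d-1) = descFactorial ≥ (n - s - d)^(d-1)` (real, when `s + d ≤ n`; `Nat.pow_sub_le_descFactorial` or product). So it is enough: `(1-η) (d/n) n^d / d! ≤ (n-s-d)^(d-1)/(d-1)!`, i.e. `(1-η) n^(d-1) ≤ (n - s - d)^(d-1)`. With `s ≤ σ n`, `d ≤ σ n` (`n ≥ n₀ := ⌈d/σ⌉`): `(n-s-d)^(d-1) ≥ (1-2σ)^(d-1) n^(d-1) ≥ (1 - 2σ(d-1)) n^(d-1)` (Bernoulli `one_add_mul_le_pow`). `σ := min (1/4) (η/(2 d))`. (`η ≥ 1`: trivial, the left side is `≤ 0`.) -/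

set_option autoImplicit false

open Module Finset

namespace Pool.Agent.H9.SC

open Pool.Agent.H68

theorem choose_ratio (d : ℕ) (hd : 1 ≤ d) (η : ℝ) (hη : 0 < η) : ∃ σ : ℝ, 0 < σ ∧ σ ≤ 1 / 4 ∧ ∃ n₀ : ℕ,
    ∀ n : ℕ, n₀ ≤ n → ∀ s : ℕ, (s : ℝ) ≤ σ * n →
      (1 - η) * ((d : ℝ) / n) * (n.choose d : ℝ) ≤ ((n - s).choose (d - 1) : ℝ) := by
  have hd0 : (0 : ℝ) < d := by exact_mod_cast hd
  rcases le_or_gt 1 η with h1 | h1
  · refine ⟨1 / 4, by norm_num, le_rfl, 0, fun n _ s _ => ?_⟩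
    have h2 : 0 ≤ ((d : ℝ) / n) * (n.choose d : ℝ) := by positivity
    have h3 : (0 : ℝ) ≤ ((n - s).choose (d - 1) : ℝ) := Nat.cast_nonneg _
    rw [mul_assoc]
    nlinarith
  obtain ⟨σ, hσ⟩ : ∃ σ : ℝ, σ = min (1 / 4) (η / (2 * d)) := ⟨_, rfl⟩
  have hσ0 : 0 < σ := by rw [hσ]; exact lt_min (by norm_num) (by positivity)
  have hσ4 : σ ≤ 1 / 4 := by rw [hσ]; exact min_le_left _ _
  have hση : 2 * σ * d ≤ η := by
    have h2 : σ ≤ η / (2 * d) := by rw [hσ]; exact min_le_right _ _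
    rw [le_div_iff₀ (by positivity)] at h2
    linarith
  refine ⟨σ, hσ0, hσ4, ⌈(d : ℝ) / σ⌉₊ + 1, fun n hn s hs => ?_⟩
  have hnr : (d : ℝ) ≤ σ * n := by
    have h2 : (d : ℝ) / σ ≤ n := by
      have h3 := Nat.le_ceil ((d : ℝ) / σ)
      have h4 : ((⌈(d : ℝ) / σ⌉₊ + 1 : ℕ) : ℝ) ≤ n := by exact_mod_cast hn
      push_cast at h4
      linarith
    rw [div_le_iff₀ hσ0] at h2
    linarith
  have hn0 : (0 : ℝ) < n := by
    have : 1 ≤ n := by omega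
    exact_mod_cast this
  have hup : (n.choose d : ℝ) ≤ (n : ℝ) ^ d / (d.factorial : ℝ) := Nat.choose_le_pow_div d n
  have hlo : (((n - s) + 1 - (d - 1) : ℕ) : ℝ) ^ (d - 1) / ((d - 1).factorial : ℝ) ≤
      ((n - s).choose (d - 1) : ℝ) := Nat.pow_le_choose (d - 1) (n - s)
  have hbase : (1 - 2 * σ) * n ≤ (((n - s) + 1 - (d - 1) : ℕ) : ℝ) := by
    have h2 : (n : ℝ) - s - d ≤ (((n - s) + 1 - (d - 1) : ℕ) : ℝ) := by
      have h3 : n ≤ ((n - s) + 1 - (d - 1)) + s + d := by omega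
      have h4 : (n : ℝ) ≤ (((n - s) + 1 - (d - 1) : ℕ) : ℝ) + s + d := by exact_mod_cast h3
      linarith
    nlinarith
  have h0 : 0 ≤ 1 - 2 * σ := by linarith
  have hpow : ((1 - 2 * σ) * n) ^ (d - 1) ≤ (((n - s) + 1 - (d - 1) : ℕ) : ℝ) ^ (d - 1) :=
    pow_le_pow_left₀ (by positivity) hbase _
  have hbern : 1 - η ≤ (1 - 2 * σ) ^ (d - 1) := by
    have h2 := one_add_mul_le_pow (a := -(2 * σ)) (by linarith) (d - 1)
    have h3 : ((d - 1 : ℕ) : ℝ) ≤ d := by exact_mod_cast Nat.sub_le d 1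
    have h4 : (1 : ℝ) + -(2 * σ) = 1 - 2 * σ := by ring
    rw [h4] at h2
    refine le_trans ?_ h2
    nlinarith
  refine le_trans ?_ hlo
  have hf : (0 : ℝ) < ((d - 1).factorial : ℝ) := by exact_mod_cast Nat.factorial_pos _
  have hdf : (d.factorial : ℝ) = d * ((d - 1).factorial : ℝ) := by
    have := Nat.mul_factorial_pred (show d ≠ 0 by omega)
    exact_mod_cast this.symm
  have hpn : (n : ℝ) ^ d = n * (n : ℝ) ^ (d - 1) := by
    rw [← pow_succ', Nat.sub_add_cancel hd]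
  calc (1 - η) * ((d : ℝ) / n) * (n.choose d : ℝ)
      ≤ (1 - η) * ((d : ℝ) / n) * ((n : ℝ) ^ d / (d.factorial : ℝ)) :=
        mul_le_mul_of_nonneg_left hup (mul_nonneg (by linarith) (by positivity))
    _ = (1 - η) * (n : ℝ) ^ (d - 1) / ((d - 1).factorial : ℝ) := by
        rw [hdf, hpn]
        field_simp
    _ ≤ (((n - s) + 1 - (d - 1) : ℕ) : ℝ) ^ (d - 1) / ((d - 1).factorial : ℝ) := by
        refine div_le_div_of_nonneg_right ?_ hf.le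
        calc (1 - η) * (n : ℝ) ^ (d - 1) ≤ (1 - 2 * σ) ^ (d - 1) * (n : ℝ) ^ (d - 1) :=
              mul_le_mul_of_nonneg_right hbern (by positivity)
          _ = ((1 - 2 * σ) * n) ^ (d - 1) := by rw [mul_pow]
          _ ≤ _ := hpow

end Pool.Agent.H9.SC
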