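import Pool.Agent.H9.SC.Defs

/-! # SC.NumU

Choice of `U` (pure analysis).

PROOF. Let `y := ((r-1)! q)^(1/(r-1))`, so `y^(r-1) = (r-1)! q`, and `base r q = ((r-1)/r) q y` (`Real.mul_rpow`, `q^(r/(r-1)) = q * q^(1/(r-1))`). `U := ⌊y⌋₊`, `φ u := u q - u^r / r!`. For `0 ≤ u ≤ y`: `φ y - φ u ≤ (y - u) q` (since `y^r ≥ u^r`), `φ y = y q - y (r-1)! q / r! = y q (1 - 1/r) = base r q`. So `φ U ≥ base r q - q`, and `U ((1-η) q) - U^r / r! = φ U - η U q ≥ base r q - q - η y q`. Now `y q = (r/(r-1)) base r q ≤ 2 base r q` and `q ≤ η base r q` as soon as `((r-1)/r) y ≥ 1/η`, in particular if `y ≥ 2/η`, i.e. `(r-1)! q ≥ (2/η)^(r-1)`; take `K := (2/η)^(r-1) + 1`. -/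

set_option autoImplicit false

open Module Finset

namespace Pool.Agent.H9.SC

open Pool.Agent.H68

theorem num_U (r : ℕ) (hr : 2 ≤ r) (η : ℝ) (hη : 0 < η) : ∃ K : ℝ, 0 < K ∧ ∀ q : ℝ, K ≤ q →
    ∃ U : ℕ, (1 - 3 * η) * base r q ≤ U * ((1 - η) * q) - (U : ℝ) ^ r / (r.factorial : ℝ) := by
  have hr1 : (1 : ℝ) < r := by
    have : 1 < r := by omega
    exact_mod_cast this
  have hr2 : (2 : ℝ) ≤ r := by exact_mod_cast hr
  have hrm : (0 : ℝ) < (r : ℝ) - 1 := by linarith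
  set f : ℝ := ((r - 1).factorial : ℝ) with hf
  have hf1 : 1 ≤ f := by
    have h1 : 1 ≤ (r - 1).factorial := Nat.succ_le_of_lt (Nat.factorial_pos _)
    rw [hf]
    exact_mod_cast h1
  refine ⟨(2 / η) ^ (r - 1) + 1, by positivity, fun q hq => ?_⟩
  have hKp : 0 < (2 / η) ^ (r - 1) := by positivity
  have hq0 : 0 < q := by linarith
  set s : ℝ := 1 / ((r : ℝ) - 1) with hs
  set y : ℝ := (f * q) ^ s with hy
  have hf0 : 0 < f := by linarith
  have hfq : 0 < f * q := by positivity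
  have hy0 : 0 ≤ y := Real.rpow_nonneg hfq.le _
  have hypow : y ^ (r - 1) = f * q := by
    rw [hy, ← Real.rpow_natCast, ← Real.rpow_mul hfq.le]
    have h1 : s * ((r - 1 : ℕ) : ℝ) = 1 := by
      rw [Nat.cast_sub (by omega), Nat.cast_one, hs]
      field_simp
    rw [h1, Real.rpow_one]
  have hbase : base r q = (((r : ℝ) - 1) / r) * (q * y) := by
    unfold base
    have h1 : (r : ℝ) / ((r : ℝ) - 1) = 1 + s := by
      rw [hs]
      field_simp
      ring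
    rw [h1, Real.rpow_add hq0, Real.rpow_one, hy, Real.mul_rpow hf0.le hq0.le]
    ring
  have hy2 : 2 / η ≤ y := by
    have h1 : (2 / η) ^ (r - 1) ≤ y ^ (r - 1) := by
      rw [hypow]
      nlinarith
    exact (pow_le_pow_iff_left₀ (by positivity) hy0 (by omega)).1 h1
  have hηy : 2 ≤ η * y := by
    rw [div_le_iff₀ hη] at hy2
    linarith
  have hU1 : (⌊y⌋₊ : ℝ) ≤ y := Nat.floor_le hy0
  have hU2 : y < (⌊y⌋₊ : ℝ) + 1 := Nat.lt_floor_add_one y
  have hU0 : (0 : ℝ) ≤ (⌊y⌋₊ : ℝ) := Nat.cast_nonneg _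
  refine ⟨⌊y⌋₊, ?_⟩
  have hfac : (r.factorial : ℝ) = r * f := by
    rw [hf, ← Nat.mul_factorial_pred (by omega : r ≠ 0)]
    push_cast
    ring
  have hyr : y ^ r = f * q * y := by
    rw [← hypow, ← pow_succ]
    congr 1
    omega
  have h1 : (⌊y⌋₊ : ℝ) ^ r / (r.factorial : ℝ) ≤ q * y / r := by
    have h2 : (⌊y⌋₊ : ℝ) ^ r ≤ f * q * y := by
      rw [← hyr]
      exact pow_le_pow_left₀ hU0 hU1 r
    calc (⌊y⌋₊ : ℝ) ^ r / (r.factorial : ℝ) ≤ f * q * y / (r.factorial : ℝ) :=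
          div_le_div_of_nonneg_right h2 (by positivity)
      _ = q * y / r := by
          rw [hfac]
          field_simp
  have h3 : ((r : ℝ) - 1) / r = 1 - 1 / r := by
    field_simp
  have h4 : (1 : ℝ) / r ≤ 1 / 2 := one_div_le_one_div_of_le (by norm_num) hr2
  have hqy : 0 ≤ q * y := by positivity
  have h5 : q * y / r = q * y * (1 / r) := by ring
  rw [h5] at h1
  rw [hbase, h3]
  have h6 : q * y * (1 / (r : ℝ)) ≤ q * y * (1 / 2) := mul_le_mul_of_nonneg_left h4 hqy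
  have h7 : (y - 1) * q ≤ (⌊y⌋₊ : ℝ) * q := mul_le_mul_of_nonneg_right (by linarith) hq0.le
  have h8 : η * ((⌊y⌋₊ : ℝ) * q) ≤ η * (y * q) :=
    mul_le_mul_of_nonneg_left (mul_le_mul_of_nonneg_right hU1 hq0.le) hη.le
  have h9 : 2 * q ≤ η * y * q := mul_le_mul_of_nonneg_right hηy hq0.le
  have h10 : η * (q * y * (1 / (r : ℝ))) ≤ η * (q * y * (1 / 2)) :=
    mul_le_mul_of_nonneg_left h6 hη.le
  nlinarith

end Pool.Agent.H9.SC
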