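import Pool.Agent.H9.SC.LowF
import Pool.Agent.H9.SC.Bal
import Pool.Agent.H9.SC.NumU
import Pool.Agent.H9.SC.NumC
import Pool.Agent.H9.SC.Rng

/-! # SC.LowA

The lower bound for hyperplanes.

PROOF. Let `η := min (ε/8) (1/8)`. `choose_ratio` gives `σ`, `n₁`; `ball_small` for `σ/2` gives `τ`, `n₂`; `num_U` gives `K₁`. Put `T := ⌊τ (n.choose d)⌋₊` (`≥ τ (n.choose d)/2` once `n ≥ n₃`: `n.choose d ≥ n/d..`, `τ (n.choose d) ≥ 1`: `n.choose d ≥ n - d + 1`), `s := ⌊σ n⌋₊`; for `n ≥ n₄` the ball has at most `σ n / 2` elements, plus 1 is `≤ s`. `low_fin`: with `q = m/n`: second term `= C (n) (U ((1-η) q) - U^r / r!) ≥ (1-η) (d/n) (n.choose d) n (1-3η) base r q` (`base ≥ 0`), so divided by `n.choose d`: `≥ (1-4η) d base r q ≥ (1-ε) d base r q`. First term `/ (n.choose d) ≥ (τ/2) η m`, and `d base r q ≤ (τ/2) η m` when `K` is large: `base r q = c q^(r/(r-1)) = c (m/n) (m/n)^(1/(r-1))`, `(m/n)^(1/(r-1))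 ≤ (n^(r-1)/K)^(1/(r-1)) = n K^(-1/(r-1))`, so `base r q ≤ c m K^(-1/(r-1))`. All `n ≥ n_i` conditions by `range_K`. -/

set_option autoImplicit false

open Module Finset

namespace Pool.Agent.H9.SC

open Pool.Agent.H68

/-- The constant of `base`. -/
private theorem LowA_base (r : ℕ) (hr : 2 ≤ r) (q : ℝ) (hq : 0 < q) :
    base r q = (((r : ℝ) - 1) / r) * (((r - 1).factorial : ℝ)) ^ (1 / ((r : ℝ) - 1)) *
      (q * q ^ (1 / ((r : ℝ) - 1))) := by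
  unfold base
  have hr' : (2 : ℝ) ≤ r := by exact_mod_cast hr
  have h1 : (r : ℝ) - 1 ≠ 0 := by
    intro h
    linarith
  have h2 : (r : ℝ) / ((r : ℝ) - 1) = 1 + 1 / ((r : ℝ) - 1) := by
    field_simp
    ring
  rw [h2, Real.rpow_add hq, Real.rpow_one]

private theorem LowA_root (r : ℕ) (hr : 2 ≤ r) (q : ℝ) (hq : 0 ≤ q) :
    (q ^ (1 / ((r : ℝ) - 1))) ^ (r - 1) = q := by
  have hr' : (2 : ℝ) ≤ r := by exact_mod_cast hr
  have h1 : (r : ℝ) - 1 ≠ 0 := by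
    intro h
    linarith
  rw [← Real.rpow_natCast, ← Real.rpow_mul hq]
  have h3 : ((r - 1 : ℕ) : ℝ) = (r : ℝ) - 1 := by
    rw [Nat.cast_sub (by omega), Nat.cast_one]
  rw [h3]
  have h4 : 1 / ((r : ℝ) - 1) * ((r : ℝ) - 1) = 1 := by
    field_simp
  rw [h4, Real.rpow_one]

private theorem LowA_choose (d n : ℕ) (hd : 1 ≤ d) (hn : d ≤ n) :
    (n : ℝ) ≤ d * (n.choose d : ℝ) := by
  obtain ⟨n', rfl⟩ : ∃ n', n = n' + 1 := ⟨n - 1, by omega⟩
  obtain ⟨d', rfl⟩ : ∃ d', d = d' + 1 := ⟨d - 1, by omega⟩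
  have h := Nat.add_one_mul_choose_eq n' d'
  have h1 : 1 ≤ n'.choose d' := Nat.choose_pos (by omega)
  have h2 : n' + 1 ≤ (n' + 1) * n'.choose d' := Nat.le_mul_of_pos_right _ h1
  have h3 : n' + 1 ≤ (d' + 1) * (n' + 1).choose (d' + 1) := by
    calc n' + 1 ≤ (n' + 1) * n'.choose d' := h2
      _ = (n' + 1).choose (d' + 1) * (d' + 1) := h
      _ = (d' + 1) * (n' + 1).choose (d' + 1) := by ring
  exact_mod_cast h3

/-- The far term is larger than the main term. -/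
private theorem LowA_far (r : ℕ) (hr : 2 ≤ r) (d : ℕ) (τ η K : ℝ) (hτ : 0 < τ) (hη : 0 < η)
    (_hK : 0 < K)
    (hKB : (2 * (d * ((((r : ℝ) - 1) / r) * (((r - 1).factorial : ℝ)) ^ (1 / ((r : ℝ) - 1)))) /
      (τ * η)) ^ (r - 1) ≤ K)
    (n m : ℕ) (hn : 1 ≤ n) (hm : 1 ≤ m) (h : K * m ≤ (n : ℝ) ^ r) :
    (d : ℝ) * base r ((m : ℝ) / n) ≤ τ / 2 * (η * m) := by
  have hn' : (1 : ℝ) ≤ n := by exact_mod_cast hn
  have hm' : (1 : ℝ) ≤ m := by exact_mod_cast hm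
  have hr' : (2 : ℝ) ≤ r := by exact_mod_cast hr
  have hn0 : (0 : ℝ) < n := by linarith
  have hm0 : (0 : ℝ) < m := by linarith
  obtain ⟨q, hqdef⟩ : ∃ q : ℝ, q = (m : ℝ) / n := ⟨_, rfl⟩
  have hq : 0 < q := by rw [hqdef]; positivity
  have hqn : q * n = m := by rw [hqdef]; field_simp
  obtain ⟨c, hc⟩ : ∃ c : ℝ, c = (((r : ℝ) - 1) / r) *
    (((r - 1).factorial : ℝ)) ^ (1 / ((r : ℝ) - 1)) := ⟨_, rfl⟩
  have hc0 : 0 ≤ c := by
    rw [hc]
    have h1 : (0 : ℝ) ≤ ((r : ℝ) - 1) / r := div_nonneg (by linarith) (by linarith)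
    exact mul_nonneg h1 (Real.rpow_nonneg (by positivity) _)
  obtain ⟨B, hB⟩ : ∃ B : ℝ, B = 2 * (d * c) / (τ * η) := ⟨_, rfl⟩
  have hB0 : 0 ≤ B := by rw [hB]; positivity
  obtain ⟨x, hx⟩ : ∃ x : ℝ, x = q ^ (1 / ((r : ℝ) - 1)) := ⟨_, rfl⟩
  have hx0 : 0 ≤ x := by rw [hx]; exact Real.rpow_nonneg hq.le _
  have hxr : x ^ (r - 1) = q := by rw [hx]; exact LowA_root r hr q hq.le
  rw [← hc, ← hB] at hKB
  have hKq : K * q ≤ (n : ℝ) ^ (r - 1) := by
    have h1 : K * q * n ≤ (n : ℝ) ^ (r - 1) * n := by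
      rw [← pow_succ, show r - 1 + 1 = r by omega, mul_assoc, hqn]
      exact h
    exact le_of_mul_le_mul_right h1 hn0
  have hBx : B * x ≤ n := by
    have h1 : (B * x) ^ (r - 1) ≤ (n : ℝ) ^ (r - 1) := by
      rw [mul_pow, hxr]
      exact (mul_le_mul_of_nonneg_right hKB hq.le).trans hKq
    exact (pow_le_pow_iff_left₀ (mul_nonneg hB0 hx0) hn0.le (by omega)).1 h1
  rw [← hqdef, LowA_base r hr q hq, ← hc, ← hx]
  have h2 : (d : ℝ) * (c * (q * x)) = τ * η / 2 * q * (B * x) := by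
    rw [hB]
    field_simp
  rw [h2]
  have h3 : τ * η / 2 * q * (B * x) ≤ τ * η / 2 * q * n :=
    mul_le_mul_of_nonneg_left hBx (by positivity)
  calc τ * η / 2 * q * (B * x) ≤ τ * η / 2 * q * n := h3
    _ = τ * η / 2 * (q * n) := by ring
    _ = τ / 2 * (η * m) := by rw [hqn]; ring

theorem lower_A {d r : ℕ} (hr : 2 ≤ r) (hrd : r ≤ d + 1) (ε : ℝ) (hε : 0 < ε) : ∃ K : ℝ, 0 < K ∧
    ∀ n m : ℕ, 1 ≤ m → K * n ≤ m → K * m ≤ (n : ℝ) ^ r →
      (1 - ε) * (d * base r ((m : ℝ) / n)) ≤ (fval d r (d - 1) m n : ℝ) := by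
  classical
  have hd : 1 ≤ d := by omega
  have hr' : (2 : ℝ) ≤ r := by exact_mod_cast hr
  obtain ⟨η, hηdef⟩ : ∃ η : ℝ, η = min (ε / 8) (1 / 8) := ⟨_, rfl⟩
  have hη : 0 < η := by rw [hηdef]; exact lt_min (by linarith) (by norm_num)
  have hη8 : η ≤ 1 / 8 := by rw [hηdef]; exact min_le_right _ _
  have hηε : 1 - ε ≤ 1 - 4 * η := by
    have h1 : η ≤ ε / 8 := by rw [hηdef]; exact min_le_left _ _
    linarith
  obtain ⟨σ, hσ, -, n₁, hn₁⟩ := choose_ratio d hd η hη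
  obtain ⟨τ, hτ, n₂, hn₂⟩ := ball_small (d := d) hd (σ / 2) (by positivity)
  obtain ⟨K₁, -, hK₁⟩ := num_U r hr η hη
  obtain ⟨N₀, hN₀⟩ : ∃ N₀ : ℕ, N₀ = n₁ + n₂ + ⌈2 / σ⌉₊ + ⌈2 * d / τ⌉₊ + d + 1 := ⟨_, rfl⟩
  obtain ⟨B, hB⟩ : ∃ B : ℝ, B = (2 * (d * ((((r : ℝ) - 1) / r) *
    (((r - 1).factorial : ℝ)) ^ (1 / ((r : ℝ) - 1)))) / (τ * η)) ^ (r - 1) := ⟨_, rfl⟩
  obtain ⟨K, hK0, hKA, hK⟩ := range_K r hr N₀ (max K₁ B)
  refine ⟨K, hK0, fun n m hm h1 h2 => ?_⟩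
  obtain ⟨hnN, hn1, hmc⟩ := hK n m h1 h2 hm
  have hn' : (1 : ℝ) ≤ n := by exact_mod_cast hn1
  have hn0 : (0 : ℝ) < n := by linarith
  have hm' : (1 : ℝ) ≤ m := by exact_mod_cast hm
  have hnn₁ : n₁ ≤ n := by omega
  have hnn₂ : n₂ ≤ n := by omega
  have hnd : d + 1 ≤ n := by omega
  have hnσ : 2 ≤ σ * n := by
    have h3 : 2 / σ ≤ n := (Nat.le_ceil _).trans (by exact_mod_cast (by omega : ⌈2 / σ⌉₊ ≤ n))
    rw [div_le_iff₀ hσ] at h3
    linarith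
  have hnτ : 2 ≤ τ * (n.choose d : ℝ) := by
    have h3 : 2 * d / τ ≤ n :=
      (Nat.le_ceil _).trans (by exact_mod_cast (by omega : ⌈2 * (d : ℝ) / τ⌉₊ ≤ n))
    rw [div_le_iff₀ hτ] at h3
    have h4 := LowA_choose d n hd (by omega)
    have h5 : 2 * (d : ℝ) ≤ d * (n.choose d : ℝ) * τ :=
      h3.trans (mul_le_mul_of_nonneg_right h4 hτ.le)
    have hd' : (0 : ℝ) < d := by exact_mod_cast (by omega : 0 < d)
    have h6 : (d : ℝ) * 2 ≤ d * (τ * (n.choose d : ℝ)) := by linarith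
    exact le_of_mul_le_mul_left h6 hd'
  obtain ⟨T, hT⟩ : ∃ T : ℕ, T = ⌊τ * (n.choose d : ℝ)⌋₊ := ⟨_, rfl⟩
  obtain ⟨s, hs⟩ : ∃ s : ℕ, s = ⌊σ * n⌋₊ := ⟨_, rfl⟩
  have hTle : (T : ℝ) ≤ τ * (n.choose d : ℝ) := by
    rw [hT]; exact Nat.floor_le (by positivity)
  have hTge : τ * (n.choose d : ℝ) / 2 ≤ T := by
    have h3 : τ * (n.choose d : ℝ) < T + 1 := by rw [hT]; exact Nat.lt_floor_add_one _
    linarith
  have hsle : (s : ℝ) ≤ σ * n := by rw [hs]; exact Nat.floor_le (by positivity)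
  have hball : ∀ V : Finset (Pt d), GPs V → V.card = n → ∀ x ∈ V,
      (V.filter fun y => pe V {x, y} < T).card + 1 ≤ s := by
    intro V hV hVn x hx
    have h3 := hn₂ V hV (by omega) x hx
    rw [hVn] at h3
    have h4 : ((V.filter fun y => pe V {x, y} < T).card : ℝ) ≤
        ((V.filter fun y => (pe V {x, y} : ℝ) < τ * (n.choose d : ℝ)).card : ℝ) := by
      refine Nat.cast_le.2 (card_le_card fun y hy => ?_)
      rw [mem_filter] at hy ⊢
      refine ⟨hy.1, lt_of_lt_of_le ?_ hTle⟩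
      exact_mod_cast hy.2
    rw [hs]
    refine Nat.le_floor ?_
    push_cast
    linarith
  obtain ⟨q, hq⟩ : ∃ q : ℝ, q = (m : ℝ) / n := ⟨_, rfl⟩
  have hqn : q * n = m := by rw [hq]; field_simp
  have hq0 : 0 < q := by rw [hq]; positivity
  have hKq : K ≤ q := by
    rw [hq, le_div_iff₀ hn0]
    exact h1
  obtain ⟨U, hU⟩ := hK₁ q (((le_max_left _ _).trans hKA).trans hKq)
  have hbase : 0 ≤ base r q := by
    rw [LowA_base r hr q hq0]
    have h3 : (0 : ℝ) ≤ ((r : ℝ) - 1) / r := div_nonneg (by linarith) (by linarith)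
    exact mul_nonneg (mul_nonneg h3 (Real.rpow_nonneg (by positivity) _))
      (mul_nonneg hq0.le (Real.rpow_nonneg hq0.le _))
  have hlow := low_fin (d := d) (r := r) (n := n) (m := m) hd (by omega) hrd hmc hnd T s U hball η
  have hfar := LowA_far r hr d τ η K hτ hη hK0 (hB ▸ (le_max_right _ _).trans hKA) n m hn1 hm h2
  rw [← hq] at hfar ⊢
  have hC0 : (0 : ℝ) < (n.choose d : ℝ) := by
    exact_mod_cast Nat.choose_pos (by omega : d ≤ n)
  have hdb : 0 ≤ (d : ℝ) * base r q := mul_nonneg (by positivity) hbase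
  have hgoal : (n.choose d : ℝ) * ((1 - ε) * (d * base r q)) ≤
      (n.choose d : ℝ) * (fval d r (d - 1) m n : ℝ) := by
    refine le_trans (le_min ?_ ?_) hlow
    · have h3 : (1 - ε) * (d * base r q) ≤ d * base r q := by nlinarith
      calc (n.choose d : ℝ) * ((1 - ε) * (d * base r q))
          ≤ (n.choose d : ℝ) * (d * base r q) := mul_le_mul_of_nonneg_left h3 hC0.le
        _ ≤ (n.choose d : ℝ) * (τ / 2 * (η * m)) := mul_le_mul_of_nonneg_left hfar hC0.le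
        _ = τ * (n.choose d : ℝ) / 2 * (η * m) := by ring
        _ ≤ T * (η * m) := mul_le_mul_of_nonneg_right hTge (by positivity)
    · have h4 := hn₁ n hnn₁ s hsle
      have h5 : (n : ℝ) * ((1 - 3 * η) * base r q) ≤
          U * ((1 - η) * m) - n * (U : ℝ) ^ r / (r.factorial : ℝ) := by
        have h6 := mul_le_mul_of_nonneg_left hU hn0.le
        have h7 : (n : ℝ) * (U * ((1 - η) * q) - (U : ℝ) ^ r / (r.factorial : ℝ)) =
            U * ((1 - η) * (q * n)) - n * (U : ℝ) ^ r / (r.factorial : ℝ) := by ring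
        rw [h7, hqn] at h6
        exact h6
      have h8 : 0 ≤ (n : ℝ) * ((1 - 3 * η) * base r q) :=
        mul_nonneg hn0.le (mul_nonneg (by linarith) hbase)
      calc (n.choose d : ℝ) * ((1 - ε) * (d * base r q))
          ≤ (n.choose d : ℝ) * (((1 - η) * (1 - 3 * η)) * (d * base r q)) := by
            refine mul_le_mul_of_nonneg_left (mul_le_mul_of_nonneg_right ?_ hdb) hC0.le
            nlinarith
        _ = ((1 - η) * ((d : ℝ) / n) * (n.choose d : ℝ)) *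
            ((n : ℝ) * ((1 - 3 * η) * base r q)) := by
            field_simp
        _ ≤ ((n - s).choose (d - 1) : ℝ) * ((n : ℝ) * ((1 - 3 * η) * base r q)) :=
            mul_le_mul_of_nonneg_right h4 h8
        _ ≤ ((n - s).choose (d - 1) : ℝ) *
            (U * ((1 - η) * m) - n * (U : ℝ) ^ r / (r.factorial : ℝ)) :=
            mul_le_mul_of_nonneg_left h5 (by positivity)
  exact le_of_mul_le_mul_left hgoal hC0

end Pool.Agent.H9.SC
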