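import Pool.Agent.H9.SC.Gpa
import Pool.Agent.H9.SC.Avg
import Pool.Agent.H9.SC.Loc

/-! # SC.LowF

The finite lower bound.

PROOF. By `le_fval` (`exists_geomHyp`, H68/GeomHyp) it is enough to find for every `G` with `n` vertices and `m` edges a `(d-1)`-flat `L` with `t ≤ numMet G L`, `t` = the ceiling of `min(..) / n.choose d`. `gps_of_hyp`, `avg_met` give `L` with `Σ := ∑ pe ≤ (n.choose d) numMet G L`. Let `m'` = number of the local edges. If `(m : ℝ) - m' ≥ η m`: `far_sum` gives `T η m ≤ T (m - m') ≤ Σ`. Otherwise `m' ≥ (1-η) m`: `loc_sum` divided by `r!`: `C (U m' - n U^r / r!) ≤ Σ`, and `U m' ≥ U (1-η) m`.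
(So `min(..) ≤ Σ ≤ (n.choose d) numMet`. `fval` is a natural number `≥ t` when `t ≤ numMet` for all `G`; take `t := ⌈min(..)/(n.choose d)⌉₊`; if the minimum is negative the claim is trivial.) -/

set_option autoImplicit false

open Module Finset

namespace Pool.Agent.H9.SC

open Pool.Agent.H68

open Classical in
theorem low_fin {d r n m : ℕ} (hd : 1 ≤ d) (hr : 1 ≤ r) (hrd : r ≤ d + 1) (hm : m ≤ n.choose r)
    (hn : d + 1 ≤ n) (T s U : ℕ)
    (hball : ∀ V : Finset (Pt d), GPs V → V.card = n → ∀ x ∈ V,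
      (V.filter fun y => pe V {x, y} < T).card + 1 ≤ s) (η : ℝ) :
    min ((T : ℝ) * (η * m))
        (((n - s).choose (d - 1) : ℝ) * (U * ((1 - η) * m) - n * (U : ℝ) ^ r / (r.factorial : ℝ))) ≤
      (n.choose d : ℝ) * (fval d r (d - 1) m n : ℝ) := by
  obtain ⟨M, hM⟩ : ∃ M : ℝ, M = min ((T : ℝ) * (η * m))
      (((n - s).choose (d - 1) : ℝ) * (U * ((1 - η) * m) - n * (U : ℝ) ^ r / (r.factorial : ℝ))) :=
    ⟨_, rfl⟩
  rw [← hM]
  have hN : 0 < (n.choose d : ℝ) := by exact_mod_cast Nat.choose_pos (by omega)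
  have hfac : 0 < (r.factorial : ℝ) := by exact_mod_cast Nat.factorial_pos r
  have key : ⌈M / (n.choose d : ℝ)⌉₊ ≤ fval d r (d - 1) m n := by
    refine le_fval (exists_geomHyp hd hrd hm) fun G hGn hGm => ?_
    have hV := gps_of_hyp hd G (by omega)
    obtain ⟨L, hL, hS⟩ := avg_met hd G hV (by omega)
    refine ⟨L, hL, ?_⟩
    rw [Nat.ceil_le, div_le_iff₀ hN]
    have hloc := loc_sum hd hr G hV T s (hball G.V hV hGn) U
    have hfar := far_sum G T
    obtain ⟨S, hSd⟩ : ∃ S : ℕ, S = ∑ e ∈ G.E, pe G.V e := ⟨_, rfl⟩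
    obtain ⟨m', hm'⟩ : ∃ m' : ℕ,
        m' = (G.E.filter fun e => ∀ x ∈ e, ∀ y ∈ e, x ≠ y → pe G.V {x, y} < T).card := ⟨_, rfl⟩
    have hm'm : m' ≤ m := by
      rw [hm', ← hGm]
      apply card_le_card
      intro e he
      simp only [mem_filter] at he
      exact he.1
    rw [← hm', ← hSd] at hloc hfar
    rw [← hSd] at hS
    rw [hGn] at hS hloc
    rw [hGm] at hfar
    have hS' : (S : ℝ) ≤ (n.choose d : ℝ) * (numMet G L : ℝ) := by exact_mod_cast hS
    have hMS : M ≤ (S : ℝ) := by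
      rcases le_or_gt (η * m) ((m : ℝ) - m') with h | h
      · have h1 : (T : ℝ) * ((m : ℝ) - m') ≤ (S : ℝ) := by
          have h2 : ((T * (m - m') : ℕ) : ℝ) ≤ (S : ℝ) := by exact_mod_cast hfar
          rwa [Nat.cast_mul, Nat.cast_sub hm'm] at h2
        have h3 : (T : ℝ) * (η * m) ≤ (T : ℝ) * ((m : ℝ) - m') :=
          mul_le_mul_of_nonneg_left h (Nat.cast_nonneg _)
        rw [hM]
        exact (min_le_left _ _).trans (h3.trans h1)
      · have hC : 0 ≤ ((n - s).choose (d - 1) : ℝ) := Nat.cast_nonneg _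
        have h1 : ((n - s).choose (d - 1) : ℝ) * ((r.factorial : ℝ) * (U * m')) ≤
            (r.factorial : ℝ) * S + ((n - s).choose (d - 1) : ℝ) * (n * (U : ℝ) ^ r) := by
          exact_mod_cast hloc
        have h2 : ((n - s).choose (d - 1) : ℝ) *
            (U * (m' : ℝ) - n * (U : ℝ) ^ r / (r.factorial : ℝ)) ≤ (S : ℝ) := by
          have e : ((n - s).choose (d - 1) : ℝ) *
              (U * (m' : ℝ) - n * (U : ℝ) ^ r / (r.factorial : ℝ)) =
              (((n - s).choose (d - 1) : ℝ) * ((r.factorial : ℝ) * (U * m')) -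
                ((n - s).choose (d - 1) : ℝ) * (n * (U : ℝ) ^ r)) / (r.factorial : ℝ) := by
            field_simp
          rw [e, div_le_iff₀ hfac]
          linarith
        have h3 : ((n - s).choose (d - 1) : ℝ) *
            (U * ((1 - η) * m) - n * (U : ℝ) ^ r / (r.factorial : ℝ)) ≤
            ((n - s).choose (d - 1) : ℝ) *
            (U * (m' : ℝ) - n * (U : ℝ) ^ r / (r.factorial : ℝ)) := by
          refine mul_le_mul_of_nonneg_left ?_ hC
          have h4 : (U : ℝ) * ((1 - η) * m) ≤ U * (m' : ℝ) :=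
            mul_le_mul_of_nonneg_left (by linarith) (Nat.cast_nonneg _)
          linarith
        rw [hM]
        exact (min_le_right _ _).trans (h3.trans h2)
    linarith
  calc M = (n.choose d : ℝ) * (M / (n.choose d : ℝ)) := by field_simp
    _ ≤ (n.choose d : ℝ) * ((⌈M / (n.choose d : ℝ)⌉₊ : ℕ) : ℝ) :=
        mul_le_mul_of_nonneg_left (Nat.le_ceil _) hN.le
    _ ≤ (n.choose d : ℝ) * (fval d r (d - 1) m n : ℝ) :=
        mul_le_mul_of_nonneg_left (by exact_mod_cast key) hN.le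

end Pool.Agent.H9.SC
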