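import Pool.Agent.H9.SC.Defs

/-! # SC.Mom

The moment curve is generic.

PROOF. `GP`: `j ≤ d + 1` different indices `e i`; affine independence of the points `mom (e i)`: a relation `∑ c_i = 0`, `∑ c_i (e i)^(l+1) = 0` for `l < d` (coordinates), i.e. `∑ c_i (e i)^l = 0` for `0 ≤ l ≤ d`, so for `l < j`: the Vandermonde matrix of the different numbers `e i` is invertible (`Matrix.det_vandermonde_ne_zero_iff`), so `c = 0`. (`affineIndependent_iff` or `affineIndependent_iff_of_fintype`; or prove it for exactly `d + 1` points and restrict; alternative: a polynomial argument.) -/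

set_option autoImplicit false

open Module Finset

namespace Pool.Agent.H9.SC

open Pool.Agent.H68

theorem mom_GP (d n : ℕ) : GP (mom d n) := by
  intro j hj e
  rw [affineIndependent_iff_of_fintype]
  intro w hw0 hw
  rw [weightedVSub_eq_linear_combination _ hw0] at hw
  set v : Fin j → ℝ := fun i => (((e i : Fin n) : ℕ) : ℝ) with hv
  have hinj : Function.Injective v := by
    intro a b hab
    have h1 : ((e a : Fin n) : ℕ) = ((e b : Fin n) : ℕ) := by
      simp only [hv] at hab
      exact_mod_cast hab
    exact e.injective (Fin.ext h1)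
  have hpow : ∀ l < j, ∑ i, w i * v i ^ l = 0 := by
    intro l hl
    rcases Nat.eq_zero_or_pos l with h0 | hpos
    · subst h0
      simpa using hw0
    · obtain ⟨l', rfl⟩ : ∃ l', l = l' + 1 := ⟨l - 1, by omega⟩
      have hl' : l' < d := by omega
      have h2 := congrArg (fun p : Pt d => p ⟨l', hl'⟩) hw
      simp only [WithLp.ofLp_sum, WithLp.ofLp_smul, Finset.sum_apply, Pi.smul_apply, smul_eq_mul,
        WithLp.ofLp_zero, Pi.zero_apply, mom] at h2
      exact h2
  have hvm : Matrix.vecMul w (Matrix.vandermonde v) = 0 := by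
    funext l
    simp only [Matrix.vecMul, dotProduct, Matrix.vandermonde_apply, Pi.zero_apply]
    exact hpow l l.2
  have hw' := Matrix.eq_zero_of_vecMul_eq_zero (Matrix.det_vandermonde_ne_zero_iff.2 hinj) hvm
  intro i
  rw [hw']
  rfl

end Pool.Agent.H9.SC
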