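import Pool.Agent.H9.SC.Defs

/-! # SC.MomM

A hyperplane cuts the moment curve in at most `d` points.

PROOF. `L = {x | ⟨a, x⟩ = b}` with `a ≠ 0` (the direction of `L` has dimension `d - 1`, take a nonzero vector `a` orthogonal to it, `b = ⟨a, x₀⟩` for a point `x₀` of `L`; only `L ⊆ {..}` is needed). `g := ∑_j a_j X^(j+1) - b : Polynomial ℝ` is not zero (a coefficient `a_j ≠ 0`) and of degree `≤ d`; `R := g.roots.toFinset`, `R.card ≤ d`. If `L` meets the convex hull of the points with indices in `e` then not all `g(i)`, `i ∈ e`, are positive and not all are negative (a convex combination of the points is in `L`, so the same combination of the values `g(i) = ⟨a, mom i⟩ - b` is `0`; `mem_convexHull_image_iff`-type lemma in H68/Block.lean, or: `{x | 0 < ⟨a, x⟩ - b}` is convex). So there are `i, j ∈ e` with `g(i) ≤ 0 ≤ g(j)`, and a root between `i` and `j` (intermediate value theorem, `Polynomial.continuous`); `i, j` may have to be exchanged (`τ ∈ uIcc`). -/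

set_option autoImplicit false

open Module Finset

namespace Pool.Agent.H9.SC

open Pool.Agent.H68

/-- the polynomial of a linear form on the moment curve -/
private noncomputable def momM_g {d : ℕ} (a : Pt d) (b : ℝ) : Polynomial ℝ :=
  ∑ j : Fin d, Polynomial.C (a j) * Polynomial.X ^ ((j : ℕ) + 1) - Polynomial.C b

private lemma momM_eval {d : ℕ} (a : Pt d) (b t : ℝ) :
    (momM_g a b).eval t = ∑ j : Fin d, a j * t ^ ((j : ℕ) + 1) - b := by
  unfold momM_g
  rw [Polynomial.eval_sub, Polynomial.eval_C, Polynomial.eval_finsetSum]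
  simp

private lemma momM_deg {d : ℕ} (a : Pt d) (b : ℝ) : (momM_g a b).natDegree ≤ d := by
  unfold momM_g
  have h1 : (∑ j : Fin d, Polynomial.C (a j) * Polynomial.X ^ ((j : ℕ) + 1)).natDegree ≤ d :=
    Polynomial.natDegree_sum_le_of_forall_le _ _ fun j _ =>
      (Polynomial.natDegree_C_mul_X_pow_le (a j) ((j : ℕ) + 1)).trans j.2
  have h2 : (Polynomial.C b).natDegree ≤ d := by
    rw [Polynomial.natDegree_C]
    exact Nat.zero_le d
  exact (Polynomial.natDegree_sub_le_of_le h1 h2).trans (max_self d).le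

private lemma momM_ne {d : ℕ} {a : Pt d} (ha : a ≠ 0) (b : ℝ) : momM_g a b ≠ 0 := by
  obtain ⟨j, hj⟩ : ∃ j : Fin d, a j ≠ 0 := by
    by_contra hcon
    push Not at hcon
    exact ha (by ext j; exact hcon j)
  intro h0
  apply hj
  have h1 : (momM_g a b).coeff ((j : ℕ) + 1) = a j := by
    unfold momM_g
    rw [Polynomial.coeff_sub, Polynomial.finsetSum_coeff, Polynomial.coeff_C_succ, sub_zero,
      Finset.sum_eq_single j]
    · simp
    · intro i _ hij
      rw [Polynomial.coeff_C_mul_X_pow, if_neg]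
      intro h
      exact hij (Fin.ext (by omega))
    · intro h
      exact absurd (Finset.mem_univ j) h
  rw [← h1, h0, Polynomial.coeff_zero]

private lemma momM_inner {d n : ℕ} (a : Pt d) (b : ℝ) (i : Fin n) :
    inner ℝ a (mom d n i) = (momM_g a b).eval ((i : ℕ) : ℝ) + b := by
  rw [momM_eval, PiLp.inner_apply]
  simp only [sub_add_cancel]
  refine Finset.sum_congr rfl fun j _ => ?_
  simp [mom, mul_comm]

theorem mom_met {d n : ℕ} (hd : 1 ≤ d) (L : AffineSubspace ℝ (Pt d)) (hL : IsFlat (d - 1) L) :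
    ∃ R : Finset ℝ, R.card ≤ d ∧ ∀ e : Finset (Fin n), MeetsIdx (mom d n) L e →
      ∃ τ ∈ R, ∃ i : Fin n, i ∈ e ∧ ∃ j : Fin n, j ∈ e ∧ (((i : ℕ) : ℝ) ≤ τ ∧ τ ≤ ((j : ℕ) : ℝ)) := by
  obtain ⟨⟨x₀, hx₀⟩, hfr⟩ := hL
  have hne : L.direction ≠ ⊤ := by
    intro h
    rw [h, finrank_top, finrank_euclideanSpace_fin] at hfr
    omega
  have hno : L.directionᗮ ≠ ⊥ := fun h => hne (Submodule.orthogonal_eq_bot_iff.1 h)
  obtain ⟨a, haL, ha⟩ := Submodule.exists_mem_ne_zero_of_ne_bot hno
  set b : ℝ := inner ℝ a x₀ with hb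
  have hLb : ∀ x ∈ L, inner ℝ a x = b := by
    intro x hx
    have h1 : x -ᵥ x₀ ∈ L.direction := AffineSubspace.vsub_mem_direction hx hx₀
    have h2 := (Submodule.mem_orthogonal' _ _).1 haL _ h1
    rw [vsub_eq_sub, inner_sub_right] at h2
    linarith
  have hg0 := momM_ne ha b
  refine ⟨(momM_g a b).roots.toFinset, ?_, ?_⟩
  · exact (Multiset.toFinset_card_le _).trans ((Polynomial.card_roots' _).trans (momM_deg a b))
  rintro e ⟨x, hxL, hxe⟩
  have hxb := hLb x hxL
  have hlin : IsLinearMap ℝ fun y : Pt d => (inner ℝ a y : ℝ) :=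
    ⟨fun y z => inner_add_right a y z, fun c y => by
      rw [real_inner_smul_right]
      rfl⟩
  obtain ⟨i, hi, hi'⟩ : ∃ i ∈ e, (momM_g a b).eval ((i : ℕ) : ℝ) ≤ 0 := by
    by_contra hcon
    push Not at hcon
    have h1 : convexHull ℝ (mom d n '' (e : Set (Fin n))) ⊆ {y | b < inner ℝ a y} := by
      refine convexHull_min ?_ (convex_halfSpace_gt hlin b)
      rintro y ⟨i, hi, rfl⟩
      have h2 := hcon i hi
      show b < inner ℝ a (mom d n i)
      rw [momM_inner a b i]
      linarith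
    have h3 : b < inner ℝ a x := h1 hxe
    linarith
  obtain ⟨j, hj, hj'⟩ : ∃ j ∈ e, 0 ≤ (momM_g a b).eval ((j : ℕ) : ℝ) := by
    by_contra hcon
    push Not at hcon
    have h1 : convexHull ℝ (mom d n '' (e : Set (Fin n))) ⊆ {y | inner ℝ a y < b} := by
      refine convexHull_min ?_ (convex_halfSpace_lt hlin b)
      rintro y ⟨i, hi, rfl⟩
      have h2 := hcon i hi
      show inner ℝ a (mom d n i) < b
      rw [momM_inner a b i]
      linarith
    have h3 : inner ℝ a x < b := h1 hxe
    linarith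
  have hc : ContinuousOn (fun t : ℝ => (momM_g a b).eval t)
      (Set.uIcc ((i : ℕ) : ℝ) ((j : ℕ) : ℝ)) := (momM_g a b).continuous.continuousOn
  obtain ⟨τ, hτ, hτ0⟩ := intermediate_value_uIcc hc (Set.mem_uIcc_of_le hi' hj')
  have hR : τ ∈ (momM_g a b).roots.toFinset := by
    rw [Multiset.mem_toFinset, Polynomial.mem_roots hg0]
    exact hτ0
  rcases Set.mem_uIcc.1 hτ with h | h
  · exact ⟨τ, hR, i, hi, j, hj, h⟩
  · exact ⟨τ, hR, j, hj, i, hi, h⟩

end Pool.Agent.H9.SC
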