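import Pool.Agent.H9.SC.Defs

/-! # SC.Pcl

The pencil of the hyperplanes through `d - 1` points.

PROOF. Put `hat z := (z, 1) : Pt d × ℝ` (finrank `d + 1`) and `W := span {hat b | b ∈ B}`; `B` is affinely independent (`hV B`), so the `hat b` are linearly independent and `finrank W = d - 1` (a linear relation `∑ c_b hat b = 0` says `∑ c_b = 0`, `∑ c_b b = 0`: `affineIndependent_iff`). The quotient `(Pt d × ℝ) / W` has finrank 2; take a linear equivalence to `ℝ × ℝ`; `φ : Pt d × ℝ →ₗ ℝ × ℝ` the composition with `mkQ`, `ker φ = W`. `p z := φ (hat z)`.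
(1) If `dt (p x) (p y) = 0`, there are `(α, β) ≠ 0` with `α p x + β p y = 0`, so `α hat x + β hat y ∈ W`: a nontrivial linear relation between `hat x, hat y, hat b` (`b ∈ B`), i.e. an affine relation between the `d + 1` points `B ∪ {x, y}`, contradiction to `hV`.
(2) `g z := dt (p a) (p z)` is affine in `z`. `Sep p a e` gives `x, y ∈ e` with `g x ≤ 0 ≤ g y`, hence `z` on the segment `[x, y]` (so in the convex hull of `e`) with `g z = 0` (`z = s x + t y`, `s = g y / (g y - g x)`; if `g y = g x` both are `0`, take `z = x`). `p a ≠ 0` (otherwise `hat a ∈ W`, contradiction to the independence of `B ∪ {a}`), so `p z = λ p a`, `hat z - λ hat a ∈ W`: `z = λ a + ∑ μ_b b`, `1 = λ + ∑ μ_b`, so `z` is in the affine span of `insert a B` (`mem_affineSpan`-type, `affineCombination_mem_affineSpan`, or `z = a + ∑ μ_b (b - a)`). -/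

set_option autoImplicit false

open Module Finset

namespace Pool.Agent.H9.SC

open Pool.Agent.H68

private def Pcl_hat {d : ℕ} (z : Pt d) : Pt d × ℝ := (z, 1)

private theorem Pcl_lin {d : ℕ} {T : Finset (Pt d)} (h : AffineIndependent ℝ ((↑) : T → Pt d)) :
    LinearIndepOn ℝ (Pcl_hat (d := d)) (T : Set (Pt d)) := by
  rw [affineIndependent_iff] at h
  have h2 : LinearIndependent ℝ (fun x : (T : Set (Pt d)) => Pcl_hat (x : Pt d)) := by
    rw [linearIndependent_iff']
    intro s w hs i hi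
    have h3 : ∑ e ∈ s, w e = 0 := by
      have h4 := congrArg Prod.snd hs
      rw [Prod.snd_sum] at h4
      simpa [Pcl_hat] using h4
    have h5 : ∑ e ∈ s, w e • (e : Pt d) = 0 := by
      have h4 := congrArg Prod.fst hs
      rw [Prod.fst_sum] at h4
      simpa [Pcl_hat] using h4
    exact h s w h3 h5 i hi
  exact h2

private theorem Pcl_aff {d : ℕ} (S : Finset (Pt d)) (z : Pt d)
    (h : Pcl_hat z ∈ Submodule.span ℝ (Pcl_hat '' (S : Set (Pt d)))) :
    z ∈ affineSpan ℝ (S : Set (Pt d)) := by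
  rw [Submodule.mem_span_image_finset_iff_exists_fun] at h
  obtain ⟨c, hc⟩ := h
  have h1 : ∑ i : S, c i = 1 := by
    have h4 := congrArg Prod.snd hc
    rw [Prod.snd_sum] at h4
    simpa [Pcl_hat] using h4
  have h2 : ∑ i : S, c i • (i : Pt d) = z := by
    have h4 := congrArg Prod.fst hc
    rw [Prod.fst_sum] at h4
    simpa [Pcl_hat] using h4
  have h3 := affineCombination_mem_affineSpan h1 (fun i : S => (i : Pt d))
  rw [Finset.affineCombination_eq_linear_combination _ _ _ h1, h2] at h3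
  have h5 : Set.range (fun i : S => (i : Pt d)) = (S : Set (Pt d)) := by
    ext x
    constructor
    · rintro ⟨y, rfl⟩
      exact y.2
    · intro hx
      exact ⟨⟨x, hx⟩, rfl⟩
  rw [h5] at h3
  exact h3

private theorem Pcl_phi {d : ℕ} (hd : 1 ≤ d) (B : Finset (Pt d)) (hBc : B.card = d - 1)
    (hl : LinearIndepOn ℝ (Pcl_hat (d := d)) (B : Set (Pt d))) :
    ∃ φ : (Pt d × ℝ) →ₗ[ℝ] (ℝ × ℝ), ∀ v, φ v = 0 ↔
      v ∈ Submodule.span ℝ (Pcl_hat '' (B : Set (Pt d))) := by
  obtain ⟨W, hW⟩ : ∃ W, W = Submodule.span ℝ (Pcl_hat '' (B : Set (Pt d))) := ⟨_, rfl⟩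
  have h1 : finrank ℝ W = d - 1 := by
    have h2 : LinearIndependent ℝ (fun x : B => Pcl_hat (x : Pt d)) := hl
    have h3 := finrank_span_eq_card h2
    have h4 : Set.range (fun x : B => Pcl_hat (x : Pt d)) = Pcl_hat '' (B : Set (Pt d)) := by
      ext x
      constructor
      · rintro ⟨y, rfl⟩
        exact ⟨y, y.2, rfl⟩
      · rintro ⟨y, hy, rfl⟩
        exact ⟨⟨y, hy⟩, rfl⟩
    rw [h4, Fintype.card_coe, hBc, ← hW] at h3
    exact h3
  have h2 : finrank ℝ (Pt d × ℝ) = d + 1 := by
    rw [finrank_prod, finrank_euclideanSpace_fin, finrank_self]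
  have h3 : finrank ℝ ((Pt d × ℝ) ⧸ W) = finrank ℝ (ℝ × ℝ) := by
    have h4 := Submodule.finrank_quotient_add_finrank W
    rw [finrank_prod, finrank_self]
    omega
  refine ⟨(LinearEquiv.ofFinrankEq ((Pt d × ℝ) ⧸ W) (ℝ × ℝ) h3).toLinearMap.comp W.mkQ, ?_⟩
  intro v
  rw [← hW]
  simp

private theorem Pcl_dep {p q : ℝ × ℝ} (h : dt p q = 0) : ∃ α β : ℝ, (α ≠ 0 ∨ β ≠ 0) ∧
    α • p + β • q = 0 := by
  unfold dt at h
  by_cases h1 : q = 0
  · exact ⟨0, 1, Or.inr one_ne_zero, by rw [h1]; simp⟩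
  · by_cases h2 : q.1 = 0
    · have h3 : q.2 ≠ 0 := fun h3 => h1 (Prod.ext h2 h3)
      refine ⟨q.2, -p.2, Or.inl h3, ?_⟩
      ext
      · simp only [Prod.fst_add, Prod.smul_fst, smul_eq_mul, Prod.fst_zero]
        linarith
      · simp only [Prod.snd_add, Prod.smul_snd, smul_eq_mul, Prod.snd_zero]
        ring
    · refine ⟨q.1, -p.1, Or.inl h2, ?_⟩
      ext
      · simp only [Prod.fst_add, Prod.smul_fst, smul_eq_mul, Prod.fst_zero]
        ring
      · simp only [Prod.snd_add, Prod.smul_snd, smul_eq_mul, Prod.snd_zero]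
        linarith

private theorem Pcl_par {p q : ℝ × ℝ} (hp : p ≠ 0) (h : dt p q = 0) : ∃ l : ℝ, q = l • p := by
  unfold dt at h
  by_cases h2 : p.1 = 0
  · have h3 : p.2 ≠ 0 := fun h3 => hp (Prod.ext h2 h3)
    refine ⟨q.2 / p.2, ?_⟩
    ext
    · simp only [Prod.smul_fst, smul_eq_mul]
      have : p.2 * q.1 = 0 := by
        rw [h2] at h
        linarith
      rcases mul_eq_zero.1 this with h4 | h4
      · exact absurd h4 h3
      · rw [h4, h2, mul_zero]
    · simp only [Prod.smul_snd, smul_eq_mul]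
      field_simp
  · refine ⟨q.1 / p.1, ?_⟩
    ext
    · simp only [Prod.smul_fst, smul_eq_mul]
      field_simp
    · simp only [Prod.smul_snd, smul_eq_mul]
      field_simp
      linarith

private theorem Pcl_seg {g1 g2 : ℝ} (h1 : g1 ≤ 0) (h2 : 0 ≤ g2) : ∃ s t : ℝ, 0 ≤ s ∧ 0 ≤ t ∧
    s + t = 1 ∧ s * g1 + t * g2 = 0 := by
  by_cases h : g1 = 0
  · exact ⟨1, 0, zero_le_one, le_refl _, by norm_num, by rw [h]; ring⟩
  · have h3 : g1 < 0 := lt_of_le_of_ne h1 h
    have h4 : 0 < g2 - g1 := by linarith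
    refine ⟨g2 / (g2 - g1), -g1 / (g2 - g1), div_nonneg h2 h4.le, div_nonneg (by linarith) h4.le,
      ?_, ?_⟩
    · field_simp
      ring
    · field_simp
      ring

theorem pencil {d : ℕ} (hd : 1 ≤ d) (V : Finset (Pt d)) (hV : GPs V) (B : Finset (Pt d)) (hB : B ⊆ V)
    (hBc : B.card = d - 1) : ∃ p : Pt d → ℝ × ℝ,
      (∀ x ∈ V, x ∉ B → ∀ y ∈ V, y ∉ B → x ≠ y → dt (p x) (p y) ≠ 0) ∧
      ∀ a ∈ V, a ∉ B → ∀ e : Finset (Pt d), Sep p a e →
        Meets (affineSpan ℝ ((insert a B : Finset (Pt d)) : Set (Pt d))) e := by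
  classical
  have hBV : ∀ T ⊆ V, T.card ≤ d + 1 → LinearIndepOn ℝ (Pcl_hat (d := d)) (T : Set (Pt d)) :=
    fun T hT hc => Pcl_lin (hV T hT hc)
  obtain ⟨φ, hφ⟩ := Pcl_phi hd B hBc (hBV B hB (by omega))
  have key1 : ∀ a ∈ V, a ∉ B → Pcl_hat a ∉ Submodule.span ℝ (Pcl_hat '' (B : Set (Pt d))) := by
    intro a ha haB
    have h1 := hBV (insert a B) (Finset.insert_subset ha hB) (by
      rw [Finset.card_insert_of_notMem haB]
      omega)
    rw [Finset.coe_insert] at h1
    exact h1.notMem_span_of_insert (by simpa using haB)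
  refine ⟨fun z => φ (Pcl_hat z), ?_, ?_⟩
  · intro x hx hxB y hy hyB hxy hdt
    obtain ⟨α, β, hab, h0⟩ := Pcl_dep hdt
    have h1 : α • Pcl_hat x + β • Pcl_hat y ∈ Submodule.span ℝ (Pcl_hat '' (B : Set (Pt d))) := by
      rw [← hφ, map_add, map_smul, map_smul]
      exact h0
    have hyx : x ∉ insert y B := by
      rw [Finset.mem_insert]
      rintro (h | h)
      · exact hxy h
      · exact hxB h
    have h2 := hBV (insert x (insert y B))
      (Finset.insert_subset hx (Finset.insert_subset hy hB)) (by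
      rw [Finset.card_insert_of_notMem hyx, Finset.card_insert_of_notMem hyB]
      omega)
    rw [Finset.coe_insert] at h2
    have h3 := h2.notMem_span_of_insert (by simpa using hyx)
    by_cases hα : α = 0
    · have hβ : β ≠ 0 := by
        rcases hab with h | h
        · exact absurd hα h
        · exact h
      rw [hα, zero_smul, zero_add] at h1
      have h4 := (Submodule.smul_mem_iff _ hβ).1 h1
      exact key1 y hy hyB h4
    · have hsub : Submodule.span ℝ (Pcl_hat '' (B : Set (Pt d))) ≤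
          Submodule.span ℝ (Pcl_hat '' ((insert y B : Finset (Pt d)) : Set (Pt d))) := by
        apply Submodule.span_mono
        apply Set.image_mono
        rw [Finset.coe_insert]
        exact Set.subset_insert _ _
      have h5 : Pcl_hat y ∈ Submodule.span ℝ
          (Pcl_hat '' ((insert y B : Finset (Pt d)) : Set (Pt d))) := by
        apply Submodule.subset_span
        refine ⟨y, ?_, rfl⟩
        rw [Finset.coe_insert]
        exact Set.mem_insert _ _
      have h6 := Submodule.sub_mem _ (hsub h1) (Submodule.smul_mem _ β h5)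
      rw [add_sub_cancel_right] at h6
      exact h3 ((Submodule.smul_mem_iff _ hα).1 h6)
  · intro a ha haB e hsep
    obtain ⟨x, hx, y, hy, h1, h2⟩ := hsep
    obtain ⟨s, t, hs, ht, hst, h0⟩ := Pcl_seg h1 h2
    have hz : Pcl_hat (s • x + t • y) = s • Pcl_hat x + t • Pcl_hat y := by
      unfold Pcl_hat
      ext
      · simp
      · simp [hst]
    have hpa : φ (Pcl_hat a) ≠ 0 := by
      intro h
      exact key1 a ha haB ((hφ _).1 h)
    have hdt : dt (φ (Pcl_hat a)) (φ (Pcl_hat (s • x + t • y))) = 0 := by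
      rw [hz, map_add, map_smul, map_smul]
      unfold dt at h0 ⊢
      simp only [Prod.fst_add, Prod.snd_add, Prod.smul_fst, Prod.smul_snd, smul_eq_mul]
      linarith
    obtain ⟨l, hl⟩ := Pcl_par hpa hdt
    refine ⟨s • x + t • y, ?_, ?_⟩
    · apply Pcl_aff
      have h3 : Pcl_hat (s • x + t • y) - l • Pcl_hat a ∈
          Submodule.span ℝ (Pcl_hat '' (B : Set (Pt d))) := by
        rw [← hφ, map_sub, map_smul, hl, sub_self]
      have hsub : Submodule.span ℝ (Pcl_hat '' (B : Set (Pt d))) ≤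
          Submodule.span ℝ (Pcl_hat '' ((insert a B : Finset (Pt d)) : Set (Pt d))) := by
        apply Submodule.span_mono
        apply Set.image_mono
        rw [Finset.coe_insert]
        exact Set.subset_insert _ _
      have h5 : Pcl_hat a ∈ Submodule.span ℝ
          (Pcl_hat '' ((insert a B : Finset (Pt d)) : Set (Pt d))) := by
        apply Submodule.subset_span
        refine ⟨a, ?_, rfl⟩
        rw [Finset.coe_insert]
        exact Set.mem_insert _ _
      have h6 := Submodule.add_mem _ (hsub h3) (Submodule.smul_mem _ l h5)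
      rw [sub_add_cancel] at h6
      exact h6
    · have hxc : x ∈ convexHull ℝ (e : Set (Pt d)) := subset_convexHull ℝ _ hx
      have hyc : y ∈ convexHull ℝ (e : Set (Pt d)) := subset_convexHull ℝ _ hy
      exact (convex_convexHull ℝ (e : Set (Pt d))) hxc hyc hs ht hst

end Pool.Agent.H9.SC
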