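import Pool.Agent.H9.SC.Cnt

/-! # SC.Wts

The discrete Legendre inequality for the weights.

PROOF. For `u : ℕ` let `N u := #{e ∈ 𝒜 | w e ≤ u}`. Claim: `(r-1)! * N u ≤ r * u^(r-1)`. If `u < S.card`: `w e ≤ u` and `hw` give `1 + (c y - c z) ≤ u` for all `y, z ∈ e`, so `e.image c` (`c` injective on `S ⊇ e`) is an `r`-set of integers with `0 ∈`, `y - x < u`: `cnt_diam`; `e ↦ e.image c` is injective on subsets of `S`. If `S.card ≤ u`: all `e \ {x₀}` are `(r-1)`-subsets of `S.erase x₀`, so `N u ≤ 𝒜.card ≤ (S.card - 1).choose (r-1)`, and `(r-1)! * choose ≤ u^(r-1) ≤ r u^(r-1)`.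
Then `U * 𝒜.card ≤ ∑ w e + ∑_e (U - w e)` (natural subtraction), `∑_e (U - w e) = ∑_(u < U) N u` (`U - w e = #{u ∈ range U | w e ≤ u}`, swap the sums), `(r-1)! ∑_(u<U) N u ≤ ∑_(u<U) r u^(r-1) ≤ U^r` (induction: `u^r + r u^(r-1) ≤ (u+1)^r`, Bernoulli / binomial theorem). -/

set_option autoImplicit false

open Module Finset

namespace Pool.Agent.H9.SC

open Pool.Agent.H68

private lemma wts_img {α : Type} [DecidableEq α] {S : Finset α} {c : α → ℤ}
    (hc : Set.InjOn c S) {e e' : Finset α} (he : e ⊆ S) (he' : e' ⊆ S)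
    (h : e.image c = e'.image c) : e ⊆ e' := by
  intro a ha
  have h1 : c a ∈ e'.image c := h ▸ mem_image_of_mem c ha
  obtain ⟨b, hb, hba⟩ := mem_image.mp h1
  rwa [← hc (he' hb) (he ha) hba]

private lemma wts_choose {α : Type} [DecidableEq α] {r : ℕ} (S : Finset α) (x₀ : α) (hx : x₀ ∈ S)
    (𝒜 : Finset (Finset α)) (h𝒜 : ∀ e ∈ 𝒜, e ⊆ S ∧ x₀ ∈ e ∧ e.card = r) :
    𝒜.card ≤ (S.card - 1).choose (r - 1) := by
  rw [← card_erase_of_mem hx, ← card_powersetCard]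
  refine card_le_card_of_injOn (fun e => e.erase x₀) ?_ ?_
  · intro e he
    obtain ⟨h1, h2, h3⟩ := h𝒜 e he
    rw [mem_coe, mem_powersetCard]
    exact ⟨erase_subset_erase _ h1, by rw [card_erase_of_mem h2, h3]⟩
  · intro e he e' he' h
    have h1 : insert x₀ (e.erase x₀) = insert x₀ (e'.erase x₀) := congrArg (insert x₀) h
    rwa [insert_erase (h𝒜 e he).2.1, insert_erase (h𝒜 e' he').2.1] at h1

private lemma wts_level {α : Type} [DecidableEq α] {r : ℕ} (hr : 1 ≤ r) (S : Finset α) (x₀ : α)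
    (hx : x₀ ∈ S) (c : α → ℤ) (hc : Set.InjOn c S) (h0 : c x₀ = 0) (𝒜 : Finset (Finset α))
    (h𝒜 : ∀ e ∈ 𝒜, e ⊆ S ∧ x₀ ∈ e ∧ e.card = r) (w : Finset α → ℕ)
    (hw : ∀ e ∈ 𝒜, ∀ y ∈ e, ∀ z ∈ e, min (S.card : ℤ) (1 + (c y - c z)) ≤ (w e : ℤ)) (u : ℕ) :
    (r - 1).factorial * (𝒜.filter (fun e => w e ≤ u)).card ≤ r * u ^ (r - 1) := by
  rcases Nat.lt_or_ge u S.card with hu | hu
  · have h1 : ∀ e' ∈ (𝒜.filter (fun e => w e ≤ u)).image (fun e => e.image c),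
        (0 : ℤ) ∈ e' ∧ e'.card = r ∧ ∀ x ∈ e', ∀ y ∈ e', y - x < (u : ℤ) := by
      intro e' he'
      obtain ⟨e, he, rfl⟩ := mem_image.mp he'
      obtain ⟨heA, hwu⟩ := mem_filter.mp he
      obtain ⟨heS, hxe, hcard⟩ := h𝒜 e heA
      refine ⟨mem_image.mpr ⟨x₀, hxe, h0⟩, ?_, ?_⟩
      · rw [card_image_of_injOn (hc.mono (by exact_mod_cast heS))]
        exact hcard
      · intro x hx y hy
        obtain ⟨a, ha, rfl⟩ := mem_image.mp hx
        obtain ⟨b, hb, rfl⟩ := mem_image.mp hy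
        have h2 := hw e heA b hb a ha
        have h3 : (w e : ℤ) ≤ u := by exact_mod_cast hwu
        have h4 : (u : ℤ) < S.card := by exact_mod_cast hu
        rcases min_le_iff.mp (h2.trans h3) with h5 | h5
        · omega
        · omega
    have h2 := cnt_diam hr u _ h1
    rwa [card_image_of_injOn] at h2
    intro e he e' he' h
    have g1 := (h𝒜 e (mem_filter.mp (mem_coe.mp he)).1).1
    have g2 := (h𝒜 e' (mem_filter.mp (mem_coe.mp he')).1).1
    exact Subset.antisymm (wts_img hc g1 g2 h) (wts_img hc g2 g1 h.symm)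
  · have h1 : (𝒜.filter (fun e => w e ≤ u)).card ≤ (S.card - 1).choose (r - 1) :=
      (card_filter_le _ _).trans (wts_choose S x₀ hx 𝒜 h𝒜)
    calc (r - 1).factorial * (𝒜.filter (fun e => w e ≤ u)).card
        ≤ (r - 1).factorial * (S.card - 1).choose (r - 1) := Nat.mul_le_mul_left _ h1
      _ = (S.card - 1).descFactorial (r - 1) :=
          (Nat.descFactorial_eq_factorial_mul_choose _ _).symm
      _ ≤ (S.card - 1) ^ (r - 1) := Nat.descFactorial_le_pow _ _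
      _ ≤ u ^ (r - 1) := Nat.pow_le_pow_left (by omega) _
      _ = 1 * u ^ (r - 1) := (one_mul _).symm
      _ ≤ r * u ^ (r - 1) := Nat.mul_le_mul_right _ hr

private lemma wts_pow (U s : ℕ) : U ^ (s + 1) + (s + 1) * U ^ s ≤ (U + 1) ^ (s + 1) := by
  induction s with
  | zero => simp
  | succ s ih =>
    calc U ^ (s + 1 + 1) + (s + 1 + 1) * U ^ (s + 1)
        ≤ (U ^ (s + 1) + (s + 1) * U ^ s) * (U + 1) := by
          have : U ^ (s + 1) = U ^ s * U := pow_succ _ _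
          have h2 : U ^ (s + 1 + 1) = U ^ s * U * U := by rw [pow_succ, pow_succ]
          rw [h2, this]
          nlinarith [Nat.zero_le (U ^ s), Nat.zero_le (s * U ^ s)]
      _ ≤ (U + 1) ^ (s + 1) * (U + 1) := Nat.mul_le_mul_right _ ih
      _ = (U + 1) ^ (s + 1 + 1) := (pow_succ _ _).symm

theorem weights {α : Type} [DecidableEq α] {r : ℕ} (hr : 1 ≤ r) (S : Finset α) (x₀ : α) (hx : x₀ ∈ S)
    (c : α → ℤ) (hc : Set.InjOn c S) (h0 : c x₀ = 0) (𝒜 : Finset (Finset α))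
    (h𝒜 : ∀ e ∈ 𝒜, e ⊆ S ∧ x₀ ∈ e ∧ e.card = r) (w : Finset α → ℕ)
    (hw : ∀ e ∈ 𝒜, ∀ y ∈ e, ∀ z ∈ e, min (S.card : ℤ) (1 + (c y - c z)) ≤ (w e : ℤ)) (U : ℕ) :
    (r - 1).factorial * (U * 𝒜.card) ≤ (r - 1).factorial * (∑ e ∈ 𝒜, w e) + U ^ r := by
  have key : ∀ U : ℕ, (r - 1).factorial * (∑ e ∈ 𝒜, (U - w e)) ≤ U ^ r := by
    intro U
    induction U with
    | zero => simp
    | succ U ih =>
      have h1 : ∑ e ∈ 𝒜, (U + 1 - w e) = ∑ e ∈ 𝒜, (U - w e) +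
          (𝒜.filter (fun e => w e ≤ U)).card := by
        rw [card_filter, ← sum_add_distrib]
        refine sum_congr rfl fun e _ => ?_
        split_ifs with h
        · omega
        · omega
      have h2 := wts_level hr S x₀ hx c hc h0 𝒜 h𝒜 w hw U
      obtain ⟨s, rfl⟩ : ∃ s, r = s + 1 := ⟨r - 1, by omega⟩
      have h3 := wts_pow U s
      rw [Nat.add_sub_cancel] at h2 ih ⊢
      rw [h1, Nat.mul_add]
      exact (Nat.add_le_add ih h2).trans h3
  have h1 : U * 𝒜.card ≤ ∑ e ∈ 𝒜, w e + ∑ e ∈ 𝒜, (U - w e) := by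
    rw [← sum_add_distrib, mul_comm, ← smul_eq_mul, ← sum_const]
    exact sum_le_sum fun e _ => by omega
  calc (r - 1).factorial * (U * 𝒜.card)
      ≤ (r - 1).factorial * (∑ e ∈ 𝒜, w e + ∑ e ∈ 𝒜, (U - w e)) := Nat.mul_le_mul_left _ h1
    _ = (r - 1).factorial * (∑ e ∈ 𝒜, w e) + (r - 1).factorial * (∑ e ∈ 𝒜, (U - w e)) :=
        Nat.mul_add _ _ _
    _ ≤ _ := Nat.add_le_add_left (key U) _

end Pool.Agent.H9.SC
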