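import Pool.Agent.H9.SC.Pcl
import Pool.Agent.H9.SC.Crd
import Pool.Agent.H9.SC.Wts

/-! # SC.Pes

Lower bound for the sum of `pe` over the edges of a star.

PROOF. `pcw`: `pencil` for `B`, `coord` for `S` (all points of `S` are in `V` and not in `B`), `Sep p a e` implies that `a` is counted in `pc S B e`; `weights` with `w e := pc S B e`.
`pe_ge`: the map `(B, a) ↦ insert a B` from the pairs with `B ∈ (V \ S).powersetCard (d-1)`, `a ∈ S`, hyperplane meets `e`, to the `d`-subsets counted by `pe V e` is injective (`a` is the only point of `insert a B` in `S`). Write the number of pairs as `∑ B, pc S B e` (`card_sigma` or `card_biUnion`).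
`pe_sum`: sum `pcw` over all `B ∈ (V \ S).powersetCard (d-1)`, whose number is `(V.card - S.card).choose (d-1)`. -/

set_option autoImplicit false

open Module Finset

namespace Pool.Agent.H9.SC

open Pool.Agent.H68

theorem pcw {d r : ℕ} (hd : 1 ≤ d) (hr : 1 ≤ r) (V : Finset (Pt d)) (hV : GPs V) (S : Finset (Pt d))
    (hS : S ⊆ V) (x₀ : Pt d) (hx : x₀ ∈ S) (B : Finset (Pt d)) (hB : B ⊆ V) (hBS : Disjoint B S)
    (hBc : B.card = d - 1) (𝒜 : Finset (Finset (Pt d)))
    (h𝒜 : ∀ e ∈ 𝒜, e ⊆ S ∧ x₀ ∈ e ∧ e.card = r) (U : ℕ) :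
    (r - 1).factorial * (U * 𝒜.card) ≤ (r - 1).factorial * (∑ e ∈ 𝒜, pc S B e) + U ^ r := by
  classical
  obtain ⟨p, h1, h2⟩ := pencil hd V hV B hB hBc
  have hnB : ∀ x ∈ S, x ∉ B := fun x hxS hxB => (Finset.disjoint_left.1 hBS hxB) hxS
  obtain ⟨c, hc, h0, hcc⟩ := coord S x₀ hx p fun x hxS y hyS hne =>
    h1 x (hS hxS) (hnB x hxS) y (hS hyS) (hnB y hyS) hne
  refine weights hr S x₀ hx c hc h0 𝒜 h𝒜 (fun e => pc S B e) (fun e he y hy z hz => ?_) U
  refine (hcc e (h𝒜 e he).1 (h𝒜 e he).2.1 y hy z hz).trans ?_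
  unfold pc
  refine Int.ofNat_le.2 (Finset.card_le_card fun a ha => ?_)
  rw [Finset.mem_filter] at ha ⊢
  refine ⟨ha.1, ?_⟩
  have h3 := h2 a (hS ha.1) (hnB a ha.1) e ha.2
  convert h3

open Classical in
/-- the definition of `pe` as a count of finsets -/
theorem pe_eq {d : ℕ} (V e : Finset (Pt d)) :
    pe V e = ((V.powersetCard d).filter fun D : Finset (Pt d) =>
      Meets (affineSpan ℝ ((D : Finset (Pt d)) : Set (Pt d))) e).card := by
  unfold pe
  symm
  refine Finset.card_bij (fun D _ => (D : Set (Pt d))) ?_ ?_ ?_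
  · intro D hD
    rw [Finset.mem_filter] at hD ⊢
    refine ⟨?_, hD.2⟩
    simp only [Finset.bind_def, Finset.pure_def, Finset.mem_sup]
    exact ⟨D, hD.1, by simp⟩
  · intro D _ D' _ h
    exact Finset.coe_injective h
  · intro D hD
    rw [Finset.mem_filter] at hD
    obtain ⟨h1, h2⟩ := hD
    simp only [Finset.bind_def, Finset.pure_def, Finset.mem_sup] at h1
    obtain ⟨D', hD', h3⟩ := h1
    rw [Finset.mem_singleton] at h3
    refine ⟨D', Finset.mem_filter.2 ⟨hD', ?_⟩, h3.symm⟩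
    rw [← h3]
    exact h2

private lemma Pes_card {d : ℕ} (hd : 1 ≤ d) {V S : Finset (Pt d)}
    {B : Finset (Pt d)} {a : Pt d} (hB : B ⊆ V) (hBS : ∀ x ∈ B, x ∉ S) (hBc : B.card = d - 1)
    (ha : a ∈ S) (hS : S ⊆ V) [DecidableEq (Pt d)] :
    insert a B ⊆ V ∧ (insert a B).card = d := by
  refine ⟨Finset.insert_subset (hS ha) hB, ?_⟩
  rw [Finset.card_insert_of_notMem fun h => hBS a h ha, hBc]
  omega

theorem pe_ge {d : ℕ} (hd : 1 ≤ d) (V S e : Finset (Pt d)) (hS : S ⊆ V) :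
    ∑ B ∈ (V \ S).powersetCard (d - 1), pc S B e ≤ pe V e := by
  classical
  rw [pe_eq]
  unfold pc
  rw [← Finset.card_sigma]
  refine Finset.card_le_card_of_injOn
    (fun x : (_ : Finset (Pt d)) × Pt d => (insert x.2 x.1 : Finset (Pt d))) ?_ ?_
  · rintro ⟨B, a⟩ hx
    have hx' := Finset.mem_sigma.1 (Finset.mem_coe.1 hx)
    obtain ⟨hB, ha⟩ := hx'
    simp only [Finset.mem_filter, Finset.mem_powersetCard] at hB ha
    have hBV : B ⊆ V := fun x hx => (Finset.mem_sdiff.1 (hB.1 hx)).1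
    have hBS : ∀ x ∈ B, x ∉ S := fun x hx => (Finset.mem_sdiff.1 (hB.1 hx)).2
    obtain ⟨e1, e2⟩ := Pes_card hd hBV hBS hB.2 ha.1 hS
    refine Finset.mem_coe.2 (Finset.mem_filter.2 ⟨Finset.mem_powersetCard.2 ⟨?_, ?_⟩, ?_⟩)
    · exact e1
    · exact e2
    · have h3 := ha.2
      convert h3
  · rintro ⟨B, a⟩ hx ⟨B', a'⟩ hx' heq
    have hx1 := Finset.mem_sigma.1 (Finset.mem_coe.1 hx)
    have hx1' := Finset.mem_sigma.1 (Finset.mem_coe.1 hx')
    obtain ⟨hB, ha⟩ := hx1
    obtain ⟨hB', ha'⟩ := hx1'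
    simp only [Finset.mem_filter, Finset.mem_powersetCard] at hB ha hB' ha'
    have hBS : ∀ x ∈ B, x ∉ S := fun x hx => (Finset.mem_sdiff.1 (hB.1 hx)).2
    have hBS' : ∀ x ∈ B', x ∉ S := fun x hx => (Finset.mem_sdiff.1 (hB'.1 hx)).2
    simp only at heq
    have e1 : a = a' := by
      have h1 : a ∈ insert a' B' := by
        rw [← heq]
        exact Finset.mem_insert_self a B
      rcases Finset.mem_insert.1 h1 with h2 | h2
      · exact h2
      · exact absurd ha.1 (hBS' a h2)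
    have e2 : B = B' := by
      ext x
      constructor
      · intro h
        have h1 : x ∈ insert a' B' := by
          rw [← heq]
          exact Finset.mem_insert_of_mem h
        rcases Finset.mem_insert.1 h1 with h2 | h2
        · exact absurd (h2 ▸ ha'.1) (hBS x h)
        · exact h2
      · intro h
        have h1 : x ∈ insert a B := by
          rw [heq]
          exact Finset.mem_insert_of_mem h
        rcases Finset.mem_insert.1 h1 with h2 | h2
        · exact absurd (h2 ▸ ha.1) (hBS' x h)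
        · exact h2
    rw [e1, e2]

theorem pe_sum {d r : ℕ} (hd : 1 ≤ d) (hr : 1 ≤ r) (V : Finset (Pt d)) (hV : GPs V) (S : Finset (Pt d))
    (hS : S ⊆ V) (x₀ : Pt d) (hx : x₀ ∈ S) (𝒜 : Finset (Finset (Pt d)))
    (h𝒜 : ∀ e ∈ 𝒜, e ⊆ S ∧ x₀ ∈ e ∧ e.card = r) (U : ℕ) :
    ((V.card - S.card).choose (d - 1)) * ((r - 1).factorial * (U * 𝒜.card)) ≤
      (r - 1).factorial * (∑ e ∈ 𝒜, pe V e) + ((V.card - S.card).choose (d - 1)) * U ^ r := by
  classical
  have hN : ((V \ S).powersetCard (d - 1)).card = (V.card - S.card).choose (d - 1) := by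
    rw [Finset.card_powersetCard, Finset.card_sdiff_of_subset hS]
  have h1 : ∀ B ∈ (V \ S).powersetCard (d - 1),
      (r - 1).factorial * (U * 𝒜.card) ≤ (r - 1).factorial * (∑ e ∈ 𝒜, pc S B e) + U ^ r := by
    intro B hB
    rw [Finset.mem_powersetCard] at hB
    have hBV : B ⊆ V := fun x hx => (Finset.mem_sdiff.1 (hB.1 hx)).1
    have hBS : Disjoint B S := Finset.disjoint_left.2 fun x hx => (Finset.mem_sdiff.1 (hB.1 hx)).2
    exact pcw hd hr V hV S hS x₀ hx B hBV hBS hB.2 𝒜 h𝒜 U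
  have h2 := Finset.sum_le_sum h1
  rw [Finset.sum_const, hN, smul_eq_mul, Finset.sum_add_distrib, ← Finset.mul_sum, Finset.sum_const, hN,
    smul_eq_mul, Finset.sum_comm] at h2
  refine h2.trans (Nat.add_le_add_right (Nat.mul_le_mul_left _ (Finset.sum_le_sum fun e _ => ?_)) _)
  exact pe_ge hd V S e hS

end Pool.Agent.H9.SC
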