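import Pool.Agent.H9.SC.Defs

/-! # SC.Win

The window hypergraph.

PROOF. `win_card`: `(a, B) ↦ {a} ∪ (a + B)`, `a < n - w`, `B` an `(r-1)`-subset of `{1, .., w}`, is injective into `win n r w` (`a` is the minimum).
`win_cov`: an `e` of the filter has minimum `a`, maximum `b = a + t`, `1 ≤ t ≤ w` (`r ≥ 2`), `a ≤ τ ≤ a + t` (the minimum is `≤ i ≤ τ`, the maximum `≥ j ≥ τ`), and `e \ {a, b} - a` is an `(r-2)`-subset of `{1, .., t-1}`. For fixed `t` the integers `a` with `τ - t ≤ a ≤ τ` are at most `t + 1` (in terms of `⌊τ⌋`: `a = ⌊τ⌋ - i`, `0 ≤ i ≤ t`). So at most `∑_(t=1)^w (t+1) (t-1).choose (r-2)`; `t (t-1).choose (r-2) = (r-1) t.choose (r-1)` (`Nat.succ_mul_choose_eq` / `add_one_mul_choose_eq`), `∑_(t ≤ w) t.choose (r-1) = (w+1).choose r` (`Nat.sum_range_choose..` / `Nat.sum_Icc_choose`), `∑_(t=1)^w (t-1).choose (r-2) = w.choose (r-1)`.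
(An injective map: `e ↦ (t, ⌊τ⌋ - a, (e \ {a,b}) - a)`, into a sigma type; or bound fibrewise.) -/

set_option autoImplicit false

open Module Finset

namespace Pool.Agent.H9.SC

open Pool.Agent.H68

private def Win_g (n : ℕ) (T : Finset ℕ) : Finset (Fin n) := univ.filter fun i : Fin n => (i : ℕ) ∈ T

private lemma Win_g_mem {n : ℕ} {T : Finset ℕ} {i : Fin n} : i ∈ Win_g n T ↔ (i : ℕ) ∈ T := by
  unfold Win_g
  simp

private lemma Win_g_map {n : ℕ} {T : Finset ℕ} (hT : ∀ x ∈ T, x < n) :
    (Win_g n T).map Fin.valEmbedding = T := by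
  ext x
  rw [Finset.mem_map]
  constructor
  · rintro ⟨i, hi, rfl⟩
    exact Win_g_mem.1 hi
  · intro hx
    exact ⟨⟨x, hT x hx⟩, Win_g_mem.2 hx, rfl⟩

private lemma Win_T_lt {n w a : ℕ} (hw : w ≤ n) (ha : a < n - w) {B : Finset ℕ} (hB : B ⊆ Icc 1 w) :
    ∀ x ∈ (insert 0 B).image (fun b => a + b), x < n := by
  intro x hx
  rw [Finset.mem_image] at hx
  obtain ⟨b, hb, rfl⟩ := hx
  have : b ≤ w := by
    rcases Finset.mem_insert.1 hb with h | h
    · omega
    · exact (Finset.mem_Icc.1 (hB h)).2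
  omega

theorem win_card {n r w : ℕ} (hr : 2 ≤ r) (hw : w ≤ n) :
    (n - w) * w.choose (r - 1) ≤ (win n r w).card := by
  have h1 : (n - w) * w.choose (r - 1) =
      ((range (n - w)) ×ˢ (powersetCard (r - 1) (Icc 1 w))).card := by
    rw [Finset.card_product, Finset.card_range, Finset.card_powersetCard, Nat.card_Icc]
    simp
  rw [h1]
  refine Finset.card_le_card_of_injOn
    (fun p => Win_g n ((insert 0 p.2).image (fun b => p.1 + b))) ?_ ?_
  · rintro ⟨a, B⟩ hp
    rw [Finset.mem_coe, Finset.mem_product, Finset.mem_range, Finset.mem_powersetCard] at hp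
    obtain ⟨ha, hB, hc⟩ := hp
    simp only at ha hB hc
    rw [Finset.mem_coe]
    simp only
    unfold win
    rw [Finset.mem_filter, Finset.mem_powersetCard]
    refine ⟨⟨subset_univ _, ?_⟩, ?_⟩
    · rw [← Finset.card_map Fin.valEmbedding, Win_g_map (Win_T_lt hw ha hB),
        Finset.card_image_of_injective _ (add_right_injective a), Finset.card_insert_of_notMem, hc]
      · omega
      · intro h0
        have := (Finset.mem_Icc.1 (hB h0)).1
        omega
    · intro i hi j hj
      rw [Win_g_mem, Finset.mem_image] at hi hj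
      obtain ⟨b, -, hb⟩ := hi
      obtain ⟨c, hc', hcj⟩ := hj
      have : c ≤ w := by
        rcases Finset.mem_insert.1 hc' with h | h
        · omega
        · exact (Finset.mem_Icc.1 (hB h)).2
      omega
  · rintro ⟨a, B⟩ hp ⟨a', B'⟩ hp' h
    rw [Finset.mem_coe, Finset.mem_product, Finset.mem_range, Finset.mem_powersetCard] at hp hp'
    obtain ⟨ha, hB, -⟩ := hp
    obtain ⟨ha', hB', -⟩ := hp'
    simp only at ha hB ha' hB' h
    have h2 := congrArg (fun e => Finset.map Fin.valEmbedding e) h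
    rw [Win_g_map (Win_T_lt hw ha hB), Win_g_map (Win_T_lt hw ha' hB')] at h2
    have h3 : a = a' := by
      have k1 : a ∈ (insert 0 B).image (fun b => a + b) :=
        Finset.mem_image.2 ⟨0, Finset.mem_insert_self _ _, rfl⟩
      have k2 : a' ∈ (insert 0 B').image (fun b => a' + b) :=
        Finset.mem_image.2 ⟨0, Finset.mem_insert_self _ _, rfl⟩
      rw [h2, Finset.mem_image] at k1
      rw [← h2, Finset.mem_image] at k2
      obtain ⟨b, -, hb⟩ := k1
      obtain ⟨c, -, hc⟩ := k2
      omega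
    subst h3
    have h4 := Finset.image_injective (add_right_injective a) h2
    have h5 : ∀ C : Finset ℕ, C ⊆ Icc 1 w → (insert 0 C).erase 0 = C := fun C hC =>
      Finset.erase_insert fun h0 => by
        have := (Finset.mem_Icc.1 (hC h0)).1
        omega
    have h6 : B = B' := by rw [← h5 B hB, ← h5 B' hB', h4]
    rw [h6]

private lemma Win_sum (ρ w : ℕ) : ∑ t ∈ Icc 1 w, (t + 1) * (t - 1).choose ρ =
    (ρ + 1) * (w + 1).choose (ρ + 2) + w.choose (ρ + 1) := by
  induction w with
  | zero =>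
    have h : Nat.choose 1 (ρ + 2) = 0 := Nat.choose_eq_zero_of_lt (by omega)
    simp [h]
  | succ w ih =>
    rw [Finset.sum_Icc_succ_top (by omega), ih, Nat.add_sub_cancel]
    have h1 := Nat.add_one_mul_choose_eq w ρ
    have h2 : (w + 1 + 1).choose (ρ + 2) = (w + 1).choose (ρ + 1) + (w + 1).choose (ρ + 2) :=
      Nat.choose_succ_succ' _ _
    have h3 : (w + 1).choose (ρ + 1) = w.choose ρ + w.choose (ρ + 1) := Nat.choose_succ_succ' _ _
    rw [h2]
    nlinarith

private def Win_f (n F t s : ℕ) (C : Finset ℕ) : Finset (Fin n) :=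
  Win_g n (insert (F - s) (insert (F - s + t) (C.image (fun x => F - s + x))))

open Classical in
theorem win_cov {n r w : ℕ} (hr : 2 ≤ r) (τ : ℝ) :
    ((win n r w).filter fun e : Finset (Fin n) => ∃ i : Fin n, i ∈ e ∧ ∃ j : Fin n, j ∈ e ∧ (((i : ℕ) : ℝ) ≤ τ ∧ τ ≤ ((j : ℕ) : ℝ))).card ≤
      (r - 1) * (w + 1).choose r + w.choose (r - 1) := by
  set F : ℕ := ⌊τ⌋₊ with hF
  have hsub : ((win n r w).filter fun e : Finset (Fin n) => ∃ i : Fin n, i ∈ e ∧
      ∃ j : Fin n, j ∈ e ∧ (((i : ℕ) : ℝ) ≤ τ ∧ τ ≤ ((j : ℕ) : ℝ))) ⊆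
      (Icc 1 w).biUnion fun t => ((range (t + 1)) ×ˢ (powersetCard (r - 2) (Icc 1 (t - 1)))).image
        fun p => Win_f n F t p.1 p.2 := by
    intro e he
    rw [Finset.mem_filter] at he
    obtain ⟨hew, i, hi, j, hj, hiτ, hτj⟩ := he
    unfold win at hew
    rw [Finset.mem_filter, Finset.mem_powersetCard] at hew
    obtain ⟨⟨-, hcard⟩, hdiam⟩ := hew
    have hne : e.Nonempty := ⟨i, hi⟩
    set x := e.min' hne with hx
    set y := e.max' hne with hy
    have hxe : x ∈ e := Finset.min'_mem _ _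
    have hye : y ∈ e := Finset.max'_mem _ _
    have hmin : ∀ z ∈ e, (x : ℕ) ≤ z := fun z hz => Finset.min'_le _ _ hz
    have hmax : ∀ z ∈ e, (z : ℕ) ≤ y := fun z hz => Finset.le_max' _ _ hz
    have hxy : (x : ℕ) < y := by
      obtain ⟨u, hu, v, hv, huv⟩ := Finset.one_lt_card.1 (show 1 < e.card by omega)
      have a1 := hmin u hu
      have a2 := hmin v hv
      have a3 := hmax u hu
      have a4 := hmax v hv
      have a5 : (u : ℕ) ≠ v := fun h => huv (Fin.ext h)
      omega
    have hτ0 : 0 ≤ τ := le_trans (Nat.cast_nonneg _) hiτ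
    have hxF : (x : ℕ) ≤ F := by
      have : (i : ℕ) ≤ F := Nat.le_floor hiτ
      exact (hmin i hi).trans this
    have hFy : F ≤ (y : ℕ) := by
      have h1 : (F : ℝ) ≤ ((j : ℕ) : ℝ) := (Nat.floor_le hτ0).trans hτj
      have h2 : F ≤ (j : ℕ) := by exact_mod_cast h1
      exact h2.trans (hmax j hj)
    have hyx : (y : ℕ) ≤ x + w := hdiam x hxe y hye
    rw [Finset.mem_biUnion]
    refine ⟨(y : ℕ) - x, Finset.mem_Icc.2 ⟨by omega, by omega⟩, ?_⟩
    rw [Finset.mem_image]
    set e' : Finset (Fin n) := (e.erase x).erase y with he'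
    have hmem' : ∀ z : Fin n, z ∈ e' ↔ z ≠ y ∧ z ≠ x ∧ z ∈ e := by
      intro z
      rw [he', Finset.mem_erase, Finset.mem_erase]
    have hlt : ∀ z ∈ e', (x : ℕ) < z ∧ (z : ℕ) < y := by
      intro z hz
      rw [hmem'] at hz
      have a1 := hmin z hz.2.2
      have a2 := hmax z hz.2.2
      have a3 : (z : ℕ) ≠ y := fun h => hz.1 (Fin.ext h)
      have a4 : (z : ℕ) ≠ x := fun h => hz.2.1 (Fin.ext h)
      omega
    refine ⟨(F - x, e'.image fun z : Fin n => (z : ℕ) - (x : ℕ)), ?_, ?_⟩
    · rw [Finset.mem_product, Finset.mem_range, Finset.mem_powersetCard]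
      refine ⟨by simp only; omega, ?_, ?_⟩
      · intro c hc
        simp only at hc
        rw [Finset.mem_image] at hc
        obtain ⟨z, hz, rfl⟩ := hc
        have := hlt z hz
        rw [Finset.mem_Icc]
        omega
      · simp only
        rw [Finset.card_image_of_injOn, he', Finset.card_erase_of_mem, Finset.card_erase_of_mem hxe,
          hcard]
        · omega
        · rw [Finset.mem_erase]
          exact ⟨fun h => by rw [h] at hxy; omega, hye⟩
        · intro z hz z' hz' h
          have a1 := hlt z hz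
          have a2 := hlt z' hz'
          simp only at h
          exact Fin.ext (by omega)
    · simp only
      unfold Win_f
      have hFx : F - (F - (x : ℕ)) = x := by omega
      rw [hFx]
      ext z
      rw [Win_g_mem, Finset.mem_insert, Finset.mem_insert, Finset.mem_image]
      constructor
      · rintro (h | h | ⟨c, hc, h⟩)
        · have : z = x := Fin.ext h
          rw [this]; exact hxe
        · have : z = y := Fin.ext (by omega)
          rw [this]; exact hye
        · rw [Finset.mem_image] at hc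
          obtain ⟨u, hu, rfl⟩ := hc
          have := hlt u hu
          have hzu : z = u := Fin.ext (by omega)
          rw [hzu]
          exact ((hmem' u).1 hu).2.2
      · intro hz
        by_cases h1 : z = x
        · left; rw [h1]
        · by_cases h2 : z = y
          · right; left; rw [h2]; omega
          · right; right
            have hz' : z ∈ e' := (hmem' z).2 ⟨h2, h1, hz⟩
            refine ⟨(z : ℕ) - x, Finset.mem_image.2 ⟨z, hz', rfl⟩, ?_⟩
            have := hlt z hz'
            omega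
  refine (Finset.card_le_card hsub).trans (Finset.card_biUnion_le.trans ?_)
  obtain ⟨ρ, rfl⟩ : ∃ ρ, r = ρ + 2 := ⟨r - 2, by omega⟩
  have h1 := Win_sum ρ w
  simp only [Nat.add_sub_cancel, show ρ + 2 - 1 = ρ + 1 by omega]
  rw [← h1]
  refine Finset.sum_le_sum fun t ht => ?_
  refine Finset.card_image_le.trans (le_of_eq ?_)
  rw [Finset.card_product, Finset.card_range, Finset.card_powersetCard, Nat.card_Icc]
  simp

end Pool.Agent.H9.SC
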