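import Pool.Agent.H9.SC.Mom
import Pool.Agent.H9.SC.MomM
import Pool.Agent.H9.SC.Win

/-! # SC.UpF

The finite upper bound for hyperplanes.

PROOF. Take a subset `F` of `win n r w` with `m` elements (`win_card`), `G := mkHyp .. (mom d n) (mom_GP d n) F` (H68/GeomHyp), `fval_le`, `mkHyp_numMet`; for a `(d-1)`-flat `L`, `mom_met` gives `R`: the met edges are in the union over `τ ∈ R` of the sets of `win_cov`: `card_biUnion_le`. -/

set_option autoImplicit false

open Module Finset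

namespace Pool.Agent.H9.SC

open Pool.Agent.H68

theorem up_fin {d r n m w : ℕ} (hr : 2 ≤ r) (hrd : r ≤ d + 1) (hw : w ≤ n)
    (hm : m ≤ (n - w) * w.choose (r - 1)) :
    fval d r (d - 1) m n ≤ d * ((r - 1) * (w + 1).choose r + w.choose (r - 1)) := by
  classical
  have hd : 1 ≤ d := by omega
  obtain ⟨F, hFs, hFm⟩ := Finset.exists_subset_card_eq (hm.trans (win_card (r := r) hr hw))
  have hFr : ∀ e ∈ F, e.card = r := fun e he =>
    (Finset.mem_powersetCard.1 (Finset.mem_filter.1 (hFs he)).1).2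
  refine fval_le (mkHyp hd hrd (mom d n) (mom_GP d n) F hFr) (mkHyp_card_V ..)
    (by rw [mkHyp_card_E]; exact hFm) ?_
  intro L hL
  rw [mkHyp_numMet]
  obtain ⟨R, hR, hmet⟩ := mom_met (n := n) hd L hL
  have hsub : F.filter (fun e => MeetsIdx (mom d n) L e) ⊆ R.biUnion (fun τ : ℝ =>
      (win n r w).filter fun e : Finset (Fin n) => ∃ i : Fin n, i ∈ e ∧ ∃ j : Fin n, j ∈ e ∧
        (((i : ℕ) : ℝ) ≤ τ ∧ τ ≤ ((j : ℕ) : ℝ))) := by
    intro e he
    obtain ⟨he1, he2⟩ := Finset.mem_filter.1 he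
    obtain ⟨τ, hτ, h3⟩ := hmet e he2
    exact Finset.mem_biUnion.2 ⟨τ, hτ, Finset.mem_filter.2 ⟨hFs he1, h3⟩⟩
  have hb : ∀ τ ∈ R, ((win n r w).filter fun e : Finset (Fin n) => ∃ i : Fin n, i ∈ e ∧
      ∃ j : Fin n, j ∈ e ∧ (((i : ℕ) : ℝ) ≤ τ ∧ τ ≤ ((j : ℕ) : ℝ))).card ≤
        (r - 1) * (w + 1).choose r + w.choose (r - 1) := fun τ _ => by
    convert win_cov (n := n) (w := w) hr τ
  exact (Finset.card_le_card hsub).trans ((Finset.card_biUnion_le_card_mul _ _ _ hb).trans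
    (Nat.mul_le_mul_right _ hR))

end Pool.Agent.H9.SC
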